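import Pool.Agent.Work.MP_8ff565_lc.NPmem

/-!
The folded state built from a plan.

Plan. Let `κ = key mv2` (`κ i = i` for `i ≤ L`, `L < κ i < N` for `L < i < N`). The node of a
face is `nd 2 i = f i`, and for `r = 0, 1`: `nd r i = if i ≤ L then i else 2 L + 1 - f i`. The
coordinate is `ξ 2 i = 3 κ i`; for `i ≤ L`: `ξ 1 i = 0`, `ξ 0 i = 3 N`; for `L < i`:
`ξ 1 i = 3 κ i`, `ξ 0 i = 3 κ i - 1` if `dir f i` and `3 κ i + 1` otherwise. The height is
`h r i = g (nd r i) * (8 N) + (if nd r i % 2 = 0 then ξ r i else - ξ r i)`.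
`ncv`: `subst_nc` with `μ u = if u % 2 = ε then u + 1 else u - 1`; steps with `mv2 = 0` (and the
step `L -> L + 1` of the rows `A, B`) join `u` and `μ u` and keep the order of `ξ` (`key_adv`);
steps with `mv2 ≠ 0` stay in the node and change `κ` by one.
`ncn`: no face of the rows `A, B` lies between `A i` and `B i`.
`ncs`: `subst_nc` with `μ u = 2 L + 1 - u`; `B i, C i` are neighbours in node `i` for `i ≤ L`.
-/

namespace Pool.Agent.Work.MP_8ff565_lc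

/-- The node of a face. -/
def Build_nd (L : ℕ) (f : ℕ → ℕ) (a : Fin 3 × ℕ) : ℕ :=
  if a.1 = 2 then f a.2 else if a.2 ≤ L then a.2 else 2 * L + 1 - f a.2

/-- The coordinate of a face in its node. -/
def Build_xi (N L : ℕ) (f κ : ℕ → ℕ) (a : Fin 3 × ℕ) : ℤ :=
  if a.1 = 2 then 3 * κ a.2 else if a.2 ≤ L then (if a.1 = 1 then 0 else 3 * N) else
  if a.1 = 1 then 3 * κ a.2 else if f a.2 % 2 = a.2 % 2 then 3 * κ a.2 - 1 else 3 * κ a.2 + 1

/-- The signed coordinate. -/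
def Build_z (N L : ℕ) (f κ : ℕ → ℕ) (a : Fin 3 × ℕ) : ℤ :=
  if Build_nd L f a % 2 = 0 then Build_xi N L f κ a else -Build_xi N L f κ a

/-- The height of a face. -/
def Build_h (N L : ℕ) (f κ : ℕ → ℕ) (g : ℕ → ℤ) (a : Fin 3 × ℕ) : ℤ :=
  g (Build_nd L f a) * (8 * N) + Build_z N L f κ a

/-- What is needed about the walk of row `C`. -/
structure Build_Ctx (N L : ℕ) (f κ : ℕ → ℕ) : Prop where
  hN : L + 1 < N
  base : ∀ i, 1 ≤ i → i < N → (i ≤ L ∧ f i = i ∧ κ i = i) ∨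
    (L < i ∧ 2 ≤ f i ∧ f i ≤ L ∧ L < κ i ∧ κ i < N)
  inj : ∀ i j, 1 ≤ i → i < N → 1 ≤ j → j < N → κ i = κ j → i = j
  step : ∀ i, 1 ≤ i → i + 1 < N → (f (i + 1) = f i + 1 ∧ f i % 2 = i % 2) ∨
    (f (i + 1) + 1 = f i ∧ f i % 2 ≠ i % 2) ∨
    (f (i + 1) = f i ∧ (κ (i + 1) = κ i + 1 ∨ κ (i + 1) + 1 = κ i))
  adv : ∀ i j, 1 ≤ i → i < j → j + 1 < N → i % 2 = j % 2 → f (i + 1) ≠ f i → f (j + 1) ≠ f j →
    κ i < κ j ∧ κ i < κ (j + 1) ∧ κ (i + 1) < κ j ∧ κ (i + 1) < κ (j + 1)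

theorem Build_ctx {N Λ L : ℕ} {w : ℕ → Letter} {π mv1 f mv2 : ℕ → ℕ}
    (P : Plan N Λ L w π mv1 f mv2) : Build_Ctx N L f (key mv2) := by
  have hN := P.hN
  have hL := P.hL
  have W := P.w2
  have h0 : ∀ i, i ≤ L → mv2 i ≤ 1 := by
    intro i hi
    rcases Nat.eq_zero_or_pos i with rfl | h1
    · exact W.zero
    rcases hi.eq_or_lt with rfl | h2
    · exact P.turnL.le
    have h3 := (P.sync i h1 hi).1
    have h4 := (P.sync (i + 1) (by omega) h2).1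
    rcases W.step i h1 (by omega) with h | h | h | h <;> omega
  refine ⟨hN, fun i h1 h2 => ?_, fun i j h1 h2 h3 h4 => W.key_inj h1 (by omega) h3 (by omega),
    fun i h1 h2 => ?_, fun i j h1 h2 h3 h4 h5 h6 => ?_⟩
  · rcases le_or_gt i L with h | h
    · have h3 := h0 i h
      have h4 := h0 (i - 1) (by omega)
      refine Or.inl ⟨h, (P.sync i h1 h).1, ?_⟩
      rw [key, if_neg (by omega), if_neg (by omega)]
    · have h3 := P.range i h h2
      have h4 := (W.key_in (by omega) (by omega) P.turnL).2.2 i h (by omega)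
      have h5 := W.key_range h1 (by omega : i ≤ N - 1)
      omega
  · rcases W.step i h1 (by omega) with h | h | h | h
    · exact Or.inl ⟨h.2.1, h.2.2.1⟩
    · exact Or.inr (Or.inl ⟨h.2.1, h.2.2.1⟩)
    · have h3 := W.key_in h1 (by omega) h.1
      have h4 := h3.2.1 (by omega)
      exact Or.inr (Or.inr ⟨h.2.1, Or.inl (by omega)⟩)
    · exact Or.inr (Or.inr ⟨h.2.1, Or.inr (W.key_out h1 (by omega) h.1)⟩)
  · have h7 : mv2 i = 0 := by rcases W.step i h1 (by omega) with h | h | h | h <;> omega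
    have h8 : mv2 j = 0 := by rcases W.step j (by omega) (by omega) with h | h | h | h <;> omega
    have h9 := W.key_adv h1 h2 (by omega) h4 h7 h8
    omega

section
variable {N L : ℕ} {f κ : ℕ → ℕ} {g : ℕ → ℤ}

theorem Build_nd2 (i : ℕ) : Build_nd L f (2, i) = f i := rfl

theorem Build_xi2 (i : ℕ) : Build_xi N L f κ (2, i) = 3 * κ i := rfl

theorem Build_lo {r : Fin 3} (hr : r ≠ 2) {i : ℕ} (h : i ≤ L) : Build_nd L f (r, i) = i := by
  simp [Build_nd, hr, h]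

theorem Build_hi {r : Fin 3} (hr : r ≠ 2) {i : ℕ} (h : L < i) :
    Build_nd L f (r, i) = 2 * L + 1 - f i := by
  simp [Build_nd, hr, h.not_ge]

theorem Build_spec (N L : ℕ) (f κ : ℕ → ℕ) (r : Fin 3) (i : ℕ) :
    (r.val = 2 ∧ Build_nd L f (r, i) = f i ∧ Build_xi N L f κ (r, i) = 3 * κ i) ∨
    (r.val = 1 ∧ i ≤ L ∧ Build_nd L f (r, i) = i ∧ Build_xi N L f κ (r, i) = 0) ∨
    (r.val = 0 ∧ i ≤ L ∧ Build_nd L f (r, i) = i ∧ Build_xi N L f κ (r, i) = 3 * N) ∨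
    (r.val = 1 ∧ L < i ∧ Build_nd L f (r, i) = 2 * L + 1 - f i ∧
      Build_xi N L f κ (r, i) = 3 * κ i) ∨
    (r.val = 0 ∧ L < i ∧ Build_nd L f (r, i) = 2 * L + 1 - f i ∧ f i % 2 = i % 2 ∧
      Build_xi N L f κ (r, i) = 3 * κ i - 1) ∨
    (r.val = 0 ∧ L < i ∧ Build_nd L f (r, i) = 2 * L + 1 - f i ∧ f i % 2 ≠ i % 2 ∧
      Build_xi N L f κ (r, i) = 3 * κ i + 1) := by
  rcases le_or_gt i L with h | h
  · fin_cases r <;> simp [Build_nd, Build_xi, h]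
  · by_cases h1 : f i % 2 = i % 2 <;> fin_cases r <;> simp [Build_nd, Build_xi, h, h.not_ge, h1]

theorem Build_zspec (N L : ℕ) (f κ : ℕ → ℕ) (a : Fin 3 × ℕ) :
    (Build_nd L f a % 2 = 0 ∧ Build_z N L f κ a = Build_xi N L f κ a) ∨
    (Build_nd L f a % 2 = 1 ∧ Build_z N L f κ a = -Build_xi N L f κ a) := by
  unfold Build_z
  split_ifs with h
  · exact Or.inl ⟨h, rfl⟩
  · exact Or.inr ⟨by omega, rfl⟩

theorem Build_blo (C : Build_Ctx N L f κ) {i : ℕ} (h1 : 1 ≤ i) (h2 : i < N) (h : i ≤ L) :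
    f i = i ∧ κ i = i :=
  ((C.base i h1 h2).resolve_right fun k => not_le.2 k.1 h).2

theorem Build_bhi (C : Build_Ctx N L f κ) {i : ℕ} (h2 : i < N) (h : L < i) :
    2 ≤ f i ∧ f i ≤ L ∧ L < κ i ∧ κ i < N :=
  ((C.base i (by omega) h2).resolve_left fun k => not_le.2 h k.1).2

theorem Build_brg (C : Build_Ctx N L f κ) {i : ℕ} (h1 : 1 ≤ i) (h2 : i < N) :
    1 ≤ κ i ∧ κ i < N ∧ f i ≤ L := by
  have := C.base i h1 h2
  omega

theorem Build_fL (C : Build_Ctx N L f κ) (h1 : 1 ≤ L) : f (L + 1) = L := by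
  have hN := C.hN
  have a := (Build_blo C h1 (by omega) le_rfl).1
  have b := (Build_bhi C hN (Nat.lt_succ_self L)).2.1
  rcases C.step L h1 hN with c | c | c <;> omega

theorem Build_mid (C : Build_Ctx N L f κ) (h1 : 1 ≤ L) {r : Fin 3} (hr : r ≠ 2) :
    Build_nd L f (r, L + 1) = L + 1 := by
  rw [Build_hi hr (Nat.lt_succ_self L), Build_fL C h1]
  omega

theorem Build_xlo1 {i : ℕ} (h : i ≤ L) : Build_xi N L f κ (1, i) = 0 := if_pos h

theorem Build_xlo0 {i : ℕ} (h : i ≤ L) : Build_xi N L f κ (0, i) = 3 * N := if_pos h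

theorem Build_xhi1 {i : ℕ} (h : L < i) : Build_xi N L f κ (1, i) = 3 * κ i := if_neg h.not_ge

theorem Build_xhi0 {i : ℕ} (h : L < i) (k : f i % 2 = i % 2) :
    Build_xi N L f κ (0, i) = 3 * κ i - 1 := (if_neg h.not_ge).trans (if_pos k)

theorem Build_xhi0' {i : ℕ} (h : L < i) (k : f i % 2 ≠ i % 2) :
    Build_xi N L f κ (0, i) = 3 * κ i + 1 := (if_neg h.not_ge).trans (if_neg k)

theorem Build_tri (r : Fin 3) : r = 0 ∨ r = 1 ∨ r = 2 := by
  revert r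
  decide

theorem Build_cr1 {a b c d : ℤ} (h : ¬Cr a b c d) : ¬Cr b a c d := by
  unfold Cr at h ⊢
  rwa [min_comm b a, max_comm b a]

theorem Build_cr2 {a b c d : ℤ} (h : ¬Cr a b c d) : ¬Cr a b d c := by
  unfold Cr at h ⊢
  rwa [min_comm d c, max_comm d c]

theorem Build_range (C : Build_Ctx N L f κ) (r : Fin 3) {i : ℕ} (h1 : 1 ≤ i) (h2 : i < N) :
    1 ≤ Build_nd L f (r, i) ∧ Build_nd L f (r, i) ≤ 2 * L ∧
      2 * |Build_z N L f κ (r, i)| < 8 * N := by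
  have h3 := Build_spec N L f κ r i
  have h4 := Build_zspec N L f κ (r, i)
  have h5 := C.base i h1 h2
  have h6 := abs_cases (Build_z N L f κ (r, i))
  omega

theorem Build_lt (C : Build_Ctx N L f κ)
    (hg : ∀ u v, 1 ≤ u → u ≤ 2 * L → 1 ≤ v → v ≤ 2 * L → g u = g v → u = v) (r r' : Fin 3)
    {i j : ℕ} (h1 : 1 ≤ i) (h2 : i < N) (h3 : 1 ≤ j) (h4 : j < N) :
    Build_h N L f κ g (r, i) < Build_h N L f κ g (r', j) ↔
      g (Build_nd L f (r, i)) < g (Build_nd L f (r', j)) ∨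
        (Build_nd L f (r, i) = Build_nd L f (r', j) ∧
          Build_z N L f κ (r, i) < Build_z N L f κ (r', j)) := by
  have a := Build_range C r h1 h2
  have b := Build_range C r' h3 h4
  rw [Build_h, Build_h, lex_lt a.2.2 b.2.2]
  refine or_congr Iff.rfl (and_congr ⟨hg _ _ a.1 a.2.1 b.1 b.2.1, fun h => by rw [h]⟩ Iff.rfl)

theorem Build_lt_same (C : Build_Ctx N L f κ)
    (hg : ∀ u v, 1 ≤ u → u ≤ 2 * L → 1 ≤ v → v ≤ 2 * L → g u = g v → u = v) {r r' : Fin 3}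
    {i j : ℕ} (h1 : 1 ≤ i) (h2 : i < N) (h3 : 1 ≤ j) (h4 : j < N)
    (e : Build_nd L f (r, i) = Build_nd L f (r', j)) :
    Build_h N L f κ g (r, i) < Build_h N L f κ g (r', j) ↔
      Build_z N L f κ (r, i) < Build_z N L f κ (r', j) := by
  rw [Build_lt C hg r r' h1 h2 h3 h4, e]
  simp

theorem Build_lt_diff (C : Build_Ctx N L f κ)
    (hg : ∀ u v, 1 ≤ u → u ≤ 2 * L → 1 ≤ v → v ≤ 2 * L → g u = g v → u = v) {r r' : Fin 3}
    {i j u v : ℕ} (h1 : 1 ≤ i) (h2 : i < N) (h3 : 1 ≤ j) (h4 : j < N)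
    (e : Build_nd L f (r, i) = u) (e' : Build_nd L f (r', j) = v) (hne : u ≠ v) :
    Build_h N L f κ g (r, i) < Build_h N L f κ g (r', j) ↔ g u < g v := by
  rw [Build_lt C hg r r' h1 h2 h3 h4, e, e']
  simp [hne]

theorem Build_btw (C : Build_Ctx N L f κ)
    (hg : ∀ u v, 1 ≤ u → u ≤ 2 * L → 1 ≤ v → v ≤ 2 * L → g u = g v → u = v) (r : Fin 3)
    {i j : ℕ} (h1 : 1 ≤ i) (h2 : i < N) (h3 : 1 ≤ j) (h4 : j < N)
    (h : Btw (Build_h N L f κ g (r, j)) (Build_h N L f κ g (0, i)) (Build_h N L f κ g (1, i))) :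
    r = 2 ∧ f j = i := by
  have e : Build_nd L f (0, i) = Build_nd L f (1, i) := rfl
  have a1 := Build_lt C hg 0 r h1 h2 h3 h4
  have a2 := Build_lt C hg r 1 h3 h4 h1 h2
  have a3 := Build_lt C hg 1 r h1 h2 h3 h4
  have a4 := Build_lt C hg r 0 h3 h4 h1 h2
  rw [Btw, a1, a2, a3, a4, e] at h
  have h5 : Build_nd L f (r, j) = Build_nd L f (1, i) ∧
      ((Build_z N L f κ (0, i) < Build_z N L f κ (r, j) ∧
        Build_z N L f κ (r, j) < Build_z N L f κ (1, i)) ∨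
      (Build_z N L f κ (1, i) < Build_z N L f κ (r, j) ∧
        Build_z N L f κ (r, j) < Build_z N L f κ (0, i))) := by
    rcases h with ⟨h | h, h' | h'⟩ | ⟨h | h, h' | h'⟩
    · exact absurd h h'.not_gt
    · exact absurd h (h'.1 ▸ lt_irrefl _)
    · exact absurd h' (h.1 ▸ lt_irrefl _)
    · exact ⟨h'.1, Or.inl ⟨h.2, h'.2⟩⟩
    · exact absurd h h'.not_gt
    · exact absurd h (h'.1 ▸ lt_irrefl _)
    · exact absurd h' (h.1 ▸ lt_irrefl _)
    · exact ⟨h'.1, Or.inr ⟨h.2, h'.2⟩⟩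
  clear h a1 a2 a3 a4
  obtain ⟨h5, h6⟩ := h5
  rw [Build_z, Build_z, Build_z, h5, e] at h6
  have h7 : (Build_xi N L f κ (0, i) < Build_xi N L f κ (r, j) ∧
      Build_xi N L f κ (r, j) < Build_xi N L f κ (1, i)) ∨
      (Build_xi N L f κ (1, i) < Build_xi N L f κ (r, j) ∧
        Build_xi N L f κ (r, j) < Build_xi N L f κ (0, i)) := by
    split_ifs at h6
    · exact h6
    · simp only [neg_lt_neg_iff] at h6
      exact h6.symm.imp And.symm And.symm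
  clear h6 e
  rcases le_or_gt i L with k | k
  · rw [Build_xlo0 k, Build_xlo1 k] at h7
    rw [Build_lo (r := 1) (by decide) k] at h5
    by_cases hr : r = 2
    · subst hr
      exact ⟨rfl, h5⟩
    exfalso
    rcases le_or_gt j L with k' | k'
    · rcases Build_tri r with rfl | rfl | rfl
      · rw [Build_xlo0 k'] at h7
        omega
      · rw [Build_xlo1 k'] at h7
        omega
      · exact hr rfl
    · have := (Build_bhi C h4 k').2.1
      rw [Build_hi hr k'] at h5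
      clear h7
      omega
  · exfalso
    rw [Build_xhi1 k] at h7
    by_cases p : f i % 2 = i % 2
    · rw [Build_xhi0 k p] at h7
      omega
    · rw [Build_xhi0' k p] at h7
      omega

theorem Build_subst (C : Build_Ctx N L f κ)
    (hg : ∀ u v, 1 ≤ u → u ≤ 2 * L → 1 ≤ v → v ≤ 2 * L → g u = g v → u = v)
    (R : Fin 3 × ℕ → Fin 3 × ℕ → Prop) (μ : ℕ → ℕ) (hR : ∀ a b, R a b → R b a)
    (hr : ∀ a b, R a b → 1 ≤ a.2 ∧ a.2 < N)
    (hμ : ∀ a b, R a b → Build_nd L f b = Build_nd L f a ∨ (Build_nd L f b = μ (Build_nd L f a) ∧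
      Build_nd L f b % 2 ≠ Build_nd L f a % 2))
    (h1 : ∀ a b c d, R a b → R c d → Build_nd L f a ≠ Build_nd L f b →
      Build_nd L f c ≠ Build_nd L f d → ¬Cr (g (Build_nd L f a)) (g (Build_nd L f b))
        (g (Build_nd L f c)) (g (Build_nd L f d)))
    (h2 : ∀ a b c d, R a b → R c d → Build_nd L f a = Build_nd L f c →
      Build_nd L f b = Build_nd L f d → Build_nd L f a ≠ Build_nd L f b →
      Build_xi N L f κ a < Build_xi N L f κ c → Build_xi N L f κ b < Build_xi N L f κ d)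
    (h3 : ∀ a b c d, R a b → R c d → Build_nd L f a = Build_nd L f b →
      Build_nd L f c = Build_nd L f a → Build_xi N L f κ a < Build_xi N L f κ c →
      Build_xi N L f κ c < Build_xi N L f κ b → Build_nd L f d = Build_nd L f a ∧
        Build_xi N L f κ a < Build_xi N L f κ d ∧ Build_xi N L f κ d < Build_xi N L f κ b)
    {a b c d : Fin 3 × ℕ} (hab : R a b) (hcd : R c d) :
    ¬Cr (Build_h N L f κ g a) (Build_h N L f κ g b) (Build_h N L f κ g c)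
      (Build_h N L f κ g d) := by
  refine subst_nc R (Build_nd L f) μ g (Build_z N L f κ) (Build_h N L f κ g) hR ?_ ?_
    (fun a b h => (hμ a b h).imp id And.left) ?_ ?_ ?_ hab hcd
  · intro a b a' b' ha hb
    exact Build_lt C hg a.1 b.1 (hr _ _ ha).1 (hr _ _ ha).2 (hr _ _ hb).1 (hr _ _ hb).2
  · intro a b a' b' ha hb
    have h4 := Build_range C a.1 (hr _ _ ha).1 (hr _ _ ha).2
    have h5 := Build_range C b.1 (hr _ _ hb).1 (hr _ _ hb).2
    exact hg _ _ h4.1 h4.2.1 h5.1 h5.2.1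
  · rintro a b c d ha hc ⟨h4, h5, h6⟩
    refine h1 a b c d ha hc (fun e => ?_) (fun e => ?_) ?_
    · rw [e] at h4
      omega
    · rw [e] at h5
      omega
    · unfold Cr
      omega
  · intro a b c d ha hc e1 e2 e3 h4
    have h5 := h2 a b c d ha hc e1 e2 e3
    have h6 := h2 c d a b hc ha e1.symm e2.symm (by omega)
    have h7 := hμ a b ha
    have z1 := Build_zspec N L f κ a
    have z2 := Build_zspec N L f κ b
    have z3 := Build_zspec N L f κ c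
    have z4 := Build_zspec N L f κ d
    (clear * - e1 e2 e3 h4 h5 h6 h7 z1 z2 z3 z4; lia)
  · intro a b c d ha hc e1 e2 h4 h5
    have h6 := h3 a b c d ha hc e1 e2
    have h7 := h3 b a c d (hR _ _ ha) hc e1.symm (e2.trans e1)
    have z1 := Build_zspec N L f κ a
    have z2 := Build_zspec N L f κ b
    have z3 := Build_zspec N L f κ c
    have z4 := Build_zspec N L f κ d
    (clear * - e1 e2 h4 h5 h6 h7 z1 z2 z3 z4; lia)

theorem Build_cn (C : Build_Ctx N L f κ) (r : Fin 3) {i : ℕ} (h1 : 1 ≤ i) (h2 : i + 1 < N) :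
    Build_nd L f (r, i + 1) = Build_nd L f (r, i) ∨
    (Build_nd L f (r, i + 1) = Build_nd L f (r, i) + 1 ∧ Build_nd L f (r, i) % 2 = i % 2) ∨
    (Build_nd L f (r, i + 1) + 1 = Build_nd L f (r, i) ∧ Build_nd L f (r, i + 1) % 2 = i % 2) := by
  have c1 := C.step i h1 h2
  by_cases hr : r = 2
  · subst hr
    rw [Build_nd2, Build_nd2]
    rcases c1 with c | c | c <;> omega
  rcases lt_trichotomy i L with h | rfl | h
  · rw [Build_lo hr h.le, Build_lo hr h]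
    exact Or.inr (Or.inl ⟨rfl, rfl⟩)
  · rw [Build_lo hr le_rfl, Build_mid C h1 hr]
    exact Or.inr (Or.inl ⟨rfl, rfl⟩)
  · have b1 := (Build_bhi C (by omega) h).2.1
    have b2 := (Build_bhi C h2 (by omega)).2.1
    rw [Build_hi hr h, Build_hi hr (by omega)]
    rcases c1 with c | c | c
    · exact Or.inr (Or.inr (by omega))
    · exact Or.inr (Or.inl (by (clear * - b1 c; lia)))
    · exact Or.inl (by rw [c.1])

/-- The description of an advancing crease. -/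
theorem Build_cs (C : Build_Ctx N L f κ) (r : Fin 3) {i : ℕ} (h1 : 1 ≤ i) (h2 : i + 1 < N)
    (hne : Build_nd L f (r, i) ≠ Build_nd L f (r, i + 1)) :
    (r.val = 2 ∧ f (i + 1) ≠ f i ∧ Build_nd L f (r, i) = f i ∧
      Build_nd L f (r, i + 1) = f (i + 1) ∧
      Build_xi N L f κ (r, i) = 3 * κ i ∧ Build_xi N L f κ (r, i + 1) = 3 * κ (i + 1)) ∨
    (r.val = 1 ∧ i < L ∧ Build_nd L f (r, i) = i ∧ Build_nd L f (r, i + 1) = i + 1 ∧
      Build_xi N L f κ (r, i) = 0 ∧ Build_xi N L f κ (r, i + 1) = 0) ∨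
    (r.val = 0 ∧ i < L ∧ Build_nd L f (r, i) = i ∧ Build_nd L f (r, i + 1) = i + 1 ∧
      Build_xi N L f κ (r, i) = 3 * N ∧ Build_xi N L f κ (r, i + 1) = 3 * N) ∨
    (r.val = 1 ∧ i = L ∧ Build_nd L f (r, i) = L ∧ Build_nd L f (r, i + 1) = L + 1 ∧
      Build_xi N L f κ (r, i) = 0 ∧ Build_xi N L f κ (r, i + 1) = 3 * κ (L + 1)) ∨
    (r.val = 0 ∧ i = L ∧ Build_nd L f (r, i) = L ∧ Build_nd L f (r, i + 1) = L + 1 ∧
      Build_xi N L f κ (r, i) = 3 * N ∧ Build_xi N L f κ (r, i + 1) = 3 * κ (L + 1) + 1) ∨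
    (r.val = 1 ∧ L < i ∧ f (i + 1) ≠ f i ∧ Build_nd L f (r, i) + f i = 2 * L + 1 ∧
      Build_nd L f (r, i + 1) + f (i + 1) = 2 * L + 1 ∧
      Build_xi N L f κ (r, i) = 3 * κ i ∧ Build_xi N L f κ (r, i + 1) = 3 * κ (i + 1)) ∨
    (r.val = 0 ∧ L < i ∧ f (i + 1) ≠ f i ∧ Build_nd L f (r, i) + f i = 2 * L + 1 ∧
      Build_nd L f (r, i + 1) + f (i + 1) = 2 * L + 1 ∧ f i % 2 = i % 2 ∧
      Build_xi N L f κ (r, i) = 3 * κ i - 1 ∧ Build_xi N L f κ (r, i + 1) = 3 * κ (i + 1) - 1) ∨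
    (r.val = 0 ∧ L < i ∧ f (i + 1) ≠ f i ∧ Build_nd L f (r, i) + f i = 2 * L + 1 ∧
      Build_nd L f (r, i + 1) + f (i + 1) = 2 * L + 1 ∧ f i % 2 ≠ i % 2 ∧
      Build_xi N L f κ (r, i) = 3 * κ i + 1 ∧
      Build_xi N L f κ (r, i + 1) = 3 * κ (i + 1) + 1) := by
  by_cases hr : r = 2
  · subst hr
    exact Or.inl ⟨rfl, fun e => hne e.symm, rfl, rfl, rfl, rfl⟩
  refine Or.inr ?_
  rcases lt_trichotomy i L with h | rfl | h
  · rcases Build_tri r with rfl | rfl | rfl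
    · exact Or.inr (Or.inl ⟨rfl, h, Build_lo hr h.le, Build_lo hr h, Build_xlo0 h.le, Build_xlo0 h⟩)
    · exact Or.inl ⟨rfl, h, Build_lo hr h.le, Build_lo hr h, Build_xlo1 h.le, Build_xlo1 h⟩
    · exact absurd rfl hr
  · rcases Build_tri r with rfl | rfl | rfl
    · exact Or.inr (Or.inr (Or.inr (Or.inl ⟨rfl, rfl, Build_lo hr le_rfl, Build_mid C h1 hr,
        Build_xlo0 le_rfl, Build_xhi0' (Nat.lt_succ_self _) (by rw [Build_fL C h1]; omega)⟩)))
    · exact Or.inr (Or.inr (Or.inl ⟨rfl, rfl, Build_lo hr le_rfl, Build_mid C h1 hr,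
        Build_xlo1 le_rfl, Build_xhi1 (Nat.lt_succ_self _)⟩))
    · exact absurd rfl hr
  refine Or.inr (Or.inr (Or.inr (Or.inr ?_)))
  have h' : L < i + 1 := by omega
  have b1 := (Build_bhi C (by omega) h).2.1
  have b2 := (Build_bhi C h2 h').2.1
  have n1 : Build_nd L f (r, i) + f i = 2 * L + 1 := by rw [Build_hi hr h]; omega
  have n2 : Build_nd L f (r, i + 1) + f (i + 1) = 2 * L + 1 := by rw [Build_hi hr h']; omega
  have d : f (i + 1) ≠ f i := by omega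
  rcases Build_tri r with rfl | rfl | rfl
  · have c : f (i + 1) % 2 = (i + 1) % 2 ↔ f i % 2 = i % 2 := by
      clear n1 n2 hne b1 b2
      rcases C.step i h1 h2 with c | c | c
      · omega
      · (clear * - c; lia)
      · exact absurd c.1 d
    by_cases k : f i % 2 = i % 2
    · exact Or.inr (Or.inl ⟨rfl, h, d, n1, n2, k, Build_xhi0 h k, Build_xhi0 h' (c.2 k)⟩)
    · exact Or.inr (Or.inr ⟨rfl, h, d, n1, n2, k, Build_xhi0' h k, Build_xhi0' h' (mt c.1 k)⟩)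
  · exact Or.inl ⟨rfl, h, d, n1, n2, Build_xhi1 h, Build_xhi1 h'⟩
  · exact absurd rfl hr

theorem Build_cs' (C : Build_Ctx N L f κ) (r : Fin 3) {i : ℕ} (h1 : 1 ≤ i) (h2 : i + 1 < N)
    (hne : Build_nd L f (r, i) ≠ Build_nd L f (r, i + 1)) : ∃ ε : ℤ, -1 ≤ ε ∧ ε ≤ 1 ∧
    ((f (i + 1) ≠ f i ∧ ((Build_nd L f (r, i) = f i ∧ Build_nd L f (r, i + 1) = f (i + 1)) ∨
        (Build_nd L f (r, i) + f i = 2 * L + 1 ∧
          Build_nd L f (r, i + 1) + f (i + 1) = 2 * L + 1)) ∧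
      Build_xi N L f κ (r, i) = 3 * κ i + ε ∧ Build_xi N L f κ (r, i + 1) = 3 * κ (i + 1) + ε) ∨
    (i < L ∧ Build_nd L f (r, i) = i ∧ Build_nd L f (r, i + 1) = i + 1 ∧
      Build_xi N L f κ (r, i + 1) = Build_xi N L f κ (r, i) ∧
      (Build_xi N L f κ (r, i) = 0 ∨ Build_xi N L f κ (r, i) = 3 * N)) ∨
    (i = L ∧ Build_nd L f (r, i) = L ∧ Build_nd L f (r, i + 1) = L + 1 ∧
      ((Build_xi N L f κ (r, i) = 0 ∧ Build_xi N L f κ (r, i + 1) = 3 * κ (L + 1)) ∨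
        (Build_xi N L f κ (r, i) = 3 * N ∧ Build_xi N L f κ (r, i + 1) = 3 * κ (L + 1) + 1)))) := by
  rcases Build_cs C r h1 h2 hne with ⟨-, a, b, c, d, e⟩ | ⟨-, a, b, c, d, e⟩ | ⟨-, a, b, c, d, e⟩ |
    ⟨-, a, b, c, d⟩ | ⟨-, a, b, c, d⟩ | ⟨-, -, a, b, c, d, e⟩ | ⟨-, -, a, b, c, -, d, e⟩ |
    ⟨-, -, a, b, c, -, d, e⟩
  · exact ⟨0, by decide, by decide, Or.inl ⟨a, Or.inl ⟨b, c⟩, d.trans (add_zero _).symm,
      e.trans (add_zero _).symm⟩⟩
  · exact ⟨0, by decide, by decide, Or.inr (Or.inl ⟨a, b, c, e.trans d.symm, Or.inl d⟩)⟩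
  · exact ⟨0, by decide, by decide, Or.inr (Or.inl ⟨a, b, c, e.trans d.symm, Or.inr d⟩)⟩
  · exact ⟨0, by decide, by decide, Or.inr (Or.inr ⟨a, b, c, Or.inl d⟩)⟩
  · exact ⟨0, by decide, by decide, Or.inr (Or.inr ⟨a, b, c, Or.inr d⟩)⟩
  · exact ⟨0, by decide, by decide, Or.inl ⟨a, Or.inr ⟨b, c⟩, d.trans (add_zero _).symm,
      e.trans (add_zero _).symm⟩⟩
  · exact ⟨-1, by decide, by decide, Or.inl ⟨a, Or.inr ⟨b, c⟩,
      d.trans (sub_eq_add_neg _ _), e.trans (sub_eq_add_neg _ _)⟩⟩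
  · exact ⟨1, by decide, by decide, Or.inl ⟨a, Or.inr ⟨b, c⟩, d, e⟩⟩

theorem Build_v2 (C : Build_Ctx N L f κ) (r r' : Fin 3) {i j : ℕ} (h1 : 1 ≤ i) (h2 : i + 1 < N)
    (h3 : 1 ≤ j) (h4 : j + 1 < N) (hp : i % 2 = j % 2)
    (hne : Build_nd L f (r, i) ≠ Build_nd L f (r, i + 1)) :
    (Build_nd L f (r, i) = Build_nd L f (r', j) →
      Build_nd L f (r, i + 1) = Build_nd L f (r', j + 1) →
      (Build_xi N L f κ (r, i) < Build_xi N L f κ (r', j) ↔
        Build_xi N L f κ (r, i + 1) < Build_xi N L f κ (r', j + 1))) ∧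
    (Build_nd L f (r, i) = Build_nd L f (r', j + 1) →
      Build_nd L f (r, i + 1) = Build_nd L f (r', j) →
      (Build_xi N L f κ (r, i) < Build_xi N L f κ (r', j + 1) ↔
        Build_xi N L f κ (r, i + 1) < Build_xi N L f κ (r', j))) := by
  obtain ⟨ε, p1, p2, a1⟩ := Build_cs' C r h1 h2 hne
  obtain ⟨b1, b2, b3⟩ := Build_brg C h1 (by omega)
  obtain ⟨b4, b5, b6⟩ := Build_brg C (Nat.le_add_left 1 i) h2
  obtain ⟨b7, b8, b9⟩ := Build_brg C h3 (by omega)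
  obtain ⟨b10, b11, b12⟩ := Build_brg C (Nat.le_add_left 1 j) h4
  constructor
  all_goals
    intro e1 e2
    obtain ⟨δ, q1, q2, a2⟩ := Build_cs' C r' h3 h4 fun e => hne (by omega)
    rcases a1 with ⟨s1, s2, s3, s4⟩ | ⟨s1, s2, s3, s4, s5⟩ | ⟨s1, s2, s3, s4⟩ <;>
      rcases a2 with ⟨t1, t2, t3, t4⟩ | ⟨t1, t2, t3, t4, t5⟩ | ⟨t1, t2, t3, t4⟩
    · rw [s3, s4, t3, t4]
      rcases lt_trichotomy i j with h | rfl | h
      · obtain ⟨c1, c2, c3, c4⟩ := C.adv i j h1 h h4 hp s1 t1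
        exact iff_of_true (by (clear * - c1 c2 p1 p2 q1 q2 s3 s4 t3 t4; omega)) (by (clear * - c3 c4 p1 p2 q1 q2 s3 s4 t3 t4; omega))
      · clear hp hne s3 s4 t3 t4
        (clear * - b3 b6 e1 s2 t1 t2; lia)
      · obtain ⟨c1, c2, c3, c4⟩ := C.adv j i h3 h h2 hp.symm t1 s1
        exact iff_of_false (by (clear * - c1 c3 p1 p2 q1 q2 s3 s4 t3 t4; omega)) (by (clear * - c2 c4 p1 p2 q1 q2 s3 s4 t3 t4; omega))
    · rw [s3, s4, t4]
      rcases t5 with t5 | t5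
      · exact iff_of_false (by omega) (by omega)
      · exact iff_of_true (by omega) (by omega)
    · exfalso
      clear t4 hp hne s3 s4
      omega
    · rw [s4, t3, t4]
      rcases s5 with s5 | s5
      · exact iff_of_true (by omega) (by omega)
      · exact iff_of_false (by omega) (by omega)
    · rw [s4, t4]
    · exfalso
      clear t4 s5 hp hne
      omega
    · exfalso
      clear s4 hp hne t3 t4
      omega
    · exfalso
      clear s4 t5 hp hne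
      omega
    · clear hp hne
      omega

/-- The description of a turning crease. -/
theorem Build_ts (C : Build_Ctx N L f κ) (r : Fin 3) {i : ℕ} (h1 : 1 ≤ i) (h2 : i + 1 < N)
    (he : Build_nd L f (r, i) = Build_nd L f (r, i + 1)) :
    f (i + 1) = f i ∧ (κ (i + 1) = κ i + 1 ∨ κ (i + 1) + 1 = κ i) ∧
    ((r.val = 2 ∧ Build_nd L f (r, i) ≤ L ∧
      Build_xi N L f κ (r, i) = 3 * κ i ∧ Build_xi N L f κ (r, i + 1) = 3 * κ (i + 1)) ∨
    (r.val = 1 ∧ L < i ∧ L < Build_nd L f (r, i) ∧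
      Build_xi N L f κ (r, i) = 3 * κ i ∧ Build_xi N L f κ (r, i + 1) = 3 * κ (i + 1)) ∨
    (r.val = 0 ∧ L < i ∧ L < Build_nd L f (r, i) ∧ f i % 2 = i % 2 ∧
      Build_xi N L f κ (r, i) = 3 * κ i - 1 ∧ Build_xi N L f κ (r, i + 1) = 3 * κ (i + 1) + 1) ∨
    (r.val = 0 ∧ L < i ∧ L < Build_nd L f (r, i) ∧ f i % 2 ≠ i % 2 ∧
      Build_xi N L f κ (r, i) = 3 * κ i + 1 ∧
      Build_xi N L f κ (r, i + 1) = 3 * κ (i + 1) - 1)) := by
  have h' : i < N := by omega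
  have c1 : f (i + 1) = f i → κ (i + 1) = κ i + 1 ∨ κ (i + 1) + 1 = κ i := fun d => by
    rcases C.step i h1 h2 with c | c | c
    · omega
    · omega
    · exact c.2
  by_cases hr : r = 2
  · subst hr
    exact ⟨he.symm, c1 he.symm, Or.inl ⟨rfl, (Build_brg C h1 h').2.2, rfl, rfl⟩⟩
  rcases lt_trichotomy i L with h | rfl | h
  · rw [Build_lo hr h.le, Build_lo hr h] at he
    omega
  · rw [Build_lo hr le_rfl, Build_mid C h1 hr] at he
    omega
  have k' : L < i + 1 := by omega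
  have b1 := (Build_bhi C h' h).2.1
  have b2 := (Build_bhi C h2 k').2.1
  have n : L < Build_nd L f (r, i) := by rw [Build_hi hr h]; omega
  have d : f (i + 1) = f i := by
    rw [Build_hi hr h, Build_hi hr k'] at he
    omega
  refine ⟨d, c1 d, Or.inr ?_⟩
  rcases Build_tri r with rfl | rfl | rfl
  · by_cases k : f i % 2 = i % 2
    · exact Or.inr (Or.inl ⟨rfl, h, n, k, Build_xhi0 h k, Build_xhi0' k' (by rw [d]; omega)⟩)
    · exact Or.inr (Or.inr ⟨rfl, h, n, k, Build_xhi0' h k, Build_xhi0 k' (by rw [d]; omega)⟩)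
  · exact Or.inl ⟨rfl, h, n, Build_xhi1 h, Build_xhi1 k'⟩
  · exact absurd rfl hr

theorem Build_ts' (C : Build_Ctx N L f κ) (r : Fin 3) {i : ℕ} (h1 : 1 ≤ i) (h2 : i + 1 < N)
    (he : Build_nd L f (r, i) = Build_nd L f (r, i + 1)) : ∃ ε : ℤ, -1 ≤ ε ∧ ε ≤ 1 ∧
    Build_xi N L f κ (r, i) = 3 * κ i + ε ∧ Build_xi N L f κ (r, i + 1) = 3 * κ (i + 1) - ε := by
  obtain ⟨-, -, ⟨-, -, a, b⟩ | ⟨-, -, -, a, b⟩ | ⟨-, -, -, -, a, b⟩ | ⟨-, -, -, -, a, b⟩⟩ :=
    Build_ts C r h1 h2 he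
  · exact ⟨0, by decide, by decide, a.trans (add_zero _).symm, b.trans (sub_zero _).symm⟩
  · exact ⟨0, by decide, by decide, a.trans (add_zero _).symm, b.trans (sub_zero _).symm⟩
  · exact ⟨-1, by decide, by decide, a.trans (sub_eq_add_neg _ _),
      b.trans (sub_neg_eq_add _ _).symm⟩
  · exact ⟨1, by decide, by decide, a, b⟩

theorem Build_xs (N L : ℕ) (f κ : ℕ → ℕ) (r : Fin 3) (k : ℕ) : Build_xi N L f κ (r, k) = 0 ∨
    Build_xi N L f κ (r, k) = 3 * N ∨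
      (3 * κ k - 1 ≤ Build_xi N L f κ (r, k) ∧ Build_xi N L f κ (r, k) ≤ 3 * κ k + 1) := by
  rcases Build_spec N L f κ r k with ⟨-, -, a⟩ | ⟨-, -, -, a⟩ | ⟨-, -, -, a⟩ | ⟨-, -, -, a⟩ |
    ⟨-, -, -, -, a⟩ | ⟨-, -, -, -, a⟩ <;> omega

theorem Build_in (C : Build_Ctx N L f κ) (r r' : Fin 3) {i k : ℕ} (h1 : 1 ≤ i) (h2 : i + 1 < N)
    (h3 : 1 ≤ k) (h4 : k < N) (he : Build_nd L f (r, i) = Build_nd L f (r, i + 1))
    (e : Build_nd L f (r', k) = Build_nd L f (r, i))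
    (h : Btw (Build_xi N L f κ (r', k)) (Build_xi N L f κ (r, i)) (Build_xi N L f κ (r, i + 1))) :
    k = i ∨ k = i + 1 := by
  obtain ⟨-, a1, -⟩ := Build_ts C r h1 h2 he
  obtain ⟨ε, p1, p2, a2, a3⟩ := Build_ts' C r h1 h2 he
  obtain ⟨b1, b2, -⟩ := Build_brg C h1 (by omega)
  obtain ⟨b3, b4, -⟩ := Build_brg C (Nat.le_add_left 1 i) h2
  have d : κ k = κ i ∨ κ k = κ (i + 1) := by
    rw [a2, a3] at h
    clear a2 a3 e he
    rcases Build_xs N L f κ r' k with a | a | a <;> rcases h with h | h <;>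
      rcases a1 with a1 | a1 <;> omega
  exact d.imp (C.inj _ _ h3 h4 h1 (by omega)) (C.inj _ _ h3 h4 (by omega) h2)

theorem Build_v3 (C : Build_Ctx N L f κ) (r r' : Fin 3) {i j : ℕ} (h1 : 1 ≤ i) (h2 : i + 1 < N)
    (h3 : 1 ≤ j) (h4 : j + 1 < N) (hp : i % 2 = j % 2)
    (he : Build_nd L f (r, i) = Build_nd L f (r, i + 1)) {k k' : ℕ}
    (hk : (k = j ∧ k' = j + 1) ∨ (k = j + 1 ∧ k' = j))
    (e : Build_nd L f (r', k) = Build_nd L f (r, i))
    (h : Btw (Build_xi N L f κ (r', k)) (Build_xi N L f κ (r, i)) (Build_xi N L f κ (r, i + 1))) :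
    Build_nd L f (r', k') = Build_nd L f (r, i) ∧
      Btw (Build_xi N L f κ (r', k')) (Build_xi N L f κ (r, i)) (Build_xi N L f κ (r, i + 1)) := by
  have h5 := Build_in C r r' h1 h2 (by omega) (by omega) he e h
  obtain rfl : i = j := by omega
  clear h5 hp h3 h4
  obtain ⟨a0, -, a2⟩ := Build_ts C r h1 h2 he
  obtain ⟨ε, p1, p2, a3, a4⟩ := Build_ts' C r h1 h2 he
  have he' : Build_nd L f (r', i) = Build_nd L f (r', i + 1) := by
    by_cases hr : r' = 2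
    · subst hr
      exact a0.symm
    rcases lt_trichotomy i L with k | rfl | k
    · have b1 := (Build_blo C h1 (by omega) k.le).1
      have b2 := (Build_blo C (Nat.le_add_left 1 i) h2 k).1
      clear a2 hk
      omega
    · exfalso
      obtain ⟨b1, b2, -⟩ := Build_brg C h1 (by omega)
      obtain ⟨b3, b4, -⟩ := Build_brg C (Nat.le_add_left 1 i) h2
      rcases hk with ⟨rfl, rfl⟩ | ⟨rfl, rfl⟩
      · clear a2
        unfold Btw at h
        rcases Build_tri r' with rfl | rfl | rfl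
        · rw [Build_xlo0 le_rfl] at h
          omega
        · rw [Build_xlo1 le_rfl] at h
          omega
        · exact hr rfl
      · rw [Build_mid C h1 hr] at e
        rcases a2 with ⟨-, a, -⟩ | ⟨-, a, -⟩ | ⟨-, a, -⟩ | ⟨-, a, -⟩ <;> omega
    · rw [Build_hi hr k, Build_hi hr (by omega), a0]
  obtain ⟨δ, -, -, a5, a6⟩ := Build_ts' C r' h1 h2 he'
  clear a2
  unfold Btw at h ⊢
  rcases hk with ⟨rfl, rfl⟩ | ⟨rfl, rfl⟩
  · exact ⟨he'.symm.trans e, by (clear * - a3 a4 a5 a6 h; omega)⟩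
  · exact ⟨he'.trans e, by omega⟩

theorem Build_ncv (C : Build_Ctx N L f κ) {η : ℕ → Bool} {π mv1 : ℕ → ℕ} (G : Nodes L η π mv1 g)
    (r r' : Fin 3) {i j : ℕ} (h1 : 1 ≤ i) (h2 : i + 1 < N) (h3 : 1 ≤ j) (h4 : j + 1 < N)
    (hp : i % 2 = j % 2) : ¬Cr (Build_h N L f κ g (r, i)) (Build_h N L f κ g (r, i + 1))
      (Build_h N L f κ g (r', j)) (Build_h N L f κ g (r', j + 1)) := by
  refine Build_subst C G.inj (fun a b => ∃ (s : Fin 3) (k : ℕ), 1 ≤ k ∧ k + 1 < N ∧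
    k % 2 = i % 2 ∧ ((a = (s, k) ∧ b = (s, k + 1)) ∨ (a = (s, k + 1) ∧ b = (s, k))))
    (fun u => if u % 2 = i % 2 then u + 1 else u - 1) ?_ ?_ ?_ ?_ ?_ ?_
    ⟨r, i, h1, h2, rfl, Or.inl ⟨rfl, rfl⟩⟩ ⟨r', j, h3, h4, hp.symm, Or.inl ⟨rfl, rfl⟩⟩
  · rintro a b ⟨s, k, k1, k2, k3, h⟩
    exact ⟨s, k, k1, k2, k3, h.symm.imp And.symm And.symm⟩
  · rintro a b ⟨s, k, k1, k2, k3, ⟨rfl, rfl⟩ | ⟨rfl, rfl⟩⟩ <;> dsimp only <;> omega
  · rintro a b ⟨s, k, k1, k2, k3, h⟩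
    have h5 := Build_cn C s k1 k2
    rcases h with ⟨rfl, rfl⟩ | ⟨rfl, rfl⟩ <;> split_ifs <;> lia
  · have key : ∀ a b, (∃ (s : Fin 3) (k : ℕ), 1 ≤ k ∧ k + 1 < N ∧ k % 2 = i % 2 ∧
        ((a = (s, k) ∧ b = (s, k + 1)) ∨ (a = (s, k + 1) ∧ b = (s, k)))) →
        Build_nd L f a ≠ Build_nd L f b → ∃ u, 1 ≤ u ∧ u < 2 * L ∧ u % 2 = i % 2 ∧
          ((Build_nd L f a = u ∧ Build_nd L f b = u + 1) ∨
            (Build_nd L f a = u + 1 ∧ Build_nd L f b = u)) := by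
      rintro a b ⟨s, k, k1, k2, k3, h⟩ hne
      have h5 := Build_cn C s k1 k2
      have h6 := Build_range C s k1 (by omega)
      have h7 := Build_range C s (by omega) k2
      refine ⟨min (Build_nd L f a) (Build_nd L f b), ?_⟩
      rcases h with ⟨rfl, rfl⟩ | ⟨rfl, rfl⟩ <;> omega
    intro a b c d ha hc n1 n2
    obtain ⟨u, u1, u2, u3, hu⟩ := key a b ha n1
    obtain ⟨v, v1, v2, v3, hv⟩ := key c d hc n2
    have h5 := G.ncv u v u1 u2 v1 v2 (u3.trans v3.symm)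
    rcases hu with ⟨e1, e2⟩ | ⟨e1, e2⟩ <;> rcases hv with ⟨e3, e4⟩ | ⟨e3, e4⟩ <;>
      rw [e1, e2, e3, e4]
    exacts [h5, Build_cr2 h5, Build_cr1 h5, Build_cr1 (Build_cr2 h5)]
  · rintro a b c d ⟨s, k, k1, k2, k3, ha⟩ ⟨s', l, l1, l2, l3, hc⟩ e1 e2 n
    have h5 := fun h => Build_v2 C s s' k1 k2 l1 l2 (k3.trans l3.symm) h
    rcases ha with ⟨rfl, rfl⟩ | ⟨rfl, rfl⟩ <;> rcases hc with ⟨rfl, rfl⟩ | ⟨rfl, rfl⟩
    · exact ((h5 n).1 e1 e2).1
    · exact ((h5 n).2 e1 e2).1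
    · exact ((h5 n.symm).2 e2 e1).2
    · exact ((h5 n.symm).1 e2 e1).2
  · rintro a b c d ⟨s, k, k1, k2, k3, ha⟩ ⟨s', l, l1, l2, l3, hc⟩ e1 e2 x1 x2
    have h5 := fun h => @Build_v3 N L f κ C s s' k l k1 k2 l1 l2 (k3.trans l3.symm) h
    rcases ha with ⟨rfl, rfl⟩ | ⟨rfl, rfl⟩ <;> rcases hc with ⟨rfl, rfl⟩ | ⟨rfl, rfl⟩
    · have h6 := h5 e1 (Or.inl ⟨rfl, rfl⟩) e2 (Or.inl ⟨x1, x2⟩)
      unfold Btw at h6
      omega
    · have h6 := h5 e1 (Or.inr ⟨rfl, rfl⟩) e2 (Or.inl ⟨x1, x2⟩)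
      unfold Btw at h6
      omega
    · have h6 := h5 e1.symm (Or.inl ⟨rfl, rfl⟩) (e2.trans e1) (Or.inr ⟨x1, x2⟩)
      unfold Btw at h6
      omega
    · have h6 := h5 e1.symm (Or.inr ⟨rfl, rfl⟩) (e2.trans e1) (Or.inr ⟨x1, x2⟩)
      unfold Btw at h6
      omega

/-- The description of a crease between the rows `B` and `C`. -/
theorem Build_ss (C : Build_Ctx N L f κ) {i : ℕ} (h1 : 1 ≤ i) (h2 : i < N) :
    (i ≤ L ∧ Build_nd L f (1, i) = i ∧ Build_nd L f (2, i) = i ∧ Build_xi N L f κ (1, i) = 0 ∧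
      Build_xi N L f κ (2, i) = 3 * i) ∨
    (2 ≤ f i ∧ f i ≤ L ∧ L < κ i ∧ Build_nd L f (1, i) = 2 * L + 1 - f i ∧
      Build_nd L f (2, i) = f i ∧ Build_xi N L f κ (1, i) = 3 * κ i ∧
      Build_xi N L f κ (2, i) = 3 * κ i) := by
  have a1 := Build_spec N L f κ 1 i
  have a2 : Build_nd L f (2, i) = f i := rfl
  have a3 : Build_xi N L f κ (2, i) = 3 * κ i := rfl
  simp only [Fin.val_one] at a1
  rcases C.base i h1 h2 with h | h
  · exact Or.inl (by omega)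
  · exact Or.inr (by omega)

theorem Build_ncs (C : Build_Ctx N L f κ) {η : ℕ → Bool} {π mv1 : ℕ → ℕ} (G : Nodes L η π mv1 g)
    {i j : ℕ} (h1 : 1 ≤ i) (h2 : i < N) (h3 : 1 ≤ j) (h4 : j < N) :
    ¬Cr (Build_h N L f κ g (1, i)) (Build_h N L f κ g (2, i))
      (Build_h N L f κ g (1, j)) (Build_h N L f κ g (2, j)) := by
  refine Build_subst C G.inj (fun a b => ∃ k : ℕ, 1 ≤ k ∧ k < N ∧
    ((a = (1, k) ∧ b = (2, k)) ∨ (a = (2, k) ∧ b = (1, k))))
    (fun u => 2 * L + 1 - u) ?_ ?_ ?_ ?_ ?_ ?_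
    ⟨i, h1, h2, Or.inl ⟨rfl, rfl⟩⟩ ⟨j, h3, h4, Or.inl ⟨rfl, rfl⟩⟩
  · rintro a b ⟨k, k1, k2, h⟩
    exact ⟨k, k1, k2, h.symm.imp And.symm And.symm⟩
  · rintro a b ⟨k, k1, k2, ⟨rfl, rfl⟩ | ⟨rfl, rfl⟩⟩ <;> exact ⟨k1, k2⟩
  · rintro a b ⟨k, k1, k2, h⟩
    have h5 := Build_ss C k1 k2
    rcases h with ⟨rfl, rfl⟩ | ⟨rfl, rfl⟩ <;> omega
  · rintro a b c d ⟨k, k1, k2, ha⟩ ⟨l, l1, l2, hc⟩ n1 n2
    obtain ⟨u1, u2, -, u3, u4, -⟩ := (Build_ss C k1 k2).resolve_left fun h => by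
      rcases ha with ⟨rfl, rfl⟩ | ⟨rfl, rfl⟩ <;> omega
    obtain ⟨v1, v2, -, v3, v4, -⟩ := (Build_ss C l1 l2).resolve_left fun h => by
      rcases hc with ⟨rfl, rfl⟩ | ⟨rfl, rfl⟩ <;> omega
    have h5 := G.ncs (f k) (f l) (by omega) u2 (by omega) v2
    rcases ha with ⟨rfl, rfl⟩ | ⟨rfl, rfl⟩ <;> rcases hc with ⟨rfl, rfl⟩ | ⟨rfl, rfl⟩ <;>
      rw [u3, u4, v3, v4]
    exacts [Build_cr1 (Build_cr2 h5), Build_cr1 h5, Build_cr2 h5, h5]
  · rintro a b c d ⟨k, k1, k2, ha⟩ ⟨l, l1, l2, hc⟩ e1 e2 n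
    have h5 := Build_ss C k1 k2
    have h6 := Build_ss C l1 l2
    rcases ha with ⟨rfl, rfl⟩ | ⟨rfl, rfl⟩ <;> rcases hc with ⟨rfl, rfl⟩ | ⟨rfl, rfl⟩ <;> (clear * - e1 e2 h5 h6 n; omega)
  · rintro a b c d ⟨k, k1, k2, ha⟩ ⟨l, l1, l2, hc⟩ e1 e2 x1 x2
    have h5 := Build_ss C k1 k2
    have h6 := Build_ss C l1 l2
    exfalso
    rcases ha with ⟨rfl, rfl⟩ | ⟨rfl, rfl⟩ <;> rcases hc with ⟨rfl, rfl⟩ | ⟨rfl, rfl⟩ <;> (clear * - e1 e2 h5 h6 k1 x1 x2; omega)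

theorem Build_inj (C : Build_Ctx N L f κ)
    (hg : ∀ u v, 1 ≤ u → u ≤ 2 * L → 1 ≤ v → v ≤ 2 * L → g u = g v → u = v) (r r' : Fin 3)
    {i j : ℕ} (h1 : 1 ≤ i) (h2 : i < N) (h3 : 1 ≤ j) (h4 : j < N)
    (h : Build_h N L f κ g (r, i) = Build_h N L f κ g (r', j)) : r = r' ∧ i = j := by
  have a1 := (Build_lt C hg r r' h1 h2 h3 h4).not.1 h.not_lt
  have a2 := (Build_lt C hg r' r h3 h4 h1 h2).not.1 h.not_gt
  have b1 := Build_range C r h1 h2
  have b2 := Build_range C r' h3 h4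
  have e : Build_nd L f (r, i) = Build_nd L f (r', j) :=
    hg _ _ b1.1 b1.2.1 b2.1 b2.2.1 (by omega)
  have z1 := Build_zspec N L f κ (r, i)
  have z2 := Build_zspec N L f κ (r', j)
  have e' : Build_xi N L f κ (r, i) = Build_xi N L f κ (r', j) := by omega
  clear a1 a2 b1 b2 z1 z2
  have c1 := Build_spec N L f κ r i
  have c2 := Build_spec N L f κ r' j
  obtain ⟨d1, d1', d1''⟩ := Build_brg C h1 h2
  obtain ⟨d2, d2', d2''⟩ := Build_brg C h3 h4
  have d3 := C.inj i j h1 h2 h3 h4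
  clear h
  rw [Fin.ext_iff]
  rcases c1 with c1 | c1 | c1 | c1 | c1 | c1 <;> rcases c2 with c2 | c2 | c2 | c2 | c2 | c2 <;>
    omega

theorem Build_flip {L : ℕ} {g : ℕ → ℤ}
    (hg : ∀ u v, 1 ≤ u → u ≤ 2 * L → 1 ≤ v → v ≤ 2 * L → g u = g v → u = v) {u v : ℕ}
    (h1 : 1 ≤ u) (h2 : u ≤ 2 * L) (h3 : 1 ≤ v) (h4 : v ≤ 2 * L) (h : u ≠ v) :
    g u < g v ↔ ¬g v < g u := by
  have := mt (hg u v h1 h2 h3 h4) h
  omega

theorem Build_vab {N Λ L : ℕ} {w : ℕ → Letter} {π mv1 f mv2 : ℕ → ℕ} {g : ℕ → ℤ}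
    (P : Plan N Λ L w π mv1 f mv2) (G : Nodes L (fun k => eta (w k)) π mv1 g) {r : Fin 3}
    (hr : r ≠ 2) {i : ℕ} (h1 : 1 ≤ i) (h2 : i + 1 < N) :
    Build_h N L f (key mv2) g (r, i) < Build_h N L f (key mv2) g (r, i + 1) ↔
      (i % 2 = 0 ↔ eta (w i) = true) := by
  have C := Build_ctx P
  rcases le_or_gt i L with h | h
  · have e : Build_nd L f (r, i + 1) = i + 1 := by
      rcases h.eq_or_lt with rfl | h'
      · exact Build_mid C h1 hr
      · exact Build_lo hr h'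
    rw [Build_lt_diff C G.inj h1 (by omega) (by omega) h2 (Build_lo hr h) e (by omega)]
    exact G.dirW i h1 h
  obtain ⟨b1, b1', -⟩ := Build_bhi C (by omega : i < N) h
  obtain ⟨b2, b2', -⟩ := Build_bhi C h2 (by omega)
  have t := P.typ i h h2
  have turn : f (i + 1) = f i → (Build_h N L f (key mv2) g (r, i) <
      Build_h N L f (key mv2) g (r, i + 1) ↔ (f i % 2 = 1 ↔ key mv2 i < key mv2 (i + 1))) := by
    intro e
    have e' : Build_nd L f (r, i) = Build_nd L f (r, i + 1) := by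
      rw [Build_hi hr h, Build_hi hr (by omega), e]
    have e2 := Build_hi (f := f) hr h
    obtain ⟨-, a1, -⟩ := Build_ts C r h1 h2 e'
    obtain ⟨ε, p1, p2, a3, a4⟩ := Build_ts' C r h1 h2 e'
    rw [Build_lt_same C G.inj h1 (by omega) (by omega) h2 e', Build_z, Build_z, ← e', a3, a4]
    clear a3 a4 t e' e b2 b2'
    by_cases k : f i % 2 = 1
    · rw [if_pos (by omega), if_pos (by omega), iff_true_intro k, true_iff]
      omega
    · rw [if_neg (by omega), if_neg (by omega), iff_false_intro k, false_iff]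
      omega
  rcases P.w2.step i h1 (by omega) with ⟨m, s1, s2, s3⟩ | ⟨m, s1, s2, s3⟩ | ⟨m, s1, s3⟩ |
    ⟨m, s1, s3⟩
  · rw [Build_lt_diff C G.inj h1 (by omega) (by omega) h2 (Build_hi hr h)
      (v := 2 * L - f i) (by rw [Build_hi hr (by omega)]; omega) (by omega)]
    have x1 := G.dirX (f i) (by omega) (by omega)
    have x2 := G.dirW (f i) (by omega) (by omega)
    rw [min_eq_left (by omega)] at t
    dsimp only at s3 x2
    rw [← s3, s2] at x2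
    rw [eta]
    generalize (w i).1 = a at *
    generalize (w i).2.1 = b at *
    cases a <;> cases b <;> simp at t x2 ⊢ <;> (clear * - m s1 s2 t x1 x2; omega)
  · rw [Build_lt_diff C G.inj h1 (by omega) (by omega) h2 (u := 2 * L - f (i + 1))
      (by rw [Build_hi hr h]; omega) (Build_hi hr (by omega)) (by omega),
      Build_flip G.inj (by omega) (by omega) (by omega) (by omega) (by omega)]
    have x1 := G.dirX (f (i + 1)) (by omega) (by omega)
    have x2 := G.dirW (f (i + 1)) (by omega) (by omega)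
    rw [min_eq_right (by omega)] at t
    dsimp only at s3 x2
    rw [eta, s3]
    generalize (w i).1 = a at *
    generalize eta (w (f (i + 1))) = b at *
    cases a <;> cases b <;> simp at t x2 ⊢ <;> (clear * - m s1 s2 t x1 x2; omega)
  · have k1 := P.w2.key_in h1 (by omega) m
    have k2 := k1.2.1 (by omega)
    dsimp only at s3
    rw [turn s1, eta, s3, t.2 (Or.inl (by omega)), dir]
    by_cases hd : f i % 2 = i % 2 <;> simp [hd] <;> (clear * - hd k1 k2 s1; omega)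
  · have k1 := P.w2.key_out h1 (by omega) m
    dsimp only at s3
    rw [turn s1, eta, s3, t.2 (Or.inl (by omega)), dir]
    by_cases hd : f i % 2 = i % 2 <;> simp [hd] <;> omega

theorem Build_vc {N Λ L : ℕ} {w : ℕ → Letter} {π mv1 f mv2 : ℕ → ℕ} {g : ℕ → ℤ}
    (P : Plan N Λ L w π mv1 f mv2) (G : Nodes L (fun k => eta (w k)) π mv1 g)
    {i : ℕ} (h1 : 1 ≤ i) (h2 : i + 1 < N) :
    Build_h N L f (key mv2) g (2, i) < Build_h N L f (key mv2) g (2, i + 1) ↔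
      (i % 2 = 0 ↔ (w i).2.1 = true) := by
  have C := Build_ctx P
  have b1 := C.base i h1 (by omega)
  have b2 := C.base (i + 1) (by omega) h2
  have turn : f (i + 1) = f i → (Build_h N L f (key mv2) g (2, i) <
      Build_h N L f (key mv2) g (2, i + 1) ↔ (f i % 2 = 0 ↔ key mv2 i < key mv2 (i + 1))) := by
    intro e
    have c := C.step i h1 h2
    have z1 := Build_zspec N L f (key mv2) (2, i)
    have z2 := Build_zspec N L f (key mv2) (2, i + 1)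
    rw [Build_nd2, Build_xi2] at z1 z2
    rw [Build_lt_same C G.inj (r := 2) (r' := 2) h1 (by omega) (by omega) h2 e.symm]
    omega
  rcases P.w2.step i h1 (by omega) with ⟨m, s1, s2, s3⟩ | ⟨m, s1, s2, s3⟩ | ⟨m, s1, s3⟩ |
    ⟨m, s1, s3⟩
  · rw [Build_lt_diff C G.inj h1 (by omega) (by omega) h2 (Build_nd2 i)
      ((Build_nd2 _).trans s1) (by omega)]
    have x2 := G.dirW (f i) (by omega) (by (clear * - b2 s1 s2 turn; lia))
    dsimp only at s3 x2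
    rwa [← s3, s2] at x2
  · rw [Build_lt_diff C G.inj h1 (by omega) (by omega) h2 ((Build_nd2 _).trans s1.symm)
      (Build_nd2 (i + 1)) (by omega),
      Build_flip G.inj (by omega) (by (clear * - b2 h1 s1 s2 turn; lia)) (by (clear * - b2 h1 s1 s2 turn; lia)) (by (clear * - b2 h1 s1 s2 turn; lia)) (by omega)]
    have x2 := G.dirW (f (i + 1)) (by omega) (by (clear * - b2 s1 s2 turn; omega))
    dsimp only at s3 x2
    rw [s3]
    generalize eta (w (f (i + 1))) = b at *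
    cases b <;> simp at x2 ⊢ <;> omega
  · have k1 := P.w2.key_in h1 (by omega) m
    have k2 := k1.2.1 (by omega)
    dsimp only at s3
    rw [turn s1, s3, dir]
    by_cases hd : f i % 2 = i % 2 <;> simp [hd] <;> omega
  · have k1 := P.w2.key_out h1 (by omega) m
    dsimp only at s3
    rw [turn s1, s3, dir]
    by_cases hd : f i % 2 = i % 2 <;> simp [hd] <;> omega

theorem Build_bc {N Λ L : ℕ} {w : ℕ → Letter} {π mv1 f mv2 : ℕ → ℕ} {g : ℕ → ℤ}
    (P : Plan N Λ L w π mv1 f mv2) (G : Nodes L (fun k => eta (w k)) π mv1 g)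
    {i : ℕ} (h1 : 1 ≤ i) (h2 : i < N) :
    Build_h N L f (key mv2) g (1, i) < Build_h N L f (key mv2) g (2, i) ↔
      (i % 2 = 0 ↔ (w i).2.2 = false) := by
  have C := Build_ctx P
  have a := Build_ss C h1 h2
  have b := C.base i h1 h2
  rcases le_or_gt i L with h | h
  · have z1 := Build_zspec N L f (key mv2) (1, i)
    have z2 := Build_zspec N L f (key mv2) (2, i)
    rw [Build_lt_same C G.inj h1 h2 h1 h2 (by (clear * - a b h z1 z2; omega)), (P.sync i h1 h).2]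
    simp only [iff_true]
    omega
  · have x := G.side (f i) (by omega) (by omega)
    have t := P.sign i h h2
    rw [Build_lt_diff C G.inj h1 h2 h1 h2 (Build_hi (by decide) h) (Build_nd2 i) (by omega),
      Build_flip G.inj (by omega) (by omega) (by omega) (by omega) (by omega), x]
    rw [sgn, dir, dir] at t
    generalize (w i).2.2 = c at *
    by_cases d1 : f i % 2 = i % 2 <;> by_cases d2 : π (f i) % 2 = f i % 2 <;> cases c <;>
      simp [d1, d2] at t ⊢ <;> omega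

end

theorem build {N Λ L : ℕ} {w : ℕ → Letter} {π mv1 f mv2 : ℕ → ℕ} {g : ℕ → ℤ}
    (P : Plan N Λ L w π mv1 f mv2) (G : Nodes L (fun k => eta (w k)) π mv1 g) :
    ∃ h, Geo N w h ∧ h 0 1 < h 2 1 ∧
      ∀ r i, 1 ≤ i → i < N → Btw (h r i) (h 0 1) (h 1 1) → r = 2 ∧ i = 1 := by
  have C := Build_ctx P
  have hN := P.hN
  have hL := P.hL
  refine ⟨fun r i => Build_h N L f (key mv2) g (r, i),
    ⟨fun r r' i j => fun h1 h2 h3 h4 => Build_inj C G.inj r r' h1 h2 h3 h4, fun i h1 h2 => ?_,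
      fun i h1 h2 => Build_bc P G h1 h2, fun i h1 h2 => Build_vab P G (by decide) h1 h2,
      fun i h1 h2 => Build_vab P G (by decide) h1 h2, fun i h1 h2 => Build_vc P G h1 h2,
      fun r r' i j h1 h2 h3 h4 hp => Build_ncv C G r r' h1 h2 h3 h4 hp,
      fun i j h1 h2 h3 h4 h => ?_, fun i j h1 h2 h3 h4 => Build_ncs C G h1 h2 h3 h4⟩, ?_,
    fun r i h1 h2 h => ?_⟩
  · have e : Build_nd L f (1, i) = Build_nd L f (0, i) := rfl
    have a1 := Build_spec N L f (key mv2) 0 i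
    have a2 := Build_spec N L f (key mv2) 1 i
    have z1 := Build_zspec N L f (key mv2) (0, i)
    have z2 := Build_zspec N L f (key mv2) (1, i)
    have b := C.base i h1 h2
    simp only [Fin.val_zero, Fin.val_one] at a1 a2
    rw [Build_lt_same C G.inj h1 h2 h1 h2 e]
    rcases a1 with a1 | a1 | a1 | a1 | a1 | a1 <;> rcases a2 with a2 | a2 | a2 | a2 | a2 | a2 <;>
      (clear * - a1 a2 b e hL hN z1 z2; lia)
  · have a1 := fun h => (Build_btw C G.inj 0 h1 h2 h3 h4 h).1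
    have a2 := fun h => (Build_btw C G.inj 1 h1 h2 h3 h4 h).1
    have a3 := mt a1 (by decide)
    have a4 := mt a2 (by decide)
    unfold Cr at h
    unfold Btw at a3 a4
    (clear * - a3 a4 h; omega)
  · have b := C.base 1 le_rfl (by omega)
    have a1 := Build_spec N L f (key mv2) 0 1
    have z1 := Build_zspec N L f (key mv2) (0, 1)
    have z2 := Build_zspec N L f (key mv2) (2, 1)
    rw [Build_nd2, Build_xi2] at z2
    simp only [Fin.val_zero] at a1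
    rw [Build_lt_same C G.inj le_rfl (by omega) le_rfl (by omega) (by rw [Build_nd2]; omega)]
    omega
  · have a := Build_btw C G.inj r le_rfl (by omega) h1 h2 h
    have b := C.base i h1 h2
    exact ⟨a.1, by omega⟩

end Pool.Agent.Work.MP_8ff565_lc
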