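import Pool.Agent.Work.MP_8ff565_lc.NPmem

/-!
From the geometry to the abstract trace.

Bounds: `2 Λ ≤ f i + i` and `f i ≤ i` (induction), so every slot `f i ≤ L + 1` is clean and `≥ 2`.

`safe`: if `m = false` and `hand = psi`, the face `B i` lies between `C i` and `C (i+1)`
(`bc`, `vb`, `vc`, and `ncs` for the columns `i, i + 1`), so both cannot be in one clean slot.

Uniqueness: a height inside two clean slots `k, k'` forces `k = k'` (`ncn`: the slots are nested).

Sign lemma: if `f i = f j = k` is clean, `i, j ≠ k`, `C i` is between `B k` and `C j` and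
`sgn i = true` then `sgn j = true`. (`sgn i = true` says that `B i` is beyond `A k`,
`sgn j = false` that `B j` is beyond or at `B k`; then `B j, C i, C j, B i` are in this order,
against `ncs`.)

Parity lemma. Fix a rail `ρ` (row `0` or `1`) and an interval `[u, v]` of times, and let
`cnt i = card {j ∈ [u, v] | Btw (C j) (ρ (f i)) (C i)}`. For a step `i -> i + 1` outside `[u, v]`
let `U = {j ∈ [u, v] | Btw (C j) (ρ (f i)) (C i) xor Btw (C j) (ρ (f (i+1))) (C (i+1))}`; the xor
equals `Btw (C j) (C i) (C (i+1)) xor Btw (C j) (ρ (f i)) (ρ (f (i+1)))`, which is invariant under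
`j -> partner of j on the side of parity i` (`ncv`). If no `j ∈ U` has its partner outside
`[u, v]`, `U` has a fixed-point-free involution, `card U` is even and `cnt i ≡ cnt (i+1)`.
An element `j ∈ U` has `f j ∈ {f i, f (i+1)}` by uniqueness.
For the first claim of `mono` take `ρ = B`, `[u, v] = [a, b]`, start at `i = b + 1` where
`cnt = 1` (the turn is towards `A`) and go up to `c`; for the second take `ρ = A`,
`[u, v] = [b + 1, c]`, start at `i = b` and go down to `a`. An odd count is nonzero.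
-/

namespace Pool.Agent.Work.MP_8ff565_lc

section
variable {N Λ : ℕ} {w : ℕ → Letter} {h : Fin 3 → ℕ → ℤ} {f : ℕ → ℕ}

theorem geoB_ne (H : Geo N w h) {r r' : Fin 3} {i j : ℕ} (hi : 1 ≤ i) (hi' : i < N) (hj : 1 ≤ j)
    (hj' : j < N) (hne : r ≠ r' ∨ i ≠ j) : h r i ≠ h r' j := fun e => by
  have := H.inj _ _ _ _ hi hi' hj hj' e
  tauto

theorem geoB_bounds (P : Ports N Λ w h f) {i : ℕ} (hi : Λ ≤ i) (hi' : i < N) :
    2 * Λ ≤ f i + i ∧ f i ≤ i := by
  induction i, hi using Nat.le_induction with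
  | base => rw [P.start]; omega
  | succ i hi ih =>
    have h1 := ih (by omega)
    have h2 := P.step i hi hi'
    omega

theorem geoB_uniq (H : Geo N w h) {k k' : ℕ} {z : ℤ} (hk : 1 ≤ k) (hk' : k < N) (hl : 1 ≤ k')
    (hl' : k' < N) (c : Clean N h k) (c' : Clean N h k') (b : Btw z (h 0 k) (h 1 k))
    (b' : Btw z (h 0 k') (h 1 k')) : k = k' := by
  by_contra hne
  have n1 := H.ncn k k' hk hk' hl hl'
  have n2 := H.ncn k' k hl hl' hk hk'
  have c1 := c k' hl hl'
  have c2 := c' k hk hk'
  have e1 := geoB_ne H (r := 0) (r' := 0) hk hk' hl hl' (Or.inr hne)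
  have e2 := geoB_ne H (r := 1) (r' := 1) hk hk' hl hl' (Or.inr hne)
  have e3 := geoB_ne H (r := 0) (r' := 1) hk hk' hl hl' (Or.inr hne)
  have e4 := geoB_ne H (r := 1) (r' := 0) hk hk' hl hl' (Or.inr hne)
  unfold Cr at n1 n2
  unfold Btw at c1 c2 b b'
  (clear * - b b' c1 c2 e1 e2 e3 e4 hne n1 n2; lia)

theorem geoB_nc (H : Geo N w h) {r r' : Fin 3} {i j : ℕ} (hi : 1 ≤ i) (hi' : i + 1 < N)
    (hj : 1 ≤ j) (hj' : j + 1 < N) (hp : i % 2 = j % 2) (hne : r ≠ r' ∨ i ≠ j) :
    Btw (h r' j) (h r i) (h r (i + 1)) ↔ Btw (h r' (j + 1)) (h r i) (h r (i + 1)) := by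
  have n1 := H.ncv r r' i j hi hi' hj hj' hp
  have n2 := H.ncv r' r j i hj hj' hi hi' hp.symm
  have e1 := geoB_ne H (r := r) (r' := r') (i := i) (j := j) hi (by omega) hj (by omega) hne
  have e2 := geoB_ne H (r := r) (r' := r') (i := i + 1) (j := j) (by omega) hi' hj (by omega)
    (Or.inr (by omega))
  have e3 := geoB_ne H (r := r) (r' := r') (i := i) (j := j + 1) hi (by omega) (by omega) hj'
    (Or.inr (by omega))
  have e4 := geoB_ne H (r := r) (r' := r') (i := i + 1) (j := j + 1) (by omega) hi' (by omega) hj'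
    (hne.imp id (by omega))
  unfold Cr at n1 n2
  unfold Btw
  omega

theorem geoB_xor {z a b c d : ℤ} (ha : z ≠ a) (hb : z ≠ b) (hc : z ≠ c) (hd : z ≠ d) :
    (Btw z a b ↔ Btw z c d) ↔ (Btw z b d ↔ Btw z a c) := by
  unfold Btw
  (clear * - ha hb hc hd; lia)

theorem geoB_symm {z a b : ℤ} : Btw z a b ↔ Btw z b a := by
  unfold Btw
  omega

theorem geoB_safe (H : Geo N w h) {i : ℕ} (hi : 1 ≤ i) (hi' : i + 1 < N) (hm : (w i).1 = false)
    (hs : (w i).2.1 = (w i).2.2) : Btw (h 1 i) (h 2 i) (h 2 (i + 1)) := by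
  have h1 := H.bc i hi (by omega)
  have h2 := H.vb i hi hi'
  have h3 := H.vc i hi hi'
  have n1 := H.ncs i (i + 1) hi (by omega) (by omega) hi'
  have n2 := H.ncs (i + 1) i (by omega) hi' hi (by omega)
  have e1 := geoB_ne H (r := 1) (r' := 2) (i := i) (j := i) hi (by omega) hi (by omega)
    (Or.inl (by decide))
  have e2 := geoB_ne H (r := 1) (r' := 2) (i := i) (j := i + 1) hi (by omega) (by omega) hi'
    (Or.inl (by decide))
  have e3 := geoB_ne H (r := 1) (r' := 1) (i := i) (j := i + 1) hi (by omega) (by omega) hi'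
    (Or.inr (by omega))
  have e4 := geoB_ne H (r := 2) (r' := 2) (i := i) (j := i + 1) hi (by omega) (by omega) hi'
    (Or.inr (by omega))
  have he : eta (w i) = (w i).2.2 := by simp [eta, hm, hs]
  rw [he] at h2
  rw [hs] at h3
  unfold Cr at n1 n2
  unfold Btw
  cases hb : (w i).2.2 <;> simp only [hb, Bool.false_eq_true, Bool.true_eq_false, iff_true,
    iff_false] at h1 h2 h3 <;> (clear * - e1 e2 e3 e4 h1 h2 h3 n1 n2; omega)

theorem geoB_sgn {i : ℕ} : sgn w f i = true ↔ ((w i).2.2 = false ↔ f i % 2 ≠ i % 2) := by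
  unfold sgn dir
  cases (w i).2.2 <;> simp

theorem geoB_geo {A B x y x' y' : ℤ} (n1 : ¬Cr x y x' y') (n2 : ¬Cr x' y' x y) (c1 : ¬Btw x A B)
    (c2 : ¬Btw x' A B) (e1 : x ≠ y) (e2 : x' ≠ y') (e3 : x ≠ A) (bj : Btw y' A B) (b : Btw y B y')
    (h1 : x < y ↔ ¬B < A) : x' < y' ↔ ¬B < A := by
  rcases bj with ⟨p1, p2⟩ | ⟨p1, p2⟩
  · have q0 : ¬B < A := (p1.trans p2).not_gt
    obtain ⟨q1, q2⟩ := b.resolve_left fun k => (k.1.trans k.2).not_gt p2
    have q3 := h1.2 q0
    have q4 : x < A := lt_of_le_of_ne (le_of_not_gt fun k => c1 (Or.inl ⟨k, q3.trans q2⟩)) e3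
    refine iff_of_true (lt_of_le_of_ne (le_of_not_gt fun k => n1 ?_) e2) q0
    have q5 : B ≤ x' := le_of_not_gt fun k' => c2 (Or.inl ⟨p1.trans k, k'⟩)
    unfold Cr
    rw [min_eq_left q3.le, max_eq_right q3.le, min_eq_right k.le, max_eq_left k.le]
    exact ⟨q4.trans p1, q1, q2.trans_le q5⟩
  · have q0 : B < A := p1.trans p2
    obtain ⟨q1, q2⟩ := b.resolve_right fun k => (k.1.trans k.2).not_gt p1
    have q3 : y < x := lt_of_le_of_ne (le_of_not_gt fun k => h1.1 k q0) e1.symm
    have q4 : A ≤ x := le_of_not_gt fun k => c1 (Or.inr ⟨q1.trans q3, k⟩)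
    refine iff_of_false (fun k => n2 ?_) (not_not.2 q0)
    have q5 : x' ≤ B := le_of_not_gt fun k' => c2 (Or.inr ⟨k', k.trans p2⟩)
    unfold Cr
    rw [min_eq_left k.le, max_eq_right k.le, min_eq_right q3.le, max_eq_left q3.le]
    exact ⟨q5.trans_lt q1, q2, p2.trans_le q4⟩

theorem geoB_par {i k : ℕ} {p : Prop} : ((i % 2 = 0 ↔ p) ↔ ¬k % 2 = 0) ↔ (p ↔ k % 2 ≠ i % 2) := by
  rcases Nat.mod_two_eq_zero_or_one i with a | a <;>
    rcases Nat.mod_two_eq_zero_or_one k with b | b <;> simp [a, b]

theorem geoB_sign (H : Geo N w h) {i j k : ℕ} (hk : 1 ≤ k) (hi : k < i) (hi' : i < N)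
    (hj : k < j) (hj' : j < N) (c : Clean N h k) (fi : f i = k) (fj : f j = k)
    (bj : Btw (h 2 j) (h 0 k) (h 1 k)) (b : Btw (h 2 i) (h 1 k) (h 2 j))
    (s : sgn w f i = true) : sgn w f j = true := by
  have h1 := H.bc i (by omega) hi'
  have h2 := H.bc j (by omega) hj'
  have h3 := H.ab k hk (by omega)
  have n1 := H.ncs i j (by omega) hi' (by omega) hj'
  have n2 := H.ncs j i (by omega) hj' (by omega) hi'
  have c1 := c i (by omega) hi'
  have c2 := c j (by omega) hj'
  have e1 := geoB_ne H (r := 1) (r' := 2) (i := i) (j := i) (by omega) hi' (by omega) hi'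
    (Or.inl (by decide))
  have e2 := geoB_ne H (r := 1) (r' := 2) (i := j) (j := j) (by omega) hj' (by omega) hj'
    (Or.inl (by decide))
  have e3 := geoB_ne H (r := 1) (r' := 0) (i := i) (j := k) (by omega) hi' hk (by omega)
    (Or.inl (by decide))
  rw [geoB_sgn] at s ⊢
  rw [fi] at s
  rw [fj, ← geoB_par, ← h2, ← h3]
  exact geoB_geo n1 n2 c1 c2 e1 e2 e3 bj b (by rw [h1, h3]; exact geoB_par.2 s)

open Classical in
/-- The parity of the number of ports of the times `u, ..., v` between the rail and `C i`. -/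
noncomputable def geoB_cnt (h : Fin 3 → ℕ → ℤ) (f : ℕ → ℕ) (ρ : Fin 3) (u v i : ℕ) : ZMod 2 :=
  ∑ j ∈ Finset.Icc u v, if Btw (h 2 j) (h ρ (f i)) (h 2 i) then 1 else 0

theorem geoB_step (H : Geo N w h) (P : Ports N Λ w h f) {ρ : Fin 3} (hρ : ρ ≠ 2) {u v i : ℕ}
    (hu : 1 ≤ u) (hv : v < N) (hi1 : 1 ≤ i) (hi : Λ ≤ i) (hi' : i + 1 < N)
    (ho : i + 1 < u ∨ v < i) (f1 : 1 ≤ f i) (f2 : 1 ≤ f (i + 1)) (f3 : f i < N)
    (f4 : f (i + 1) < N)
    (hex : ∀ j, u ≤ j → j ≤ v →
      Btw (h 2 j) (h ρ (f i)) (h 2 i) ∨ Btw (h 2 j) (h ρ (f (i + 1))) (h 2 (i + 1)) →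
      (j % 2 = i % 2 → j < v) ∧ (j % 2 ≠ i % 2 → u < j)) :
    geoB_cnt h f ρ u v i = geoB_cnt h f ρ u v (i + 1) := by
  classical
  let X : ℕ → Prop := fun j => Btw (h 2 j) (h ρ (f i)) (h 2 i)
  let Y : ℕ → Prop := fun j => Btw (h 2 j) (h ρ (f (i + 1))) (h 2 (i + 1))
  have key : ∀ j, u ≤ j → j + 1 ≤ v → j % 2 = i % 2 → ((X j ↔ Y j) ↔ (X (j + 1) ↔ Y (j + 1))) := by
    intro j hj hj' hp
    have tr : ∀ j, u ≤ j → j ≤ v → ((X j ↔ Y j) ↔ (Btw (h 2 j) (h 2 i) (h 2 (i + 1)) ↔
        Btw (h 2 j) (h ρ (f i)) (h ρ (f (i + 1))))) := fun j hj hj' =>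
      geoB_xor (geoB_ne H (by omega) (by omega) f1 f3 (Or.inl hρ.symm))
        (geoB_ne H (by omega) (by omega) hi1 (by omega) (Or.inr (by omega)))
        (geoB_ne H (by omega) (by omega) f2 f4 (Or.inl hρ.symm))
        (geoB_ne H (by omega) (by omega) (by omega) hi' (Or.inr (by omega)))
    rw [tr j hj (by omega), tr (j + 1) (by omega) hj',
      geoB_nc H (r := 2) (r' := 2) hi1 hi' (by omega) (by omega) hp.symm (Or.inr (by omega))]
    refine iff_congr Iff.rfl ?_ |>.trans Iff.rfl
    rcases P.step i hi hi' with e | ⟨e, e', -⟩ | ⟨e, e', -⟩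
    · rw [e]; unfold Btw; omega
    · rw [e]
      exact geoB_nc H f1 (by omega) (by omega) (by omega) (by omega) (Or.inl hρ)
    · rw [← e, geoB_symm, geoB_symm (z := h 2 (j + 1))]
      exact geoB_nc H f2 (by omega) (by omega) (by omega) (by omega) (Or.inl hρ)
  have two : ∀ x : ZMod 2, x + x = 0 := by decide
  have val : ∀ p q p' q' : Prop, ((p ↔ q) ↔ (p' ↔ q')) →
      ((if p then (1 : ZMod 2) else 0) + if q then 1 else 0) +
        ((if p' then (1 : ZMod 2) else 0) + if q' then 1 else 0) = 0 := by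
    intro p q p' q' e
    by_cases p <;> by_cases q <;> by_cases p' <;> by_cases q' <;> grind
  have sum0 : ∑ j ∈ Finset.Icc u v,
      ((if X j then (1 : ZMod 2) else 0) + if Y j then 1 else 0) = 0 := by
    refine Finset.sum_involution
      (fun j _ => if j % 2 = i % 2 then (if j < v then j + 1 else j) else
        (if u < j then j - 1 else j)) ?_ ?_ ?_ ?_
    · intro j hj
      rw [Finset.mem_Icc] at hj
      by_cases h1 : j % 2 = i % 2
      · by_cases h2 : j < v
        · simp only [if_pos h1, if_pos h2]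
          exact val _ _ _ _ (key j hj.1 h2 h1)
        · simp only [if_pos h1, if_neg h2]
          exact two _
      · by_cases h2 : u < j
        · simp only [if_neg h1, if_pos h2]
          have := key (j - 1) (by omega) (by omega) (by omega)
          rw [show j - 1 + 1 = j by omega] at this
          exact val _ _ _ _ this.symm
        · simp only [if_neg h1, if_neg h2]
          exact two _
    · intro j hj hne
      rw [Finset.mem_Icc] at hj
      have : X j ∨ Y j := by
        by_contra hc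
        push Not at hc
        simp [hc.1, hc.2] at hne
      have := hex j hj.1 hj.2 this
      split_ifs <;> omega
    · intro j hj
      rw [Finset.mem_Icc] at hj ⊢
      split_ifs <;> omega
    · intro j hj
      rw [Finset.mem_Icc] at hj
      split_ifs <;> omega
  rw [Finset.sum_add_distrib] at sum0
  have := two (geoB_cnt h f ρ u v (i + 1))
  unfold geoB_cnt at *
  linear_combination sum0 - this

theorem geoB_one {ρ : Fin 3} {u v i j : ℕ} (hu : u ≤ j) (hv : j ≤ v)
    (hj : Btw (h 2 j) (h ρ (f i)) (h 2 i))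
    (hu' : ∀ j', u ≤ j' → j' ≤ v → Btw (h 2 j') (h ρ (f i)) (h 2 i) → j' = j) :
    geoB_cnt h f ρ u v i = 1 := by
  classical
  unfold geoB_cnt
  rw [Finset.sum_eq_single_of_mem j (Finset.mem_Icc.2 ⟨hu, hv⟩), if_pos hj]
  intro b hb hne
  rw [Finset.mem_Icc] at hb
  exact if_neg fun e => hne (hu' b hb.1 hb.2 e)

theorem geoB_ex {ρ : Fin 3} {u v i : ℕ} (e : geoB_cnt h f ρ u v i = 1) :
    ∃ j, u ≤ j ∧ j ≤ v ∧ Btw (h 2 j) (h ρ (f i)) (h 2 i) := by
  classical
  by_contra hc
  push Not at hc
  unfold geoB_cnt at e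
  rw [Finset.sum_eq_zero fun j hj => if_neg
    (hc j (Finset.mem_Icc.1 hj).1 (Finset.mem_Icc.1 hj).2)] at e
  exact absurd e (by decide)

end

theorem trace_of_ports {N Λ L : ℕ} {w : ℕ → Letter} {h : Fin 3 → ℕ → ℤ} {f : ℕ → ℕ}
    (H : Geo N w h) (P : Ports N Λ w h f) (hΛ : 2 * N + 2 ≤ 3 * Λ) (hL : Λ ≤ L)
    (hN : L + 2 < N) (hc : ∀ k, 2 * Λ ≤ k + N → k ≤ L + 1 → Clean N h k) :
    Trace N Λ L w f := by
  refine ⟨P.start, P.step, fun i hi hi' hf hm hs e => ?_, ?_⟩
  · have b := geoB_bounds P hi (show i < N by omega)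
    have b1 := P.ins i hi (by omega)
    have b2 := P.ins (i + 1) (by omega) hi'
    have b3 := geoB_safe H (by omega) hi' hm hs
    rw [e] at b2
    refine hc (f i) (by omega) hf i (by omega) (by omega) ?_
    unfold Btw at *
    omega
  intro a b c ha hab hbc hcN hfL hb hh hvb hac hva hp
  have bd : ∀ i, a ≤ i → i ≤ c → 1 ≤ f i ∧ f i ≤ L ∧ Clean N h (f i) := fun i hi hi' => by
    have b := geoB_bounds P (show Λ ≤ i by omega) (show i < N by omega)
    have b' := hfL i hi hi'
    exact ⟨by omega, b', hc _ (by omega) (by omega)⟩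
  have ins : ∀ i, a ≤ i → i ≤ c → Btw (h 2 i) (h 0 (f i)) (h 1 (f i)) := fun i hi hi' =>
    P.ins i (by omega) (by omega)
  have same : ∀ (ρ : Fin 3) i j, ρ = 0 ∨ ρ = 1 → a ≤ i → i ≤ c → a ≤ j → j ≤ c →
      Btw (h 2 j) (h ρ (f i)) (h 2 i) → f j = f i := by
    intro ρ i j hρ hi hi' hj hj' e
    have b1 := bd i hi hi'
    have b2 := bd j hj hj'
    refine geoB_uniq H b2.1 (by omega) b1.1 (by omega) b2.2.2 b1.2.2 (ins j hj hj') ?_
    have := ins i hi hi'
    unfold Btw at *
    rcases hρ with rfl | rfl <;> (clear * - e this; omega)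
  have turn : Btw (h 2 b) (h 1 (f b)) (h 2 (b + 1)) ∧ Btw (h 2 (b + 1)) (h 0 (f b)) (h 2 b) := by
    have b1 := bd b (by omega) (by omega)
    have i1 := ins b (by omega) (by omega)
    have i2 := ins (b + 1) (by omega) (by omega)
    have h1 := H.vc b (by omega) (by omega)
    have h2 := H.ab (f b) b1.1 (by omega)
    have e := geoB_ne H (r := 2) (r' := 2) (i := b) (j := b + 1) (by omega) (by omega) (by omega)
      (by omega) (Or.inr (by omega))
    rw [hb] at i2
    rw [hh] at h1
    simp only [dir, decide_eq_true_eq] at h1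
    unfold Btw at *
    (clear * - e h1 h2 i1 i2; lia)
  constructor
  · have cnt : ∀ j, b + 1 ≤ j → j ≤ c → geoB_cnt h f 1 a b j = 1 := by
      intro j hj
      induction j, hj using Nat.le_induction with
      | base =>
        intro _
        refine geoB_one (j := b) (by omega) le_rfl (by rw [hb]; exact turn.1) fun j h1 h2 e => ?_
        have := same 1 (b + 1) j (Or.inr rfl) (by omega) (by omega) h1 (by omega) e
        have := hvb j h1 (by omega) (by omega)
        omega
      | succ i hi ih =>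
        intro hi'
        have b1 := bd i (by omega) (by omega)
        have b2 := bd (i + 1) (by omega) (by omega)
        rw [← geoB_step H P (by decide) (by omega) (by omega) (by omega) (by omega) (by omega)
          (by omega) b1.1 b2.1 (by omega) (by omega), ih (by omega)]
        intro j h1 h2 e
        have e' : f j = f i ∨ f j = f (i + 1) := e.imp
          (same 1 i j (Or.inr rfl) (by omega) (by omega) h1 (by omega))
          (same 1 (i + 1) j (Or.inr rfl) (by omega) (by omega) h1 (by omega))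
        have v1 := hvb i (by omega) (by omega)
        have v2 := hvb (i + 1) (by omega) (by omega)
        have v3 := hva i (by omega) (by omega)
        have v4 := hva (i + 1) (by omega) (by omega)
        constructor
        · intro hp'
          rcases Nat.lt_or_eq_of_le h2 with h3 | rfl
          · exact h3
          · (clear * - e' hab hac hi hi' hp' ih v1 v2 v3 v4; lia)
        · intro hp'
          rcases Nat.lt_or_eq_of_le h1 with h3 | rfl
          · exact h3
          · (clear * - e' hab hac hi hi' hp hp' ih v1 v2 v3 v4; lia)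
    intro j hj hj'
    obtain ⟨i, h1, h2, e⟩ := geoB_ex (cnt j hj hj')
    have e' := same 1 j i (Or.inr rfl) (by omega) hj' h1 (by omega) e
    have b1 := bd j (by omega) hj'
    exact ⟨i, h1, h2, e', geoB_sign H b1.1 (by omega) (by omega) (by omega) (by omega) b1.2.2 e' rfl
      (ins j (by omega) hj') e⟩
  · have cnt : ∀ t i, i + t = b → a ≤ i → geoB_cnt h f 0 (b + 1) c i = 1 := by
      intro t
      induction t with
      | zero =>
        intro i hi _
        obtain rfl : i = b := by omega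
        refine geoB_one (j := i + 1) le_rfl (by omega) turn.2 fun j h1 h2 e => ?_
        have := same 0 i j (Or.inl rfl) (by omega) (by omega) (by omega) h2 e
        have := hvb j (by omega) h2 this
        omega
      | succ t ih =>
        intro i hi hi'
        have b1 := bd i (by omega) (by omega)
        have b2 := bd (i + 1) (by omega) (by omega)
        rw [geoB_step H P (by decide) (by omega) (by omega) (by omega) (by omega) (by omega)
          (by omega) b1.1 b2.1 (by omega) (by omega), ih (i + 1) (by omega) (by omega)]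
        intro j h1 h2 e
        have e' : f j = f i ∨ f j = f (i + 1) := e.imp
          (same 0 i j (Or.inl rfl) (by omega) (by omega) (by omega) h2)
          (same 0 (i + 1) j (Or.inl rfl) (by omega) (by omega) (by omega) h2)
        have v1 := hvb i (by omega) (by omega)
        have v2 := hvb (i + 1) (by omega) (by omega)
        have v3 := hva i (by omega) (by omega)
        have v4 := hva (i + 1) (by omega) (by omega)
        constructor
        · intro hp'
          rcases Nat.lt_or_eq_of_le h2 with h3 | rfl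
          · exact h3
          · (clear * - e' h1 hac hi hi' hp hp' v1 v2 v3 v4; lia)
        · intro hp'
          rcases Nat.lt_or_eq_of_le h1 with h3 | rfl
          · exact h3
          · (clear * - e' hac hb hbc hi hi' hp' v1 v2 v3 v4; lia)
    intro i hi hi'
    obtain ⟨j, h1, h2, e⟩ := geoB_ex (cnt (b - i) i (by omega) hi)
    have e' := same 0 i j (Or.inl rfl) hi (by omega) (by omega) h2 e
    have b1 := bd i hi (by omega)
    have i1 := ins i hi (by omega)
    have i2 := ins j (by omega) h2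
    rw [e'] at i2
    refine ⟨j, h1, h2, e', geoB_sign H b1.1 (by omega) (by omega) (by omega) (by omega) b1.2.2 rfl e'
      i2 ?_⟩
    unfold Btw at *
    omega

end Pool.Agent.Work.MP_8ff565_lc
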