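import Pool.Agent.Work.MP_8ff565_lc.NPmem
import Pool.Agent.Lib.Cx.CookLevin
import Pool.Agent.Lib.Cx.Bridge

-- merged part: Pool.Agent.Work.MP_8ff565_lc.PlanC
section
/-!
The walk of row `C` on the slots, for a satisfying assignment.

Plan. Let `Loc f mv i` be: `WStep f mv hand η i`, `Λ ≤ f i ≤ L`, `sgn w f i = sig y a (f i)` and
the letter condition. `Seg t l x x'`: there are `f, mv` with `f t = x`, `f (t + l) = x'`, `Loc` on
`[t, t + l)`, `Adj (mv (i - 1)) (mv i)` for `t < i < t + l`, and first and last move `≤ 1`.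
Segments glue. Basic segments: straight runs, single turns, and blocks given by tables of
positions and moves. In a clause pass the blocks before the true literal `v` are read on their
own section, block `v` returns to the start of section `v`, and the later blocks are read on the
preceding section.
-/

namespace Pool.Agent.Work.MP_8ff565_lc

/-- The local condition at time `i` for a move `m` from the slot `x` to the slot `x'`. -/
def LocV (y : Lay) (w : ℕ → Letter) (a : ℕ → Bool) (i x x' m : ℕ) : Prop :=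
  ((m = 0 ∧ x' = x + 1 ∧ x % 2 = i % 2 ∧ (w i).2.1 = eta (w x)) ∨
    (m = 0 ∧ x' + 1 = x ∧ x % 2 ≠ i % 2 ∧ (w i).2.1 = !eta (w x')) ∨
    (m = 1 ∧ x' = x ∧ (w i).2.1 = decide (x % 2 = i % 2)) ∨
    ((m = 2 ∨ m = 3) ∧ x' = x ∧ (w i).2.1 = !decide (x % 2 = i % 2))) ∧
  y.Λ ≤ x ∧ x ≤ y.L ∧ ((w i).2.2 == decide (x % 2 = i % 2)) = sig y a x ∧
  ((w i).1 = true ↔ (m ≠ 0 ∨ mvA y a (min x x') ≠ 0))

/-- A piece of the walk, from the slot `x` at time `t` to the slot `x'` at time `u`. -/
def Seg (y : Lay) (w : ℕ → Letter) (a : ℕ → Bool) (t u x x' : ℕ) : Prop :=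
  t ≤ u ∧ ∃ f mv : ℕ → ℕ, f t = x ∧ f u = x' ∧
    (∀ i, t ≤ i → i < u → LocV y w a i (f i) (f (i + 1)) (mv i)) ∧
    (∀ i, t < i → i < u → Adj (mv (i - 1)) (mv i)) ∧ mv t ≤ 1 ∧ mv (u - 1) ≤ 1

/-- The local condition inside a section of type `ty`. -/
def Chk (ty : Bool) (e : ℕ) (l : Letter) (b p p' m : ℕ) : Prop :=
  ((m = 0 ∧ p' = p + 1 ∧ p % 2 = (e + b) % 2 ∧ l.2.1 = sec.getD p false ∧ p < 12) ∨
    (m = 0 ∧ p' + 1 = p ∧ p % 2 ≠ (e + b) % 2 ∧ l.2.1 = !sec.getD p' false) ∨
    (m = 1 ∧ p' = p ∧ l.2.1 = decide (p % 2 = (e + b) % 2)) ∨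
    ((m = 2 ∨ m = 3) ∧ p' = p ∧ l.2.1 = !decide (p % 2 = (e + b) % 2))) ∧
  p ≤ 12 ∧ (l.2.2 == decide (p % 2 = (e + b) % 2)) = (sigT ty).getD p false ∧
  (l.1 = true ↔ (m ≠ 0 ∨ (mvT ty).getD (min p p') 0 ≠ 0))

instance (ty : Bool) (e : ℕ) (l : Letter) (b p p' m : ℕ) : Decidable (Chk ty e l b p p' m) := by
  unfold Chk; infer_instance

instance (a b : ℕ) : Decidable (Adj a b) := by
  unfold Adj; infer_instance

/-- A block read along the tables `P` (positions) and `M` (moves). -/
def BlockOK (ty : Bool) (e l : ℕ) (wl : ℕ → Letter) (P M : List ℕ) : Prop :=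
  (∀ b, b < l → Chk ty e (wl b) b (P.getD b 0) (P.getD (b + 1) 0) (M.getD b 0)) ∧
  (∀ b, b < l → 0 < b → Adj (M.getD (b - 1) 0) (M.getD b 0)) ∧ M.getD 0 0 ≤ 1 ∧
  M.getD (l - 1) 0 ≤ 1

instance (ty : Bool) (e l : ℕ) (wl : ℕ → Letter) (P M : List ℕ) :
    Decidable (BlockOK ty e l wl P M) := by
  unfold BlockOK; infer_instance

theorem planC_back (ty : Bool) : ∃ P M, BlockOK ty 1 14 (fun b => rev (wG.getD (13 - b) dl)) P M ∧
    P.getD 0 0 = 12 ∧ P.getD 14 0 = 0 := by
  cases ty
  · exact ⟨[12, 11, 10, 9, 8, 7, 6, 5, 4, 3, 2, 1, 1, 1, 0],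
      [0, 0, 0, 0, 0, 0, 0, 0, 0, 0, 0, 2, 3, 0], by decide, rfl, rfl⟩
  · exact ⟨[12, 11, 10, 9, 8, 7, 6, 5, 4, 4, 4, 3, 2, 1, 0],
      [0, 0, 0, 0, 0, 0, 0, 0, 1, 1, 0, 0, 0, 0], by decide, rfl, rfl⟩

theorem planC_adv (ty : Bool) (c : List (ℕ × Bool)) (v : ℕ) :
    ∃ P M, BlockOK ty 0 16 (fun b => (blk c v).getD b dl) P M ∧
      P.getD 0 0 = 0 ∧ P.getD 16 0 = 12 := by
  unfold blk
  split_ifs <;> cases ty
  · exact ⟨[0, 1, 1, 1, 2, 3, 4, 5, 6, 7, 8, 9, 10, 10, 10, 11, 12],
      [0, 1, 1, 0, 0, 0, 0, 0, 0, 0, 0, 0, 1, 1, 0, 0], by decide, rfl, rfl⟩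
  · exact ⟨[0, 1, 2, 3, 4, 4, 4, 5, 6, 7, 8, 9, 10, 10, 10, 11, 12],
      [0, 0, 0, 0, 2, 3, 0, 0, 0, 0, 0, 0, 1, 1, 0, 0], by decide, rfl, rfl⟩
  · exact ⟨[0, 1, 1, 1, 2, 3, 4, 5, 6, 7, 7, 7, 8, 9, 10, 11, 12],
      [0, 1, 1, 0, 0, 0, 0, 0, 0, 2, 3, 0, 0, 0, 0, 0], by decide, rfl, rfl⟩
  · exact ⟨[0, 1, 2, 3, 4, 4, 4, 5, 6, 7, 7, 7, 8, 9, 10, 11, 12],
      [0, 0, 0, 0, 2, 3, 0, 0, 0, 2, 3, 0, 0, 0, 0, 0], by decide, rfl, rfl⟩
  · exact ⟨[0, 1, 1, 1, 2, 3, 4, 5, 6, 7, 7, 7, 8, 9, 10, 11, 12],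
      [0, 1, 1, 0, 0, 0, 0, 0, 0, 1, 1, 0, 0, 0, 0, 0], by decide, rfl, rfl⟩
  · exact ⟨[0, 1, 2, 3, 4, 4, 4, 5, 6, 7, 7, 7, 8, 9, 10, 11, 12],
      [0, 0, 0, 0, 2, 3, 0, 0, 0, 1, 1, 0, 0, 0, 0, 0], by decide, rfl, rfl⟩

theorem planC_stay (ty : Bool) :
    ∃ P M, BlockOK ty 0 16 (fun b => (if ty = true then wT else wF).getD b dl) P M ∧
      P.getD 0 0 = 0 ∧ P.getD 16 0 = 0 := by
  cases ty
  · exact ⟨[0, 1, 1, 1, 2, 3, 4, 5, 5, 4, 3, 2, 1, 1, 1, 0, 0],
      [0, 1, 1, 0, 0, 0, 0, 1, 0, 0, 0, 0, 1, 1, 0, 1], by decide, rfl, rfl⟩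
  · exact ⟨[0, 1, 2, 3, 4, 4, 4, 5, 5, 4, 3, 3, 3, 2, 1, 0, 0],
      [0, 0, 0, 0, 2, 3, 0, 1, 0, 0, 1, 1, 0, 0, 0, 1], by decide, rfl, rfl⟩

section
variable {y : Lay} {cl : ℕ → List (ℕ × Bool)} {w : ℕ → Letter} {a : ℕ → Bool}

theorem Seg.trans {t u v x z x' : ℕ} (h1 : Seg y w a t u x z) (h2 : Seg y w a u v z x') :
    Seg y w a t v x x' := by
  obtain ⟨l1, f1, m1, a1, a2, a3, a4, a5, a6⟩ := h1
  obtain ⟨l2, f2, m2, b1, b2, b3, b4, b5, b6⟩ := h2
  have hf : ∀ i, u ≤ i → (if i ≤ u then f1 i else f2 i) = f2 i := fun i hi => by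
    split_ifs with h
    · obtain rfl : i = u := by omega
      rw [a2, b1]
    · rfl
  refine ⟨l1.trans l2, fun i => if i ≤ u then f1 i else f2 i, fun i => if i < u then m1 i else m2 i,
    by simp only [if_pos l1, a1], (hf v l2).trans b2, fun i hi hi' => ?_,
    fun i hi hi' => ?_, ?_, ?_⟩
  · by_cases h : i < u
    · simp only [if_pos h, if_pos h.le, if_pos (show i + 1 ≤ u from h)]
      exact a3 i hi h
    · simp only [if_neg h, hf i (by omega), hf (i + 1) (by omega)]
      exact b3 i (by omega) hi'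
  · by_cases h : i < u
    · simp only [if_pos h, if_pos (show i - 1 < u by omega)]
      exact a4 i hi h
    · by_cases h' : i = u
      · subst h'
        simp only [if_neg h, if_pos (show i - 1 < i by omega)]
        unfold Adj
        omega
      · simp only [if_neg h, if_neg (show ¬i - 1 < u by omega)]
        exact b4 i (by omega) hi'
  · by_cases h : t < u
    · simp only [if_pos h, a5]
    · obtain rfl : t = u := by omega
      simp only [if_neg h, b5]
  · by_cases h : v - 1 < u
    · obtain rfl : v = u := by omega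
      simp only [if_pos h, a6]
    · simp only [if_neg h, b6]

theorem Seg.cast {t u x x' t1 u1 x1 x1' : ℕ} (h : Seg y w a t u x x') (e1 : t = t1) (e2 : u = u1)
    (e3 : x = x1) (e4 : x' = x1') : Seg y w a t1 u1 x1 x1' := by
  subst e1 e2 e3 e4; exact h

theorem seg_one {t x x' m : ℕ} (h : LocV y w a t x x' m) (hm : m ≤ 1) :
    Seg y w a t (t + 1) x x' := by
  refine ⟨by omega, fun i => if i ≤ t then x else x', fun _ => m, by simp, by simp,
    fun i hi hi' => ?_, fun i hi hi' => by omega, hm, hm⟩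
  obtain rfl : i = t := by omega
  simpa using h

theorem seg_iter (T X : ℕ → ℕ) (l : ℕ)
    (h : ∀ j, j < l → Seg y w a (T j) (T (j + 1)) (X j) (X (j + 1))) :
    Seg y w a (T 0) (T l) (X 0) (X l) := by
  induction l with
  | zero => exact ⟨le_rfl, fun _ => X 0, fun _ => 0, rfl, rfl, fun i h1 h2 => by omega,
      fun i h1 h2 => by omega, Nat.zero_le _, Nat.zero_le _⟩
  | succ l ih => exact (ih fun j hj => h j (by omega)).trans (h l (by omega))

theorem planC_sig (hy : y.OK) {v p : ℕ} (hv : v < y.n) (hp : p ≤ 12) :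
    sig y a (y.s + 12 * v + p) = (sigT (a v)).getD p false := by
  have h1 := hy.he
  have h2 := hy.hp
  have z : ∀ b, (sigT b).getD 0 false = true ∧ (sigT b).getD 12 false = true := by decide
  unfold sig
  rw [if_neg (by omega)]
  rcases Nat.lt_or_eq_of_le hp with h | rfl
  · rw [if_pos (by omega), show (y.s + 12 * v + p - y.s) / 12 = v by omega,
      show (y.s + 12 * v + p - y.s) % 12 = p by omega]
  · rw [(z _).2]
    split_ifs with h3 h4
    · rw [show (y.s + 12 * v + 12 - y.s) % 12 = 0 by omega, (z _).1]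
    · omega
    · exact decide_eq_true (by omega)

theorem planC_mv (hy : y.OK) {v p : ℕ} (hv : v < y.n) (hp : p < 12) :
    mvA y a (y.s + 12 * v + p) = (mvT (a v)).getD p 0 := by
  have h1 := hy.he
  unfold mvA
  rw [if_neg (by omega), if_pos (by omega), show (y.s + 12 * v + p - y.s) / 12 = v by omega,
    show (y.s + 12 * v + p - y.s) % 12 = p by omega]

theorem planC_loc (hy : y.OK) (hs : Shape y cl w) {v t e b p p' m : ℕ} (hv : v < y.n)
    (ht : t % 2 = (y.s + e) % 2) (h : Chk (a v) e (w (t + b)) b p p' m) :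
    LocV y w a (t + b) (y.s + 12 * v + p) (y.s + 12 * v + p') m := by
  obtain ⟨c1, c2, c3, c4⟩ := h
  have h1 := hy.hs
  have h2 := hy.he
  have h3 := hy.hp
  have h4 := hy.hL
  have par : ((y.s + 12 * v + p) % 2 = (t + b) % 2) = (p % 2 = (e + b) % 2) :=
    propext (by (clear * - h1 h2 ht; lia))
  unfold LocV
  simp only [ne_eq, par]
  refine ⟨?_, by omega, by omega, by rw [planC_sig hy hv c2]; exact c3, ?_⟩
  · rcases c1 with ⟨d1, d2, d3, d4, d5⟩ | ⟨d1, d2, d3, d4⟩ | ⟨d1, d2, d3⟩ | ⟨d1, d2, d3⟩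
    · exact Or.inl ⟨d1, by omega, d3, by rw [d4]; exact (hs.et.mid v p hv d5).symm⟩
    · exact Or.inr (Or.inl ⟨d1, by omega, d3, by
        rw [d4]; exact congrArg _ (hs.et.mid v p' hv (by omega)).symm⟩)
    · exact Or.inr (Or.inr (Or.inl ⟨d1, by omega, d3⟩))
    · exact Or.inr (Or.inr (Or.inr ⟨d1, by omega, d3⟩))
  · rw [c4]
    by_cases hm : m = 0
    · rw [show min (y.s + 12 * v + p) (y.s + 12 * v + p') = y.s + 12 * v + min p p' by omega,
        planC_mv hy hv (by omega)]
    · simp [hm]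

theorem seg_block (hy : y.OK) (hs : Shape y cl w) {v t e l : ℕ} {wl : ℕ → Letter} {P M : List ℕ}
    (hv : v < y.n) (ht : t % 2 = (y.s + e) % 2) (hw : ∀ b, b < l → w (t + b) = wl b)
    (h : BlockOK (a v) e l wl P M) :
    Seg y w a t (t + l) (y.s + 12 * v + P.getD 0 0) (y.s + 12 * v + P.getD l 0) := by
  obtain ⟨c1, c2, c3, c4⟩ := h
  refine ⟨by omega, fun i => y.s + 12 * v + P.getD (i - t) 0, fun i => M.getD (i - t) 0, by simp,
    by simp, fun i hi hi' => ?_, fun i hi hi' => ?_, by simpa using c3, ?_⟩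
  · obtain ⟨b, rfl⟩ := Nat.exists_eq_add_of_le hi
    have := c1 b (by omega)
    rw [← hw b (by omega)] at this
    simp only [show t + b - t = b by omega, show t + b + 1 - t = b + 1 by omega]
    exact planC_loc hy hs hv ht this
  · have := c2 (i - t) (by omega) (by omega)
    simp only [show i - 1 - t = i - t - 1 by omega]
    exact this
  · simp only [show t + l - 1 - t = l - 1 by omega]
    exact c4

theorem planC_sig_lo (hy : y.OK) {k : ℕ} (hk : k ≤ y.s) : sig y a k = true := by
  rcases Nat.lt_or_eq_of_le hk with h | rfl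
  · unfold sig; rw [if_pos h]
  · have := planC_sig (a := a) hy (v := 0) (p := 0) hy.hn (by omega)
    rw [show y.s + 12 * 0 + 0 = y.s by omega] at this
    rw [this]
    cases a 0 <;> rfl

theorem planC_sig_hi (hy : y.OK) {k : ℕ} (hk : y.e ≤ k) :
    sig y a k = decide (k ≠ y.e + 1 ∧ k ≤ y.p) := by
  have h1 := hy.he
  unfold sig
  rw [if_neg (by omega), if_neg (by omega)]
  split_ifs with h <;> simp [h]

theorem planC_mv_lo {k : ℕ} (hk : k < y.s) : mvA y a k = 0 := by
  unfold mvA; rw [if_pos hk]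

theorem planC_mv_hi (hy : y.OK) {k : ℕ} (hk : y.e ≤ k) :
    mvA y a k = if k ≤ y.e + 1 ∨ k = y.p ∨ k = y.L then 1 else 0 := by
  have h1 := hy.he
  unfold mvA
  rw [if_neg (by omega), if_neg (by omega)]

/-- An advance. -/
theorem seg_fwd {t x : ℕ} {m h s : Bool} (hw : w t = (m, h, s)) (hp : x % 2 = t % 2)
    (he : eta (w x) = h) (h1 : y.Λ ≤ x) (h2 : x ≤ y.L) (hs : sig y a x = s)
    (hm : mvA y a x = if m = true then 1 else 0) : Seg y w a t (t + 1) x (x + 1) := by
  refine seg_one (m := 0) ⟨Or.inl ⟨rfl, rfl, hp, by rw [hw, he]⟩, h1, h2, ?_, ?_⟩ (by omega)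
  · rw [hw, hs, decide_eq_true hp]; simp
  · rw [hw, show min x (x + 1) = x by omega, hm]
    cases m <;> simp

/-- A retreat. -/
theorem seg_bwd {t x : ℕ} {m h s : Bool} (hw : w t = (m, h, s)) (hp : x % 2 = t % 2)
    (he : eta (w x) = !h) (h1 : y.Λ ≤ x) (h2 : x + 1 ≤ y.L) (hs : sig y a (x + 1) = !s)
    (hm : mvA y a x = if m = true then 1 else 0) : Seg y w a t (t + 1) (x + 1) x := by
  refine seg_one (m := 0) ⟨Or.inr (Or.inl ⟨rfl, rfl, by omega, by rw [hw, he]; simp⟩), by omega,
    h2, ?_, ?_⟩ (by omega)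
  · rw [hw, hs, decide_eq_false (by omega)]; simp
  · rw [hw, show min (x + 1) x = x by omega, hm]
    cases m <;> simp

/-- An inward turn. -/
theorem seg_turn {t x : ℕ} {h s : Bool} (hw : w t = (true, h, s))
    (hp : decide (x % 2 = t % 2) = h) (h1 : y.Λ ≤ x) (h2 : x ≤ y.L)
    (hs : sig y a x = (s == h)) : Seg y w a t (t + 1) x x := by
  refine seg_one (m := 1) ⟨Or.inr (Or.inr (Or.inl ⟨rfl, rfl, by rw [hw, hp]⟩)), h1, h2, ?_, ?_⟩
    le_rfl
  · rw [hw, hs, hp]
  · rw [hw]; simp

theorem seg_start (hy : y.OK) (hs : Shape y cl w) : Seg y w a (y.L + 1) (y.t 0) y.L y.p := by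
  have hy' := hy
  obtain ⟨h1, h2, h3, h4, h5, h6, h7, h8, h9, h10, h11, h12, h13, h14, h15⟩ := hy'
  have s1 := seg_iter (y := y) (w := w) (a := a) (fun j => y.L + 1 + j) (fun _ => y.L) (y.S - 1)
    fun j hj => seg_turn (hs.lock _ (by omega) (by omega)) (by rw [decide_eq_decide]; (clear * - h2 h3 h4 h5 h6 h7 h8; lia))
      (by omega) le_rfl (by
        rw [planC_sig_hi hy (by omega), decide_eq_false (by omega)]
        rcases Nat.mod_two_eq_zero_or_one (y.L + 1 + j) with e | e <;> rw [e] <;> rfl)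
  have s2 := seg_iter (y := y) (w := w) (a := a) (fun j => y.L + y.S + j) (fun j => y.L - j) y.Q
    fun j hj => (seg_bwd (x := y.L - (j + 1)) (hs.runQ _ (by omega) (by omega)) (by (clear * - h2 h3 h4 h5 h6 h7 h8 h9 hj; lia))
      (hs.et.run _ (by omega) (by omega)) (by omega) (by omega)
      (by rw [planC_sig_hi hy (by omega), decide_eq_false (by omega)]; rfl)
      (by rw [planC_mv_hi hy (by omega), if_neg (by (clear * - h10 h2 h3 h4 h5 h6 h7 h8 h9 hj; lia))]; rfl)).cast rfl rfl (by (clear * - h2 h3 h4 h5 h6 h7 h8 hj; lia)) rfl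
  have s3 := seg_bwd (y := y) (a := a) (x := y.p) hs.peak (by (clear * - h2 h3 h4 h5 h6 h7 h8 h9; omega))
    (hs.et.right _ (by omega) le_rfl) (by omega) (by omega)
    (by rw [planC_sig_hi hy (by omega), decide_eq_false (by omega)]; rfl)
    (by rw [planC_mv_hi hy (by omega), if_pos (by omega)]; rfl)
  exact (((s1.cast rfl (by omega) rfl rfl).trans s2).trans
    (s3.cast rfl rfl (by omega) rfl)).cast rfl (by rw [Lay.t_zero]; omega) rfl rfl

theorem seg_back (hy : y.OK) (hs : Shape y cl w) {r : ℕ} (hr : r ≤ y.m) :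
    Seg y w a (y.t r) (y.t r + y.LB + 1) y.p y.Λ := by
  have t3 := hy.t_odd r
  have hy' := hy
  obtain ⟨h1, h2, h3, h4, h5, h6, h7, h8, h9, h10, h11, h12, h13, h14, h15⟩ := hy'
  have s1 := seg_iter (y := y) (w := w) (a := a) (fun j => y.t r + j) (fun j => y.p - j) y.q
    fun j hj => (seg_bwd (x := y.p - (j + 1)) (hs.b1 r j hr hj) (by (clear * - h2 h4 h5 h6 h7 hj t3; omega))
      (hs.et.right _ (by (clear * - h2 h4 h5 h6 h7 hj; omega)) (by omega)) (by omega) (by (clear * - h2 h3 h4 h5 h6 h7 h8 hj; omega))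
      (by rw [planC_sig_hi hy (by omega), decide_eq_true (by omega)]; rfl)
      (by rw [planC_mv_hi hy (by omega), if_neg (by (clear * - h10 h2 h3 h4 h5 h6 h7 h8 h9 hj; lia))]; rfl)).cast rfl rfl (by (clear * - h10 h2 h3 h4 h5 h6 h7 h8 h9 hj; omega)) rfl
  have w2 : w (y.t r + y.q) = (true, true, false) := by
    have := hs.b2 r (14 * y.n + 1) hr (by omega)
    rw [Nat.sub_self, Nat.add_zero] at this
    rw [this]; unfold gm
    rw [if_neg (by omega), if_pos rfl]; rfl
  have w3 : w (y.t r + y.q + 1) = (true, false, true) := by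
    have := hs.b2 r (14 * y.n) hr (by omega)
    rw [show 14 * y.n + 1 - 14 * y.n = 1 by omega] at this
    rw [this]; unfold gm
    rw [if_neg (by omega), if_neg (by omega)]; rfl
  have s2 := seg_bwd (y := y) (a := a) (x := y.e + 1) w2 (by omega) hs.et.e1 (by omega) (by omega)
    (by rw [planC_sig_hi hy (by omega), decide_eq_true (by omega)]; rfl)
    (by rw [planC_mv_hi hy (by omega), if_pos (by omega)]; rfl)
  have s3 := seg_bwd (y := y) (a := a) (x := y.e) w3 (by omega) hs.et.e0 (by omega) (by omega)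
    (by rw [planC_sig_hi hy (by omega), decide_eq_false (by omega)]; rfl)
    (by rw [planC_mv_hi hy (by omega), if_pos (by omega)]; rfl)
  have s4 := seg_iter (y := y) (w := w) (a := a) (fun j => y.t r + y.q + 2 + 14 * j)
    (fun j => y.s + 12 * (y.n - j)) y.n fun j hj => by
      obtain ⟨P, M, c1, c2, c3⟩ := planC_back (a (y.n - (j + 1)))
      refine (seg_block hy hs (t := y.t r + y.q + 2 + 14 * j) (by omega) (by (clear * - h2 h4 h5 t3; lia))
        (fun b hb => ?_) c1).cast rfl (by omega) (by omega) (by omega)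
      have := hs.b2 r (14 * (y.n - (j + 1)) + (13 - b)) hr (by omega)
      rw [show y.t r + y.q + (14 * y.n + 1 - (14 * (y.n - (j + 1)) + (13 - b))) =
        y.t r + y.q + 2 + 14 * j + b by omega] at this
      rw [this]; unfold gm
      rw [if_pos (by omega), show (14 * (y.n - (j + 1)) + (13 - b)) % 14 = 13 - b by omega]
  have s5 := seg_iter (y := y) (w := w) (a := a) (fun j => y.t r + y.q + 14 * y.n + 2 + j)
    (fun j => y.s - j) y.q
    fun j hj => (seg_bwd (x := y.s - (j + 1)) (hs.b3 r j hr hj) (by (clear * - h2 h4 h5 hj t3; omega))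
      (hs.et.left _ (by omega) (by omega)) (by omega) (by omega)
      (planC_sig_lo hy (by omega)) (planC_mv_lo (by omega))).cast rfl rfl (by omega) rfl
  have s6 := seg_turn (y := y) (a := a) (x := y.Λ) (hs.b4 r hr) (decide_eq_false (by omega))
    le_rfl (by omega) (planC_sig_lo hy (by omega))
  exact (((((s1.cast rfl rfl rfl (by (clear * - h10 h2 h3 h4 h5 h6 h7 h8 h9; omega))).trans s2).trans s3).trans
    (s4.cast rfl rfl (by omega) rfl)).trans (s5.cast (by omega) rfl (by omega) rfl)).trans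
    (s6.cast (by omega) rfl (by omega) rfl)

theorem seg_forth (hy : y.OK) (hs : Shape y cl w) {r v : ℕ} (hr : r < y.m) (hv : v < y.n)
    (hb : blk (cl r) v = if a v = true then wT else wF) :
    Seg y w a (y.t r + y.LB + 1) (y.t (r + 1)) y.Λ y.p := by
  have t3 := hy.t_odd r
  have t4 := y.t_succ r
  have hy' := hy
  obtain ⟨h1, h2, h3, h4, h5, h6, h7, h8, h9, h10, h11, h12, h13, h14, h15⟩ := hy'
  have s1 := seg_iter (y := y) (w := w) (a := a) (fun j => y.t r + y.LB + 1 + j)
    (fun j => y.Λ + j) y.q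
    fun j hj => seg_fwd (x := y.Λ + j) (hs.f1 r j hr hj) (by omega)
      (hs.et.left _ (by omega) (by omega)) (by omega) (by omega)
      (planC_sig_lo hy (by omega)) (planC_mv_lo (by omega))
  have s2 := seg_iter (y := y) (w := w) (a := a) (fun j => y.t r + y.LB + 1 + y.q + 16 * j)
    (fun j => if j ≤ v then y.s + 12 * j else y.s + 12 * (j - 1)) (y.n + 1) fun j hj => by
      rcases lt_trichotomy j v with h | rfl | h
      · obtain ⟨P, M, c1, c2, c3⟩ := planC_adv (a j) (cl r) j
        exact (seg_block hy hs (t := y.t r + y.LB + 1 + y.q + 16 * j) (by omega) (by (clear * - h11 h2 h4 h5 t3; omega))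
          (fun b hb => hs.f2 r j b hr (by omega) hb) c1).cast rfl (by omega)
          (by rw [if_pos (by omega)]; omega) (by rw [if_pos (by omega)]; omega)
      · obtain ⟨P, M, c1, c2, c3⟩ := planC_stay (a j)
        exact (seg_block hy hs (t := y.t r + y.LB + 1 + y.q + 16 * j) (by omega) (by (clear * - h11 h2 h4 h5 t3; lia))
          (fun b hb' => by rw [hs.f2 r j b hr (by omega) hb', hb]) c1).cast rfl (by omega)
          (by rw [if_pos (by omega)]; omega) (by rw [if_neg (by omega)]; omega)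
      · obtain ⟨P, M, c1, c2, c3⟩ := planC_adv (a (j - 1)) (cl r) j
        exact (seg_block hy hs (t := y.t r + y.LB + 1 + y.q + 16 * j) (by omega) (by omega)
          (fun b hb => hs.f2 r j b hr (by omega) hb) c1).cast rfl (by omega)
          (by rw [if_neg (by omega)]; omega) (by rw [if_neg (by omega)]; (clear * - c3 h; omega))
  have s3 := seg_fwd (y := y) (a := a) (x := y.e) (hs.f3 r hr).1 (by (clear * - h11 h2 h4 h5 h6 t3; lia)) hs.et.e0 (by omega)
    (by omega) (by rw [planC_sig_hi hy (by omega), decide_eq_true (by omega)])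
    (by rw [planC_mv_hi hy (by omega), if_pos (by omega)]; rfl)
  have s4 := seg_fwd (y := y) (a := a) (x := y.e + 1) (hs.f3 r hr).2 (by (clear * - h11 h2 h4 h5 h6 t3; omega)) hs.et.e1
    (by omega) (by omega) (by rw [planC_sig_hi hy (by omega), decide_eq_false (by omega)])
    (by rw [planC_mv_hi hy (by omega), if_pos (by omega)]; rfl)
  have s5 := seg_iter (y := y) (w := w) (a := a)
    (fun j => y.t r + y.LB + 1 + y.q + 16 * y.n + 18 + j) (fun j => y.e + 2 + j) y.q
    fun j hj => seg_fwd (x := y.e + 2 + j) (hs.f4 r j hr hj) (by (clear * - h11 h2 h4 h5 h6 t3; omega))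
      (hs.et.right _ (by omega) (by omega)) (by omega) (by omega)
      (by rw [planC_sig_hi hy (by omega), decide_eq_true (by omega)])
      (by rw [planC_mv_hi hy (by omega), if_neg (by omega)]; rfl)
  have s6 := seg_turn (y := y) (a := a) (x := y.p) (hs.f5 r hr) (decide_eq_true (by (clear * - h11 h12 h2 h4 h5 h6 h7 t3; lia)))
    (by omega) (by omega) (by rw [planC_sig_hi hy (by omega), decide_eq_true (by omega)]; rfl)
  exact (((((s1.trans (s2.cast rfl rfl (by rw [if_pos (by omega)]; omega) rfl)).trans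
    (s3.cast (by omega) rfl (by rw [if_neg (by omega)]; omega) rfl)).trans s4).trans s5).trans
    (s6.cast (by omega) rfl (by omega) rfl)).cast rfl (by omega) rfl rfl

end

theorem plan_ports {y : Lay} {cl : ℕ → List (ℕ × Bool)} {w : ℕ → Letter} (hy : y.OK)
    (hs : Shape y cl w) (a : ℕ → Bool)
    (hsat : ∀ r, r < y.m → ∃ v, v < y.n ∧ blk (cl r) v = if a v = true then wT else wF) :
    ∃ f mv2, Walk (y.N - 1) f mv2 (fun i => (w i).2.1) (fun k => eta (w k)) ∧
      (∀ i, 1 ≤ i → i ≤ y.L → f i = i) ∧ mv2 y.L = 1 ∧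
      (∀ i, y.L < i → i < y.N → y.Λ ≤ f i ∧ f i ≤ y.L ∧ sgn w f i = sig y a (f i)) ∧
      ∀ i, y.L < i → i + 1 < y.N →
        ((w i).1 = true ↔ (mv2 i ≠ 0 ∨ mvA y a (min (f i) (f (i + 1))) ≠ 0)) := by
  have s1 := seg_iter (y := y) (w := w) (a := a) y.t (fun _ => y.p) y.m fun r hr => by
    obtain ⟨v, hv, hb⟩ := hsat r hr
    exact (seg_back hy hs hr.le).trans (seg_forth hy hs hr hv hb)
  obtain ⟨-, f, mv, c1, -, c3, c4, c5, c6⟩ :=
    ((seg_start hy hs).trans s1).trans (seg_back hy hs le_rfl)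
  have t2 := y.t_mono (Nat.zero_le y.m)
  rw [Lay.t_zero] at t2
  obtain ⟨h1, h2, h3, h4, h5, h6, h7, h8, h9, h10, h11, h12, h13, h14, h15⟩ := hy
  rw [← h14] at c3 c4 c6
  let F : ℕ → ℕ := fun i => if i ≤ y.L then i else f i
  let M : ℕ → ℕ := fun i => if i < y.L then 0 else if i = y.L then 1 else mv i
  have F1 : ∀ i, i ≤ y.L → F i = i := fun i hi => if_pos hi
  have F2 : ∀ i, y.L < i → F i = f i := fun i hi => if_neg (by omega)
  have M1 : ∀ i, i < y.L → M i = 0 := fun i hi => if_pos hi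
  have M2 : M y.L = 1 := by simp [M]
  have M3 : ∀ i, y.L < i → M i = mv i := fun i hi => by
    simp only [M, if_neg (show ¬i < y.L by omega), if_neg (show ¬i = y.L by omega)]
  refine ⟨F, M, ⟨fun i hi hi' => ?_, fun i hi hi' => ?_, fun i hi hi' => ?_,
    by rw [M1 0 (by omega)]; omega, by rw [M3 _ (by omega)]; exact c6⟩, fun i _ hi => F1 i hi, M2,
    fun i hi hi' => ?_, fun i hi hi' => ?_⟩
  · by_cases h : i ≤ y.L
    · rw [F1 i h]; omega
    · have := c3 i (by omega) (by omega)
      rw [F2 i (by omega)]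
      have e1 := this.2.1
      have e2 := this.2.2.1
      (clear * - c1 e1 e2 h h11 h14 h15 h2 h3 h4 h5 h6 h7 h8; lia)
  · unfold WStep dir
    rcases lt_trichotomy i y.L with h | rfl | h
    · rw [F1 i h.le, F1 (i + 1) h, M1 i h]
      exact Or.inl ⟨rfl, rfl, rfl, by simp [eta, (hs.sync i hi h).1]⟩
    · rw [F1 _ le_rfl, F2 _ (by omega), M2, c1]
      refine Or.inr (Or.inr (Or.inl ⟨rfl, rfl, ?_⟩))
      simp only [hs.lock _ le_rfl (by omega), decide_eq_decide, iff_true]
      omega
    · rw [F2 i h, F2 (i + 1) (by omega), M3 i h]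
      exact (c3 i h (by omega)).1
  · rcases lt_trichotomy i y.L with h | rfl | h
    · rw [M1 i h, M1 (i - 1) (by omega)]; decide
    · rw [M2, M1 _ (by omega)]; decide
    · rw [M3 i h]
      by_cases h' : i = y.L + 1
      · subst h'
        rw [Nat.add_sub_cancel, M2]
        unfold Adj
        omega
      · rw [M3 _ (by omega)]
        exact c4 i (by omega) (by omega)
  · have := c3 i hi hi'
    unfold sgn dir
    rw [F2 i hi]
    exact ⟨this.2.1, this.2.2.1, this.2.2.2.1⟩
  · rw [F2 i hi, F2 (i + 1) (by omega), M3 i hi]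
    exact (c3 i hi (by omega)).2.2.2.2

end Pool.Agent.Work.MP_8ff565_lc
end

-- merged part: Pool.Agent.Work.MP_8ff565_lc.Inst
section
/-!
The word of the reduction.
-/

namespace Pool.Agent.Work.MP_8ff565_lc

open Pool.Agent.Lib.Cx

/-- One sixth of the number of columns. -/
def tl (n m : ℕ) : ℕ := 259 * n + 323 + m * (111 * n + 137)

/-- The layout for `n` variables and `m` clauses. -/
def lay (n m : ℕ) : Lay where
  n := n
  m := m
  q := 48 * n + 63
  Q := 64 * n + 85
  Λ := 4 * tl n m + 2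
  s := 4 * tl n m + 48 * n + 65
  e := 4 * tl n m + 60 * n + 65
  p := 4 * tl n m + 108 * n + 130
  L := 4 * tl n m + 172 * n + 216
  S := 172 * n + 215
  a := 4 * tl n m + 408 * n + 517
  LB := 110 * n + 128
  LF := 112 * n + 144
  R := 222 * n + 274
  N := 6 * tl n m

theorem lay_ok (n m : ℕ) (hn : 1 ≤ n) : (lay n m).OK := by
  constructor <;> simp only [lay, Lay.t, tl] <;> first | omega | ring

/-- The letter at the offset `j` of a round for the clause `c`. -/
def rnd (n : ℕ) (c : List (ℕ × Bool)) (j : ℕ) : Letter :=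
  if j < 48 * n + 63 then (false, false, false) else
  if j < 62 * n + 65 then rev (gm n (62 * n + 64 - j)) else
  if j < 110 * n + 128 then (false, false, false) else
  if j = 110 * n + 128 then (true, false, false) else
  if j < 158 * n + 192 then (false, true, true) else
  if j < 174 * n + 208 then
    (blk c ((j - (158 * n + 192)) / 16)).getD ((j - (158 * n + 192)) % 16) dl else
  if j = 174 * n + 208 then (true, true, true) else
  if j = 174 * n + 209 then (true, false, false) else
  if j < 222 * n + 273 then (false, true, true) else (true, true, true)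

/-- The letter of the column `i`; here `z = 4 * tl n m`. -/
def wf (n z : ℕ) (φ : List (List (ℕ × Bool))) (i : ℕ) : Letter :=
  if i < z + 2 then (false, decide (i % 2 = 0), false) else
  if i < z + 48 * n + 65 then (false, true, false) else
  if i < z + 60 * n + 65 then (false, sec.getD ((i - (z + 48 * n + 65)) % 12) false, false) else
  if i < z + 172 * n + 216 then
    (false, decide (i ≠ z + 60 * n + 66 ∧ i ≤ z + 108 * n + 130), false) else
  if i < z + 344 * n + 431 then (true, decide (i % 2 = 0), decide (i % 2 = 1)) else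
  if i < z + 408 * n + 516 then (false, true, true) else
  if i = z + 408 * n + 516 then (true, false, true) else
  rnd n (φ.getD ((i - (z + 408 * n + 517)) / (222 * n + 274)) [])
    ((i - (z + 408 * n + 517)) % (222 * n + 274))

theorem Inst_round (n z : ℕ) (φ : List (List (ℕ × Bool))) (r j i : ℕ) (hj : j < 222 * n + 274)
    (hi : i = z + 408 * n + 517 + r * (222 * n + 274) + j) :
    wf n z φ i = rnd n (φ.getD r []) j := by
  have h1 : i - (z + 408 * n + 517) = j + (222 * n + 274) * r := by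
    rw [hi, mul_comm r]; omega
  have h0 : z + 408 * n + 517 ≤ i := by omega
  unfold wf
  rw [if_neg (by omega), if_neg (by omega), if_neg (by omega), if_neg (by omega),
    if_neg (by omega), if_neg (by omega), if_neg (by omega), h1,
    Nat.add_mul_div_left _ _ (by omega), Nat.add_mul_mod_self_left, Nat.div_eq_of_lt hj,
    Nat.mod_eq_of_lt hj, zero_add]

theorem Inst_getD (L : List Letter) (h : ∀ l ∈ L, l.1 = true ∨ l.2.1 = l.2.2) (b : ℕ) :
    (L.getD b dl).1 = true ∨ (L.getD b dl).2.1 = (L.getD b dl).2.2 := by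
  rcases lt_or_ge b L.length with hb | hb
  · rw [List.getD_eq_getElem _ _ hb]
    exact h _ (List.getElem_mem hb)
  · rw [List.getD_eq_default _ _ hb]
    exact Or.inl rfl

theorem Inst_rev (l : Letter) (h : l.1 = true ∨ l.2.1 = l.2.2) :
    (rev l).1 = true ∨ (rev l).2.1 = (rev l).2.2 := by
  obtain ⟨a, b, c⟩ := l
  revert a b c
  decide

theorem Inst_gm (n τ : ℕ) : (gm n τ).1 = true ∨ (gm n τ).2.1 = (gm n τ).2.2 := by
  unfold gm
  split_ifs
  · exact Inst_getD _ (by decide) _
  · exact Or.inl rfl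
  · exact Or.inl rfl

theorem Inst_blk (c : List (ℕ × Bool)) (v b : ℕ) :
    ((blk c v).getD b dl).1 = true ∨ ((blk c v).getD b dl).2.1 = ((blk c v).getD b dl).2.2 := by
  unfold blk
  split_ifs <;> exact Inst_getD _ (by decide) _

theorem Inst_rnd (n : ℕ) (c : List (ℕ × Bool)) (j : ℕ) :
    (rnd n c j).1 = true ∨ (rnd n c j).2.1 = (rnd n c j).2.2 := by
  unfold rnd
  split_ifs
  · exact Or.inr rfl
  · exact Inst_rev _ (Inst_gm _ _)
  · exact Or.inr rfl
  · exact Or.inl rfl
  · exact Or.inr rfl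
  · exact Inst_blk _ _ _
  · exact Or.inl rfl
  · exact Or.inl rfl
  · exact Or.inr rfl
  · exact Or.inl rfl

theorem Inst_eta (n m z : ℕ) (hz : z = 4 * tl n m) (φ : List (List (ℕ × Bool))) :
    EtaOK (lay n m) fun k => eta (wf n z φ k) := by
  have hz2 : z % 2 = 0 := by omega
  constructor <;> simp only [lay, ← hz]
  · intro k _ h
    rw [wf, if_pos h]
    simp [eta]
  · intro k h1 h2
    rw [wf, if_neg (by omega), if_pos h2]
    rfl
  · intro v b hv hb
    rw [wf, if_neg (by omega), if_neg (by omega), if_pos (by omega),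
      show (z + 48 * n + 65 + 12 * v + b - (z + 48 * n + 65)) % 12 = b by omega]
    simp [eta]
  · rw [wf, if_neg (by omega), if_neg (by omega), if_neg (by omega), if_pos (by omega),
      decide_eq_true (by omega)]
    rfl
  · rw [wf, if_neg (by omega), if_neg (by omega), if_neg (by omega), if_pos (by omega),
      decide_eq_false (by omega)]
    rfl
  · intro k h1 h2
    rw [wf, if_neg (by omega), if_neg (by omega), if_neg (by omega), if_pos (by omega),
      decide_eq_true (by omega)]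
    rfl
  · intro k h1 h2
    rcases h2.lt_or_eq with h2 | rfl
    · rw [wf, if_neg (by omega), if_neg (by omega), if_neg (by omega), if_pos (by omega),
        decide_eq_false (by omega)]
      rfl
    · rw [wf, if_neg (by omega), if_neg (by omega), if_neg (by omega), if_neg (by omega),
        if_pos (by omega), decide_eq_true (by omega)]
      rfl
  · rw [wf, if_neg (by omega), if_neg (by omega), if_neg (by omega), if_neg (by omega),
      if_pos (by omega), decide_eq_false (by omega)]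
    rfl

theorem shape_wf (n m : ℕ) (φ : List (List (ℕ × Bool))) :
    Shape (lay n m) (fun r => φ.getD r []) (wf n (4 * tl n m) φ) := by
  obtain ⟨z, hz⟩ : ∃ z, z = 4 * tl n m := ⟨_, rfl⟩
  rw [← hz]
  refine ⟨Inst_eta n m z hz φ, ?_, ?_, ?_, ?_, ?_, ?_, ?_, ?_, ?_, ?_, ?_, ?_, ?_, ?_⟩ <;>
    simp only [lay, Lay.t, ← hz]
  · intro k _ h
    unfold wf
    split_ifs <;> exact ⟨rfl, rfl⟩
  · intro i h1 h2
    rw [wf, if_neg (by omega), if_neg (by omega), if_neg (by omega), if_neg (by omega),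
      if_pos (by omega)]
  · intro i h1 h2
    rw [wf, if_neg (by omega), if_neg (by omega), if_neg (by omega), if_neg (by omega),
      if_neg (by omega), if_pos (by omega)]
  · rw [wf, if_neg (by omega), if_neg (by omega), if_neg (by omega), if_neg (by omega),
      if_neg (by omega), if_neg (by omega), if_pos (by omega)]
  · intro i h
    rw [wf, if_neg (by omega), if_neg (by omega), if_neg (by omega)]
    split_ifs
    · exact Or.inr (decide_eq_false (by omega))
    · exact Or.inl rfl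
    · exact Or.inr rfl
    · exact Or.inl rfl
    · exact Inst_rnd _ _ _
  · intro r j _ hj
    rw [Inst_round n z φ r j _ (by omega) rfl, rnd, if_pos hj]
  · intro r τ _ hτ
    rw [Inst_round n z φ r (62 * n + 64 - τ) _ (by omega) (by omega), rnd, if_neg (by omega),
      if_pos (by omega), show 62 * n + 64 - (62 * n + 64 - τ) = τ by omega]
  · intro r j _ hj
    rw [Inst_round n z φ r (62 * n + 65 + j) _ (by omega) (by omega), rnd, if_neg (by omega),
      if_neg (by omega), if_pos (by omega)]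
  · intro r _
    rw [Inst_round n z φ r (110 * n + 128) _ (by omega) rfl, rnd, if_neg (by omega),
      if_neg (by omega), if_neg (by omega), if_pos rfl]
  · intro r j _ hj
    rw [Inst_round n z φ r (110 * n + 129 + j) _ (by omega) (by omega), rnd, if_neg (by omega),
      if_neg (by omega), if_neg (by omega), if_neg (by omega), if_pos (by omega)]
  · intro r v b _ hv hb
    rw [Inst_round n z φ r (158 * n + 192 + 16 * v + b) _ (by omega) (by omega), rnd,
      if_neg (by omega), if_neg (by omega), if_neg (by omega), if_neg (by omega),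
      if_neg (by omega), if_pos (by omega),
      show (158 * n + 192 + 16 * v + b - (158 * n + 192)) / 16 = v by omega,
      show (158 * n + 192 + 16 * v + b - (158 * n + 192)) % 16 = b by omega]
  · intro r _
    constructor
    · rw [Inst_round n z φ r (174 * n + 208) _ (by omega) (by omega), rnd, if_neg (by omega),
        if_neg (by omega), if_neg (by omega), if_neg (by omega), if_neg (by omega),
        if_neg (by omega), if_pos rfl]
    · rw [Inst_round n z φ r (174 * n + 209) _ (by omega) (by omega), rnd, if_neg (by omega),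
        if_neg (by omega), if_neg (by omega), if_neg (by omega), if_neg (by omega),
        if_neg (by omega), if_neg (by omega), if_pos rfl]
  · intro r j _ hj
    rw [Inst_round n z φ r (174 * n + 210 + j) _ (by omega) (by omega), rnd, if_neg (by omega),
      if_neg (by omega), if_neg (by omega), if_neg (by omega), if_neg (by omega),
      if_neg (by omega), if_neg (by omega), if_neg (by omega), if_pos (by omega)]
  · intro r _
    rw [Inst_round n z φ r (222 * n + 273) _ (by omega) (by omega), rnd, if_neg (by omega),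
      if_neg (by omega), if_neg (by omega), if_neg (by omega), if_neg (by omega),
      if_neg (by omega), if_neg (by omega), if_neg (by omega), if_neg (by omega)]

/-- The label string for the formula `φ` in the variables `0, ..., n - 1`. -/
def code (n : ℕ) (φ : List (List (ℕ × Bool))) : List Bool :=
  (List.range (30 * tl n φ.length - 3)).map (bits (wf n (4 * tl n φ.length) φ))

section
variable {α : Type} [Obj α]

@[fun_prop] theorem ls_tl {n m : α → ℕ} (hn : LS n) (hm : LS m) : LS fun a => tl (n a) (m a) := by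
  unfold tl; fun_prop

@[fun_prop] theorem ls_eta {l : α → Letter} (hl : LS l) : LS fun a => eta (l a) := by
  unfold eta; fun_prop

@[fun_prop] theorem ls_rev {l : α → Letter} (hl : LS l) : LS fun a => rev (l a) := by
  unfold rev; fun_prop

@[fun_prop] theorem ls_gm {n t : α → ℕ} (hn : LS n) (ht : LS t) : LS fun a => gm (n a) (t a) := by
  unfold gm; fun_prop

@[fun_prop] theorem ls_blk {c : α → List (ℕ × Bool)} {v : α → ℕ} (hc : LS c) (hv : LS v) :
    LS fun a => blk (c a) (v a) := by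
  unfold blk; fun_prop

@[fun_prop] theorem ls_rnd {n j : α → ℕ} {c : α → List (ℕ × Bool)} (hn : LS n) (hc : LS c)
    (hj : LS j) : LS fun a => rnd (n a) (c a) (j a) := by
  unfold rnd; fun_prop

@[fun_prop] theorem ls_wf {n z i : α → ℕ} {φ : α → List (List (ℕ × Bool))} (hn : LS n)
    (hz : LS z) (hφ : LS φ) (hi : LS i) : LS fun a => wf (n a) (z a) (φ a) (i a) := by
  unfold wf; fun_prop

theorem ls_bits {w : α → ℕ → Letter} {p : α → ℕ} (hp : LS p)
    (hw : LS fun a => w a (p a / 5)) : LS fun a => bits (w a) (p a) := by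
  have h : LS fun q : Letter × ℕ => bits (fun _ => q.1) q.2 := by
    unfold bits; fun_prop
  exact LS.comp _ _ h (hw.pair hp)

end

theorem ls_code : LS fun p : ℕ × List (List (ℕ × Bool)) => code p.1 p.2 := by
  unfold code
  exact LS.map (by fun_prop) (ls_bits (by fun_prop) (by fun_prop))

end Pool.Agent.Work.MP_8ff565_lc
end
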