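import Pool.Agent.Work.MP_8ff565_lc.NPmem

-- merged part: Pool.Agent.Work.MP_8ff565_lc.SoundG
section
/-!
A generic pass reads every section in one of two ways.

Plan. Let `Φ τ = F τ - (if D τ then 0 else 1)` (an integer). Each step changes `Φ` by `+1` if the
new direction is `true` and by `-1` otherwise. The hands `true true false true false` (the first
five letters of `wG`, of which the first has `m = false`) never occur at five consecutive
boundaries `x, ..., x + 4` with `Λ ≤ x` and `x + 4 ≤ p` (`EtaOK`, cases on `(x - s) % 12`), and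
`|F τ - s| ≤ τ`. Hence among the times `14 v + 1, ..., 14 v + 5` there is one with `D = false`,
each block gains at most `12`, the last two letters at most `2`, and the total gain `12 n + 2`
forces equality everywhere: by induction `F (14 v) = s + 12 v`, `D (14 v) = true`, and exactly one
time `14 v + j`, `1 ≤ j ≤ 14`, has `D = false`. It has `j ≤ 5`, and the letters `j - 1` and `j`
both have `m = true`, so `j = 2` (type `false`) or `j = 5` (type `true`). Put
`a v = D (14 v + 2)`. Then `F (14 v + b)` is explicit and the signs are read off the tables.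
-/

namespace Pool.Agent.Work.MP_8ff565_lc

theorem SoundG_gm {n v b : ℕ} (hv : v < n) (hb : b < 14) : gm n (14 * v + b) = wG.getD b dl := by
  rw [gm, if_pos (by omega), show (14 * v + b) % 14 = b by omega]

theorem SoundG_sig {y : Lay} (hy : y.OK) (a : ℕ → Bool) {v r : ℕ} (hv : v < y.n) (hr : r < 12) :
    sig y a (y.s + 12 * v + r) = (sigT (a v)).getD r false := by
  have := hy.he
  rw [sig, if_neg (by omega), if_pos (by omega),
    show (y.s + 12 * v + r - y.s) / 12 = v by omega,
    show (y.s + 12 * v + r - y.s) % 12 = r by omega]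

theorem SoundG_keep {η : ℕ → Bool} {l : Letter} {k k' : ℕ} {d d' : Bool} (h : St η l k d k' d')
    (hl : l.1 = false) : d' = d := by
  rcases h with ⟨h, -⟩ | ⟨h, h', -⟩ | ⟨h, h', -⟩
  · rw [hl] at h
    exact absurd h (by decide)
  · rw [h, h']
  · rw [h, h']

theorem SoundG_fwd {η : ℕ → Bool} {l : Letter} {k k' : ℕ} {d d' : Bool} (h : St η l k d k' d')
    (hd : d = true) (hd' : d' = true) : k' = k + 1 ∧ l.2.1 = η k := by
  subst hd hd'
  rcases h with ⟨-, -, h⟩ | ⟨-, -, h⟩ | ⟨h, -⟩
  · exact absurd h (by decide)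
  · exact h
  · exact absurd h (by decide)

theorem SoundG_eta {y : Lay} {η : ℕ → Bool} (hy : y.OK) (he : EtaOK y η) {k : ℕ} (h1 : y.Λ ≤ k)
    (h2 : k ≤ y.p) : η k = false ↔ (y.s ≤ k ∧ k < y.e ∧ ((k - y.s) % 12 = 2 ∨ (k - y.s) % 12 = 6 ∨
      (k - y.s) % 12 = 7 ∨ (k - y.s) % 12 = 8 ∨ (k - y.s) % 12 = 10 ∨ (k - y.s) % 12 = 11)) ∨
      k = y.e + 1 := by
  have hee := hy.he
  by_cases a1 : k < y.s
  · rw [he.left k h1 a1]
    exact iff_of_false (by decide) (by omega)
  by_cases a2 : k < y.e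
  · have h3 := he.mid ((k - y.s) / 12) ((k - y.s) % 12) (by omega) (by omega)
    rw [show y.s + 12 * ((k - y.s) / 12) + (k - y.s) % 12 = k by omega] at h3
    have h4 : ∀ b, b < 12 → (sec.getD b false = false ↔
        b = 2 ∨ b = 6 ∨ b = 7 ∨ b = 8 ∨ b = 10 ∨ b = 11) := by decide
    rw [h3, h4 _ (by omega)]
    (clear * - a1 a2 hee; lia)
  by_cases a3 : k = y.e
  · rw [a3, he.e0]
    exact iff_of_false (by decide) (by omega)
  by_cases a4 : k = y.e + 1
  · rw [a4, he.e1]
    exact iff_of_true rfl (Or.inr rfl)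
  · rw [he.right k (by omega) h2]
    exact iff_of_false (by decide) (by omega)

theorem SoundG_pat {y : Lay} {η : ℕ → Bool} (hy : y.OK) (he : EtaOK y η) {x : ℕ} (h1 : y.Λ ≤ x)
    (h2 : x + 4 ≤ y.p) (b0 : η x = true) (b1 : η (x + 1) = true) (b2 : η (x + 2) = false)
    (b3 : η (x + 3) = true) (b4 : η (x + 4) = false) : False := by
  have hee := hy.he
  have c0 := mt (SoundG_eta hy he (k := x) (by omega) (by omega)).2 (by rw [b0]; decide)
  have c1 := mt (SoundG_eta hy he (k := x + 1) (by omega) (by omega)).2 (by rw [b1]; decide)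
  have c2 := (SoundG_eta hy he (k := x + 2) (by omega) (by omega)).1 b2
  have c3 := mt (SoundG_eta hy he (k := x + 3) (by omega) (by omega)).2 (by rw [b3]; decide)
  have c4 := (SoundG_eta hy he (k := x + 4) (by omega) (by omega)).1 b4
  have := hy.hn
  (clear * - c1 c2 c3 c4 hee this; omega)

/-- The time of the pleat. -/
def SoundG_j (a : Bool) : ℕ := if a = true then 5 else 2

/-- The slot at the time `b`. -/
def SoundG_r (j b : ℕ) : ℕ := if b < j then b else if b = j then b - 1 else b - 2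

theorem SoundG_j_le (a : Bool) : 1 ≤ SoundG_j a ∧ SoundG_j a ≤ 5 := by
  cases a <;> decide

theorem SoundG_tab : ∀ (a : Bool) (b : ℕ), b < 14 → SoundG_r (SoundG_j a) b < 12 ∧
    ((wG.getD b dl).2.2 == decide (b ≠ SoundG_j a)) =
      (sigT a).getD (SoundG_r (SoundG_j a) b) false := by
  decide

theorem generic_pure {y : Lay} {η : ℕ → Bool} (hy : y.OK) (he : EtaOK y η) (F : ℕ → ℕ)
    (D : ℕ → Bool)
    (hst : ∀ τ, τ < 14 * y.n + 2 → St η (gm y.n τ) (F τ) (D τ) (F (τ + 1)) (D (τ + 1)))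
    (h0 : F 0 = y.s ∧ D 0 = true)
    (h1 : F (14 * y.n + 2) = y.e + 2 ∧ D (14 * y.n + 2) = true) :
    ∃ a : ℕ → Bool, ∀ τ, τ ≤ 14 * y.n + 2 → ((gm y.n τ).2.2 == D τ) = sig y a (F τ) := by
  have hn := hy.hn
  have hq := hy.hq
  have hs := hy.hs
  have hee := hy.he
  have hp := hy.hp
  obtain ⟨d, hd⟩ : ∃ d : ℕ → ℤ, ∀ τ, (D τ = true ∧ d τ = 0) ∨ (D τ = false ∧ d τ = 1) :=
    ⟨fun τ => if D τ = true then 0 else 1, fun τ => by cases h : D τ <;> simp [h]⟩
  have dT : ∀ τ, D τ = true ↔ d τ = 0 := fun τ => by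
    rcases hd τ with h | h <;> simp [h.1, h.2]
  have dF : ∀ τ, D τ = false ↔ d τ = 1 := fun τ => by
    rcases hd τ with h | h <;> simp [h.1, h.2]
  have d01 : ∀ τ, d τ = 0 ∨ d τ = 1 := fun τ => (hd τ).imp And.right And.right
  obtain ⟨δ, hδ⟩ : ∃ δ : ℕ → ℤ, ∀ τ : ℕ, δ τ = τ + y.s - F τ + d τ := ⟨_, fun _ => rfl⟩
  have step : ∀ τ, τ < 14 * y.n + 2 → δ (τ + 1) = δ τ + 2 * d (τ + 1) := fun τ hτ => by
    rw [hδ, hδ]
    rcases hst τ hτ with ⟨-, h2, h3⟩ | ⟨h2, h3, h4, -⟩ | ⟨h2, h3, h4, -⟩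
    · rcases hd τ with h | h
      · have := (dF (τ + 1)).1 (by rw [h3, h.1]; rfl)
        omega
      · have := (dT (τ + 1)).1 (by rw [h3, h.1]; rfl)
        omega
    · have := (dT _).1 h2
      have := (dT _).1 h3
      omega
    · have := (dF _).1 h2
      have := (dF _).1 h3
      omega
  have mono : ∀ τ τ', τ ≤ τ' → τ' ≤ 14 * y.n + 2 → δ τ ≤ δ τ' := fun τ τ' h h' => by
    induction τ', h using Nat.le_induction with
    | base => exact le_rfl
    | succ τ' h ih =>
      have := step τ' (by omega)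
      have := ih (by omega)
      have := d01 (τ' + 1)
      omega
  have z0 : δ 0 = 0 := by
    have := (dT 0).1 h0.2
    have := hδ 0
    have := h0.1
    omega
  have z1 : δ (14 * y.n + 2) = 2 * y.n := by
    have := (dT _).1 h1.2
    have := hδ (14 * y.n + 2)
    have := h1.1
    omega
  have stw : ∀ v b, v < y.n → b < 14 → St η (wG.getD b dl) (F (14 * v + b)) (D (14 * v + b))
      (F (14 * v + b + 1)) (D (14 * v + b + 1)) := fun v b hv hb => by
    have := hst (14 * v + b) (by omega)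
    rwa [SoundG_gm hv hb] at this
  have loss : ∀ v, v < y.n → δ (14 * v) + 2 ≤ δ (14 * v + 5) := fun v hv => by
    by_contra hc
    have s0 := step (14 * v) (by omega)
    have s1 := step (14 * v + 1) (by omega)
    have s2 := step (14 * v + 2) (by omega)
    have s3 := step (14 * v + 3) (by omega)
    have s4 := step (14 * v + 4) (by omega)
    have e1 := d01 (14 * v + 1)
    have e2 := d01 (14 * v + 2)
    have e3 := d01 (14 * v + 3)
    have e4 := d01 (14 * v + 4)
    have e5 := d01 (14 * v + 5)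
    simp only [Nat.add_assoc, Nat.reduceAdd] at s1 s2 s3 s4
    have t1 : D (14 * v + 1) = true := (dT _).2 (by omega)
    have t2 : D (14 * v + 2) = true := (dT _).2 (by (clear * - e1 e2 e3 e4 e5 hc s0 s1 s2 s3 s4; omega))
    have t3 : D (14 * v + 3) = true := (dT _).2 (by (clear * - e1 e2 e3 e4 e5 hc s0 s1 s2 s3 s4; omega))
    have t4 : D (14 * v + 4) = true := (dT _).2 (by (clear * - e1 e2 e3 e4 e5 hc s0 s1 s2 s3 s4; omega))
    have t5 : D (14 * v + 5) = true := (dT _).2 (by (clear * - e1 e2 e3 e4 e5 hc s0 s1 s2 s3 s4; omega))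
    have t0 : D (14 * v) = true := (SoundG_keep (stw v 0 hv (by omega)) rfl).symm.trans t1
    obtain ⟨a0, b0⟩ := SoundG_fwd (stw v 0 hv (by omega)) t0 t1
    obtain ⟨a1, b1⟩ := SoundG_fwd (stw v 1 hv (by omega)) t1 t2
    obtain ⟨a2, b2⟩ := SoundG_fwd (stw v 2 hv (by omega)) t2 t3
    obtain ⟨a3, b3⟩ := SoundG_fwd (stw v 3 hv (by omega)) t3 t4
    obtain ⟨-, b4⟩ := SoundG_fwd (stw v 4 hv (by omega)) t4 t5
    simp only [Nat.add_assoc, Nat.reduceAdd, Nat.add_zero] at a0 a1 a2 a3 b0
    have c2 : F (14 * v + 2) = F (14 * v) + 2 := by omega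
    have c3 : F (14 * v + 3) = F (14 * v) + 3 := by omega
    have c4 : F (14 * v + 4) = F (14 * v) + 4 := by omega
    rw [a0] at b1
    rw [c2] at b2
    rw [c3] at b3
    rw [c4] at b4
    have m0 := mono 0 (14 * v) (by omega) (by omega)
    have m1 := mono (14 * v) (14 * y.n + 2) (by omega) le_rfl
    have m2 := hδ (14 * v)
    have m3 := d01 (14 * v)
    exact SoundG_pat hy he (x := F (14 * v)) (by (clear * - a0 a1 a2 a3 hee hp hq hs m0 m1 m2 m3 s0 s1 s2 s3 z0 z1; lia)) (by (clear * - a0 a1 a2 a3 hee hp hq hs hv m0 m1 m2 m3 s0 s1 s2 s3 z0 z1; lia)) b0.symm b1.symm b2.symm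
      b3.symm b4.symm
  have gain : ∀ v w, v ≤ w → w ≤ y.n → δ (14 * v) + 2 * ((w : ℤ) - v) ≤ δ (14 * w) :=
    fun v w h h' => by
    induction w, h using Nat.le_induction with
    | base => simp
    | succ w h ih =>
      have := ih (by omega)
      have := loss w (by omega)
      have := mono (14 * w + 5) (14 * (w + 1)) (by omega) (by omega)
      omega
  have ex : ∀ v, v ≤ y.n → δ (14 * v) = 2 * v := fun v hv => by
    have := gain 0 v (by omega) hv
    have := gain v y.n hv le_rfl
    have := mono (14 * y.n) (14 * y.n + 2) (by omega) le_rfl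
    simp only [Nat.mul_zero] at *
    omega
  have top : ∀ v b, v < y.n → b ≤ 14 → 2 * (v : ℤ) ≤ δ (14 * v + b) ∧
      δ (14 * v + b) ≤ 2 * v + 2 ∧ (5 ≤ b → δ (14 * v + b) = 2 * v + 2) := fun v b hv hb => by
    have := ex v hv.le
    have := ex (v + 1) hv
    have := loss v hv
    have := mono (14 * v) (14 * v + b) (by omega) (by omega)
    have := mono (14 * v + b) (14 * (v + 1)) (by omega) (by omega)
    refine ⟨by omega, by omega, fun h => ?_⟩
    have := mono (14 * v + 5) (14 * v + b) (by omega) (by omega)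
    omega
  have beg : ∀ v, v ≤ y.n → d (14 * v) = 0 := fun v hv => by
    rcases v with _ | v
    · exact (dT 0).1 h0.2
    · have := step (14 * v + 13) (by omega)
      have := (top v 13 hv (by omega)).2.2 (by omega)
      have := (top v 14 hv (by omega)).2.2 (by omega)
      rw [show 14 * (v + 1) = 14 * v + 13 + 1 by ring]
      simp only [Nat.add_assoc, Nat.reduceAdd] at *
      omega
  have one : ∀ v, v < y.n → d (14 * v + SoundG_j (D (14 * v + 2))) = 1 := fun v hv => by
    rcases hd (14 * v + 2) with h | h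
    · rw [h.1]
      change d (14 * v + 5) = 1
      have k0 : D (14 * v + 1) = D (14 * v) := SoundG_keep (stw v 0 hv (by omega)) rfl
      have k3 : D (14 * v + 4) = D (14 * v + 3) := SoundG_keep (stw v 3 hv (by omega)) rfl
      have e1 : d (14 * v + 1) = 0 := (dT _).1 (k0.trans ((dT _).2 (beg v hv.le)))
      have e3 : d (14 * v + 4) = d (14 * v + 3) := by
        rcases hd (14 * v + 3) with h' | h'
        · rw [(dT _).1 (k3.trans h'.1), h'.2]
        · rw [(dF _).1 (k3.trans h'.1), h'.2]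
      have s0 := step (14 * v) (by omega)
      have s1 := step (14 * v + 1) (by omega)
      have s2 := step (14 * v + 2) (by omega)
      have s3 := step (14 * v + 3) (by omega)
      have s4 := step (14 * v + 4) (by omega)
      simp only [Nat.add_assoc, Nat.reduceAdd] at s1 s2 s3 s4
      have := ex v hv.le
      have := (top v 5 hv (by omega)).2.2 le_rfl
      have := d01 (14 * v + 5)
      have := h.2
      omega
    · rw [h.1]
      exact h.2
  have blk : ∀ v b j, v < y.n → b < 14 → 1 ≤ j → j ≤ 5 → d (14 * v + j) = 1 →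
      D (14 * v + b) = decide (b ≠ j) ∧ F (14 * v + b) = y.s + 12 * v + SoundG_r j b :=
    fun v b j hv hb hj hj' h => by
    have val : ∀ c, c < 14 → (c < j → δ (14 * v + c) = 2 * v) ∧
        (j ≤ c → δ (14 * v + c) = 2 * v + 2) := fun c hc => by
      have := step (14 * v + (j - 1)) (by omega)
      rw [show 14 * v + (j - 1) + 1 = 14 * v + j by omega] at this
      have := top v c hv hc.le
      have := top v j hv (by omega)
      have := top v (j - 1) hv (by omega)
      refine ⟨fun h' => ?_, fun h' => ?_⟩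
      · have := mono (14 * v + c) (14 * v + (j - 1)) (by omega) (by omega)
        omega
      · have := mono (14 * v + j) (14 * v + c) (by omega) (by omega)
        omega
    have e : b ≠ j → d (14 * v + b) = 0 := fun h' => by
      rcases b with _ | b
      · exact beg v hv.le
      · have := step (14 * v + b) (by omega)
        have := val b (by omega)
        have := val (b + 1) hb
        simp only [← Nat.add_assoc] at *
        omega
    have := val b hb
    have := hδ (14 * v + b)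
    by_cases h' : b = j
    · subst h'
      refine ⟨by rw [(dF _).2 h]; simp, ?_⟩
      simp only [SoundG_r, lt_irrefl, if_false, if_true]
      omega
    · have := e h'
      refine ⟨by rw [(dT _).2 this]; simp [h'], ?_⟩
      simp only [SoundG_r, if_neg h']
      split_ifs <;> omega
  refine ⟨fun v => D (14 * v + 2), fun τ hτ => ?_⟩
  by_cases hτ' : τ < 14 * y.n
  · obtain ⟨v, b, hb, rfl⟩ : ∃ v b, b < 14 ∧ τ = 14 * v + b :=
      ⟨τ / 14, τ % 14, Nat.mod_lt _ (by omega), by omega⟩
    have hv : v < y.n := by omega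
    obtain ⟨k1, k2⟩ := blk v b _ hv hb (SoundG_j_le _).1 (SoundG_j_le _).2 (one v hv)
    obtain ⟨k3, k4⟩ := SoundG_tab (D (14 * v + 2)) b hb
    rw [SoundG_gm hv hb, k1, k2, SoundG_sig hy _ hv k3]
    exact k4
  · have e0 := ex y.n le_rfl
    have e1 := beg y.n le_rfl
    have s0 := step (14 * y.n) (by omega)
    have s1 := step (14 * y.n + 1) (by omega)
    simp only [Nat.add_assoc, Nat.reduceAdd] at s1
    have e2 := d01 (14 * y.n + 1)
    have e3 := d01 (14 * y.n + 2)
    have f0 := hδ (14 * y.n)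
    have f1 := hδ (14 * y.n + 1)
    obtain rfl | rfl | rfl : τ = 14 * y.n ∨ τ = 14 * y.n + 1 ∨ τ = 14 * y.n + 2 := by omega
    · rw [(dT _).2 e1, show F (14 * y.n) = y.e by omega, gm, if_neg hτ', if_neg (by omega), sig,
        if_neg (by omega), if_neg (by omega), if_neg (by omega), decide_eq_true (by omega)]
      rfl
    · rw [(dT (14 * y.n + 1)).2 (by (clear * - e0 e1 e2 e3 f0 f1 hee hp hq hs s0 s1 z1; lia)), show F (14 * y.n + 1) = y.e + 1 by (clear * - e0 e1 e2 e3 f0 f1 hee hp hq hs s0 s1 z1; lia), gm,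
        if_neg hτ', if_pos rfl, sig, if_neg (by omega), if_neg (by omega), if_pos rfl]
      rfl
    · rw [h1.1, h1.2, gm, if_neg hτ', if_neg (by omega), sig,
        if_neg (by omega), if_neg (by omega), if_neg (by omega), decide_eq_true (by omega)]
      rfl

end Pool.Agent.Work.MP_8ff565_lc
end

-- merged part: Pool.Agent.Work.MP_8ff565_lc.SoundR
section
/-!
The long runs of safe letters align the walk with the corridor.

Parities: `Λ, p, L, LB, LF` are even, `q, Q, s, e, S` and `y.t r` are odd. The direction at time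
`i` is forward iff `f i % 2 = i % 2`.

Run lemma. If the letters at the times `t, ..., t + l - 1` all equal `(false, b, b)` and
`f t ≤ L + 1`, there is no U-turn while `f ≤ L + 1`: going forward from `x = f t`,
`f (t + j) = x + j` and `η (x + j) = b` for all `j < l` with `x + j ≤ L + 1`; going backward,
`f (t + j + 1) + j + 1 = x` and `η (x - j - 1) = !b` for all `j < l`.
Always `f i ≤ i`, `2 Λ ≤ f i + i` and `|f (i + j) - f i| ≤ j`.

`start_top`: the times `p + 1, ..., L - 1` carry `(false, false, false)` (`sync`, `EtaOK.run`).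
A forward run from `x ≤ p` would meet a boundary with `η = true` (`p`, `x`, `e + 2`, `x + 1`), a
backward run one with `η = false` (`e + 1`, `s + 2`, `Λ - 1`, or an odd boundary of the staircase);
so `f (p + 1) = p + 1` and `f L = L`. In the lock an advance has the wrong hand, so `f = L` up to
time `L + S`; the run of `Q` letters goes back to `p + 1`; one more letter.

`back_pass`: if `f (t r) = p + 1` the first run goes forward to `p + 1 + q`, after `14 n + 2`
letters the slot `x` has `p + 2 ≤ x ≤ L + 1`, and the run of `q` letters needs `η (x - 1) = true`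
(backward) or `η (L + 1) = false` (forward). So `f (t r) = p`, the run goes back to `e + 2`.
After `14 n + 1` letters comes a run of `q + 1` letters `(false, false, false)` (the first is
`rev (gm n 0)`); forward it would meet `x` or `e + 2`; backward it needs `η = true` on
`x - 1 - q, ..., x - 1`, which excludes `s + 2`, `e + 1`, `Λ - 1`; so `x ∈ {s + 1, s + 2}` and the
parity gives `x = s + 1`.

`fwd_pass`: at `(Λ, backward)` the letter `(true, false, false)` cannot advance since
`η (Λ - 1) = false`. The run goes to `s`. After `16 n + 18` letters the run of `q` letters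
`(false, true, true)`: backward it would meet `x - 1` or `s + 1`; forward it must avoid `s + 2`,
`e + 1`, `p + 1`, so `x ∈ {e + 2, e + 3}` and the parity gives `e + 2`.
-/

namespace Pool.Agent.Work.MP_8ff565_lc

variable {y : Lay} {cl : ℕ → List (ℕ × Bool)} {w : ℕ → Letter} {f : ℕ → ℕ}

section Walk

variable {N Λ L : ℕ} (T : Trace N Λ L w f)
include T

theorem SoundR_lip {i : ℕ} (hi : Λ ≤ i) (j : ℕ) (h : i + j < N) :
    f (i + j) ≤ f i + j ∧ f i ≤ f (i + j) + j := by
  induction j with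
  | zero => simp
  | succ j ih =>
    have h1 := ih (by omega)
    have h2 := T.step (i + j) (by omega) h
    rw [← add_assoc]
    omega

theorem SoundR_lip' {i k : ℕ} (hi : Λ ≤ i) (hk : i ≤ k) (h : k < N) :
    f k + i ≤ f i + k ∧ f i + i ≤ f k + k := by
  obtain ⟨j, rfl⟩ := Nat.exists_eq_add_of_le hk
  have := SoundR_lip T hi j h
  omega

theorem SoundR_fwd {t l : ℕ} {b : Bool} (ht : Λ ≤ t) (hl : t + l < N)
    (hw : ∀ j, j < l → w (t + j) = (false, b, b)) (hd : f t % 2 = t % 2) :
    (∀ j, j ≤ l → f t + j ≤ L + 2 → f (t + j) = f t + j) ∧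
      ∀ k, f t ≤ k → k < f t + l → k ≤ L + 1 → eta (w k) = b := by
  have key : ∀ j, j < l → f t + j ≤ L + 1 → f (t + j) = f t + j →
      f (t + (j + 1)) = f t + (j + 1) ∧ eta (w (f t + j)) = b := fun j h1 h2 h3 => by
    have h4 := T.safe (t + j) (by omega) (by omega) (by omega) (by rw [hw j h1]) (by rw [hw j h1])
    rcases T.step (t + j) (by omega) (by omega) with h | h | h
    · exact absurd h h4
    · rw [hw j h1, h3] at h
      exact ⟨h.1, h.2.2.symm⟩
    · (clear * - h h3 hd; omega)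
  have h1 : ∀ j, j ≤ l → f t + j ≤ L + 2 → f (t + j) = f t + j := fun j => by
    induction j with
    | zero => exact fun _ _ => rfl
    | succ j ih => exact fun h1 h2 => (key j h1 (by omega) (ih (by omega) (by omega))).1
  refine ⟨h1, fun k h2 h3 h4 => ?_⟩
  obtain ⟨j, rfl⟩ := Nat.exists_eq_add_of_le h2
  exact (key j (by omega) h4 (h1 j (by omega) (by omega))).2

theorem SoundR_bwd {t l : ℕ} {b : Bool} (ht : Λ ≤ t) (hl : t + l < N)
    (hw : ∀ j, j < l → w (t + j) = (false, b, b)) (hd : f t % 2 ≠ t % 2) (hx : f t ≤ L + 1) :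
    (∀ j, j ≤ l → f (t + j) + j = f t) ∧ ∀ k, k < f t → f t ≤ k + l → eta (w k) = !b := by
  have key : ∀ j, j < l → f (t + j) + j = f t →
      f (t + (j + 1)) + (j + 1) = f t ∧ eta (w (f (t + (j + 1)))) = !b := fun j h1 h3 => by
    have h4 := T.safe (t + j) (by omega) (by omega) (by omega) (by rw [hw j h1]) (by rw [hw j h1])
    rcases T.step (t + j) (by omega) (by omega) with h | h | h
    · exact absurd h h4
    · (clear * - h h3 h4 hd; lia)
    · rw [hw j h1, add_assoc] at h
      exact ⟨by omega, by rw [show b = _ from h.2.2, Bool.not_not]⟩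
  have h1 : ∀ j, j ≤ l → f (t + j) + j = f t := fun j => by
    induction j with
    | zero => exact fun _ => rfl
    | succ j ih => exact fun h1 => (key j h1 (ih (by omega))).1
  refine ⟨h1, fun k h2 h3 => ?_⟩
  obtain ⟨j, hj⟩ := Nat.exists_eq_add_of_lt h2
  obtain ⟨h4, h5⟩ := key j (by omega) (h1 j (by omega))
  rwa [show f (t + (j + 1)) = k by omega] at h5

end Walk

theorem SoundR_true {η : ℕ → Bool} (E : EtaOK y η) (hn : 1 ≤ y.n) {k : ℕ} (h : η k = false) :
    ¬((1 ≤ k ∧ k < y.Λ ∧ k % 2 = 0) ∨ (y.Λ ≤ k ∧ k ≤ y.s) ∨ (y.e + 2 ≤ k ∧ k ≤ y.p) ∨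
      k = y.L + 1) := by
  rintro (⟨h1, h2, h3⟩ | ⟨h1, h2⟩ | ⟨h1, h2⟩ | rfl)
  · simp [E.pre k h1 h2, h3] at h
  · rcases h2.eq_or_lt with rfl | h2
    · exact Bool.noConfusion (h.symm.trans (E.mid 0 0 hn (by norm_num)))
    · simp [E.left k h1 h2] at h
  · simp [E.right k h1 h2] at h
  · simp [E.out] at h

theorem SoundR_false {η : ℕ → Bool} (E : EtaOK y η) (hn : 1 ≤ y.n) {k : ℕ} (h : η k = true) :
    ¬((1 ≤ k ∧ k < y.Λ ∧ k % 2 = 1) ∨ k = y.s + 2 ∨ k = y.e + 1 ∨ (y.p < k ∧ k ≤ y.L)) := by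
  rintro (⟨h1, h2, h3⟩ | rfl | rfl | ⟨h1, h2⟩)
  · simp [E.pre k h1 h2, h3] at h
  · exact Bool.noConfusion (h.symm.trans (E.mid 0 2 hn (by norm_num)))
  · simp [E.e1] at h
  · simp [E.run k h1 h2] at h

theorem start_top (hy : y.OK) (hs : Shape y cl w) (T : Trace y.N y.Λ y.L w f) :
    f (y.t 0) = y.p ∨ f (y.t 0) = y.p + 1 := by
  have h0 := y.t_mono (Nat.zero_le y.m)
  rw [y.t_zero] at h0 ⊢
  obtain ⟨h1, h2, h3, h4, h5, h6, h7, h8, h9, h10, h11, h12, h13, h14, h15⟩ := hy
  have F := @SoundR_false y _ hs.et h1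
  have G := @SoundR_true y _ hs.et h1
  have hw : ∀ j, j < y.Q → w (y.p + 1 + j) = (false, false, false) := fun j hj => by
    obtain ⟨a, b⟩ := hs.sync (y.p + 1 + j) (by omega) (by omega)
    have c := hs.et.run (y.p + 1 + j) (by omega) (by omega)
    simp only [eta, a, Bool.false_xor] at c
    exact Prod.ext a (Prod.ext c b)
  have hx := SoundR_lip' T le_rfl (k := y.p + 1) (by omega) (by omega)
  rw [T.start] at hx
  have a1 : f y.L = y.L := by
    by_cases hd : f (y.p + 1) % 2 = (y.p + 1) % 2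
    · obtain ⟨a, b⟩ := SoundR_fwd T (by omega) (by (clear * - h0 h10 h11 h14 h2 h3 h4 h5 h6 h7 h8 h9 hd hx; lia)) hw hd
      have c1 := G (b (f (y.p + 1)) le_rfl (by omega) (by omega))
      have c2 := fun u v => G (b (y.e + 2) u v (by omega))
      have c3 := G (b (f (y.p + 1) + 1) (by omega) (by omega) (by omega))
      have c4 := a y.Q le_rfl (by omega)
      rw [show y.p + 1 + y.Q = y.L by omega] at c4
      (clear * - c2 c3 c4 h2 h3 h4 h5 h6 h7 h8 hd hx; lia)
    · obtain ⟨-, b⟩ := SoundR_bwd T (by omega) (by omega) hw hd (by omega)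
      have c1 := F (b (f (y.p + 1) - 1) (by omega) (by (clear * - h0 h10 h11 h14 h15 h2 h3 h4 h5 h6 h7 h8 h9 hx; lia)))
      have c2 := fun u v => F (b (y.e + 1) u v)
      have c3 := fun u v => F (b (y.s + 2) u v)
      have c4 := fun u v => F (b (y.Λ - 1) u v)
      (clear * - c1 c2 c3 c4 h0 h1 h10 h11 h14 h15 h2 h3 h4 h5 h6 h7 h8 h9 hd hx; lia)
  have a2 : ∀ j, j ≤ y.S → f (y.L + j) = y.L := fun j => by
    induction j with
    | zero => exact fun _ => a1
    | succ j ih =>
      intro hj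
      have b := ih (by omega)
      have c := T.step (y.L + j) (by omega) (by omega)
      rw [hs.lock _ (by omega) (by omega), b] at c
      rcases c with c | c | c
      · exact c
      · have := F (c.2.2.symm.trans (decide_eq_true (by (clear * - c h2 h3 h4 h5 h6 h7 h8; omega))))
        omega
      · have := F ((Bool.not_eq_false' _).mp (c.2.2.symm.trans (decide_eq_false (by omega))))
        omega
  have a3 := a2 _ le_rfl
  have a4 := (SoundR_bwd T (t := y.L + y.S) (l := y.Q) (by omega) (by omega)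
    (fun j hj => hs.runQ _ (by omega) (by omega)) (by omega) (by omega)).1 _ le_rfl
  have a5 := T.step (y.L + y.S + y.Q) (by omega) (by omega)
  rw [h10]
  (clear * - a3 a4 a5 h2 h3 h4 h5 h6 h7 h8 h9; lia)

theorem back_pass (hy : y.OK) (hs : Shape y cl w) (T : Trace y.N y.Λ y.L w f) {r : ℕ}
    (hr : r ≤ y.m) (h : f (y.t r) = y.p ∨ f (y.t r) = y.p + 1) :
    (∀ j, j ≤ y.q → f (y.t r + j) + j = y.p ∧ f (y.t r + y.q + 14 * y.n + 2 + j) + j = y.s) ∧
    ∀ i, y.t r + y.q ≤ i → i ≤ y.t r + y.q + 14 * y.n + 2 → y.Λ < f i ∧ f i < y.p := by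
  have h0 := y.t_mono (Nat.zero_le r)
  have h0' := y.t_mono hr
  have ho := hy.t_odd r
  rw [y.t_zero] at h0
  obtain ⟨h1, h2, h3, h4, h5, h6, h7, h8, h9, h10, h11, h12, h13, h14, h15⟩ := hy
  have F := @SoundR_false y _ hs.et h1
  have G := @SoundR_true y _ hs.et h1
  have hw1 := fun j => hs.b1 r j hr
  have hw3 := fun j => hs.b3 r j hr
  have hw2 : ∀ j, j < y.q + 1 → w (y.t r + y.q + 14 * y.n + 1 + j) = (false, false, false) := by
    rintro (_ | j) hj
    · refine (hs.b2 r 0 hr (by omega)).trans ?_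
      rw [gm, if_pos (by omega)]
      rfl
    · rw [← hw3 j (by omega)]
      congr 1
      omega
  generalize y.t r = t at *
  have lip := fun i => SoundR_lip' T (i := t + y.q) (k := i) (by omega)
  rcases h with h | h
  · have a1 := (SoundR_bwd T (by omega) (by omega) hw1 (by omega) (by omega)).1
    have a2 := a1 _ le_rfl
    have a3 := lip (t + y.q + 14 * y.n + 1) (by omega) (by omega)
    refine ⟨?_, fun i u v => by have := lip i u (by omega); omega⟩
    by_cases hd : f (t + y.q + 14 * y.n + 1) % 2 = (t + y.q + 14 * y.n + 1) % 2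
    · obtain ⟨-, b⟩ := SoundR_fwd T (by (clear * - a2 a3 h h0 h10 h2 h3 h4 h5 h6 h7 h8 h9 hd ho; lia)) (by omega) hw2 hd
      have c1 := G (b _ le_rfl (by (clear * - a2 a3 h h2 h4 h5 h6 h7 hd ho; omega)) (by omega))
      have c2 := fun u v => G (b (y.e + 2) u v (by (clear * - a2 a3 h h2 h3 h4 h5 h6 h7 h8 hd ho; omega)))
      (clear * - a2 a3 c1 c2 h h2 h3 h4 h5 h6 h7 h8 hd ho; lia)
    · obtain ⟨a, b⟩ := SoundR_bwd T (by omega) (by omega) hw2 hd (by omega)
      have c2 := fun u v => F (b (y.e + 1) u v)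
      have c3 := fun u v => F (b (y.s + 2) u v)
      have c4 := fun u v => F (b (y.Λ - 1) u v)
      intro j hj
      have c5 := a (j + 1) (by omega)
      have c6 := a1 j hj
      rw [show t + y.q + 14 * y.n + 1 + (j + 1) = t + y.q + 14 * y.n + 2 + j by omega] at c5
      (clear * - a2 a3 c2 c3 c4 c5 c6 h h1 h11 h14 h15 h2 h3 h4 h5 h6 h7 h8 hd ho; lia)
  · have a2 := (SoundR_fwd T (by omega) (by omega) hw1 (by omega)).1 _ le_rfl (by omega)
    have a3 := lip (t + y.q + 14 * y.n + 2) (by omega) (by omega)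
    exfalso
    by_cases hd : f (t + y.q + 14 * y.n + 2) % 2 = (t + y.q + 14 * y.n + 2) % 2
    · have := G ((SoundR_fwd T (by (clear * - a2 a3 h h0 h10 h2 h3 h4 h5 h6 h7 h8 h9 hd ho; lia)) (by omega) hw3 hd).2 (y.L + 1) (by (clear * - a2 a3 h h2 h3 h4 h5 h6 h7 h8 hd ho; lia)) (by (clear * - a2 a3 h h2 h3 h4 h5 h6 h7 h8 hd ho; lia))
        le_rfl)
      omega
    · have := F ((SoundR_bwd T (by omega) (by omega) hw3 hd (by omega)).2
        (f (t + y.q + 14 * y.n + 2) - 1) (by omega) (by (clear * - a2 a3 h h2 h4 h5 h6 h7; omega)))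
      omega

theorem fwd_pass (hy : y.OK) (hs : Shape y cl w) (T : Trace y.N y.Λ y.L w f) {r : ℕ}
    (hr : r < y.m) (h : f (y.t r + y.LB) = y.Λ) :
    (∀ j, j ≤ y.q → f (y.t r + y.LB + 1 + j) = y.Λ + j ∧
      f (y.t r + y.LB + 1 + y.q + 16 * y.n + 18 + j) = y.e + 2 + j) ∧
    (∀ i, y.t r + y.LB + 1 + y.q ≤ i → i ≤ y.t r + y.LB + 1 + y.q + 16 * y.n + 18 →
      y.Λ < f i ∧ f i < y.p) ∧
    (f (y.t (r + 1)) = y.p ∨ f (y.t (r + 1)) = y.p + 1) := by
  have h0 := y.t_mono (Nat.zero_le r)
  have h0' := y.t_mono (show r + 1 ≤ y.m from hr)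
  have ho := hy.t_odd r
  rw [y.t_zero] at h0
  rw [y.t_succ] at h0' ⊢
  obtain ⟨h1, h2, h3, h4, h5, h6, h7, h8, h9, h10, h11, h12, h13, h14, h15⟩ := hy
  have F := @SoundR_false y _ hs.et h1
  have G := @SoundR_true y _ hs.et h1
  have hw0 := hs.b4 r hr.le
  have hw1 := fun j => hs.f1 r j hr
  have hw2 := fun j => hs.f4 r j hr
  generalize y.t r = t at *
  have a0 : f (t + y.LB + 1) = y.Λ := by
    have c := T.step (t + y.LB) (by omega) (by omega)
    rw [hw0] at c
    rcases c with c | c | c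
    · omega
    · omega
    · have := F ((Bool.not_eq_false' _).mp c.2.2.symm)
      (clear * - c h h2 h3 h4 h5 h6 h7 h8 this; lia)
  have a1 := (SoundR_fwd T (by omega) (by omega) hw1 (by omega)).1
  have a2 := a1 _ le_rfl (by omega)
  have lip := fun i => SoundR_lip' T (i := t + y.LB + 1 + y.q) (k := i) (by omega)
  have a3 := lip (t + y.LB + 1 + y.q + 16 * y.n + 18) (by omega) (by omega)
  by_cases hd : f (t + y.LB + 1 + y.q + 16 * y.n + 18) % 2 = (t + y.LB + 1 + y.q + 16 * y.n + 18) % 2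
  · obtain ⟨a, b⟩ := SoundR_fwd T (by (clear * - a0 a2 a3 h0 h10 h11 h2 h3 h4 h5 h6 h7 h8 h9 hd ho; lia)) (by (clear * - a0 a2 a3 h0' h11 h12 h13 h14 h2 h4 hd ho; lia)) hw2 hd
    have c2 := fun u v => F (b (y.e + 1) u v (by omega))
    have c3 := fun u v => F (b (y.s + 2) u v (by omega))
    have c4 := fun u v => F (b (y.p + 1) u v (by omega))
    have c5 : f (t + y.LB + 1 + y.q + 16 * y.n + 18) = y.e + 2 := by (clear * - a0 a2 a3 c2 c3 c4 h1 h11 h2 h3 h4 h5 h6 h7 h8 hd ho; lia)
    refine ⟨fun j hj => ?_, fun i u v => by have := lip i u (by (clear * - h0' h11 h12 h13 h14 h2 hd ho u v; omega)); (clear * - a0 a2 c5 h11 h2 h4 h5 h6 h7 hd ho this v; lia), ?_⟩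
    · have c6 := a j hj (by (clear * - c5 h11 h2 h3 h4 h5 h6 h7 h8 hd hj ho; lia))
      have c7 := a1 j hj (by (clear * - a0 c6 h11 h2 h3 h4 h5 h6 h7 h8 hd hj ho; lia))
      (clear * - a0 c5 c6 c7 h11 h2 h4 h5 h6 hd ho; lia)
    · have c6 := a _ le_rfl (by (clear * - a0 a2 a3 c5 h11 h2 h3 h4 h5 h6 h7 h8 hd ho; lia))
      have c7 := T.step (t + y.LB + 1 + y.q + 16 * y.n + 18 + y.q) (by (clear * - a0 a2 a3 c5 h0 h10 h11 h2 h3 h4 h5 h6 h7 h8 h9 hd ho; lia)) (by (clear * - a0 a2 a3 c5 h0' h11 h12 h13 h14 h2 h4 h5 h6 hd ho; lia))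
      rw [show t + y.R = t + y.LB + 1 + y.q + 16 * y.n + 18 + y.q + 1 by omega]
      (clear * - c5 c6 c7 h11 h2 h4 h5 h6 h7 hd ho; lia)
  · obtain ⟨-, b⟩ := SoundR_bwd T (by (clear * - h0 h10 h11 h2 h3 h4 h5 h6 h7 h8 h9 ho; lia)) (by (clear * - h0' h11 h12 h13 h14 h2 ho; omega)) hw2 hd (by omega)
    have c1 := G (b (f (t + y.LB + 1 + y.q + 16 * y.n + 18) - 1) (by (clear * - a0 a2 a3 h0' h11 h12 h13 h14 h15 h2 h4 h5 h6 ho; omega)) (by (clear * - a0 a2 a3 h0' h11 h12 h13 h14 h15 h2 h4 h5 h6 ho; omega)))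
    have c2 := fun u v => G (b y.s u v)
    omega

end Pool.Agent.Work.MP_8ff565_lc
end
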