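import Pool.Agent.Work.MP_8ff565_lc.NPmem
import Pool.Agent.Work.MP_8ff565_lc.SoundR

-- merged part: Pool.Agent.Work.MP_8ff565_lc.SoundC
section
/-!
A clause pass whose signs are those of the assignment `a` meets a true literal.

Plan. Suppose no `v < n` has `(v, a v) ∈ c`. Then `blk c v` is `wN`, or `wT` with `a v = false`,
or `wF` with `a v = true`. Finite check (compute the set of reachable pairs (slot - (s + 12 v),
direction) letter by letter, keeping those whose sign is right; no reachable state tries to leave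
the slots `0, ..., 12` of the section): from `(0, true)` such a block ends in `(12, true)` or
`(11, false)`; from `(11, false)` the first four letters of any block (common to all blocks)
leave no state. So by induction the state at time `16 v` is
`(s + 12 v, true)`; at `v = n` the first letter leads to `(e + 1, true)` with `psi = true`, but
`sig y a (e + 1) = false`.
-/

namespace Pool.Agent.Work.MP_8ff565_lc

/-- The successors of a local state of a section; `(13, true)` is an absorbing error state. -/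
def soundCNext (σ : List Bool) (l : Letter) (p : ℕ × Bool) : List (ℕ × Bool) :=
  if 12 < p.1 then [(13, true)] else
  if (l.2.2 == p.2) = σ.getD p.1 false then
    (if l.1 = true then [(p.1, !p.2)] else []) ++
    (if p.2 = true then
      (if p.1 = 12 then [(13, true)] else
        if l.2.1 = sec.getD p.1 false then [(p.1 + 1, true)] else [])
     else
      (if p.1 = 0 then [(13, true)] else
        if l.2.1 = !sec.getD (p.1 - 1) false then [(p.1 - 1, false)] else []))
  else []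

/-- The local states reachable after `b` letters of `W`. -/
def soundCReach (σ : List Bool) (W : List Letter) (p : ℕ × Bool) : ℕ → List (ℕ × Bool)
  | 0 => [p]
  | b + 1 => (soundCReach σ W p b).flatMap (soundCNext σ (W.getD b dl))

theorem soundC_sig {y : Lay} (hy : y.OK) (a : ℕ → Bool) {v k : ℕ} (hv : v < y.n) (hk : k ≤ 12) :
    sig y a (y.s + 12 * v + k) = (sigT (a v)).getD k false := by
  have he := hy.he
  have hp := hy.hp
  rcases Nat.lt_or_ge k 12 with h | h
  · have h1 : (y.s + 12 * v + k - y.s) / 12 = v := by omega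
    have h2 : (y.s + 12 * v + k - y.s) % 12 = k := by omega
    unfold sig
    rw [if_neg (by omega), if_pos (by omega), h1, h2]
  · obtain rfl : k = 12 := by omega
    have h3 : ∀ b : Bool, (sigT b).getD 12 false = true := by decide
    have h4 : ∀ b : Bool, (sigT b).getD 0 false = true := by decide
    rw [h3]
    unfold sig
    rw [if_neg (by omega)]
    split_ifs with h5 h6
    · have h2 : (y.s + 12 * v + 12 - y.s) % 12 = 0 := by omega
      rw [h2, h4]
    · omega
    · exact decide_eq_true (by omega)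

theorem soundC_step {y : Lay} {η : ℕ → Bool} (hy : y.OK) (he : EtaOK y η) (a : ℕ → Bool)
    {v : ℕ} (hv : v < y.n) (l : Letter) {k k' : ℕ} {d d' : Bool} (p : ℕ × Bool)
    (hp : 12 < p.1 ∨ (k = y.s + 12 * v + p.1 ∧ d = p.2)) (hst : St η l k d k' d')
    (hsg : (l.2.2 == d) = sig y a k) :
    ∃ q ∈ soundCNext (sigT (a v)) l p, 12 < q.1 ∨ (k' = y.s + 12 * v + q.1 ∧ d' = q.2) := by
  obtain ⟨j, e⟩ := p
  by_cases hj : 12 < j
  · exact ⟨(13, true), by simp [soundCNext, hj], Or.inl (by norm_num)⟩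
  obtain ⟨rfl, rfl⟩ : k = y.s + 12 * v + j ∧ d = e := hp.resolve_left hj
  rw [soundC_sig hy a hv (by omega)] at hsg
  unfold soundCNext
  rw [if_neg hj, if_pos hsg]
  rcases hst with ⟨h1, h2, h3⟩ | ⟨h1, h2, h3, h4⟩ | ⟨h1, h2, h3, h4⟩
  · exact ⟨(j, !d), List.mem_append_left _ (by simp [h1]), Or.inr ⟨h2, h3⟩⟩
  · by_cases h12 : j = 12
    · exact ⟨(13, true), List.mem_append_right _ (by simp [h1, h12]), Or.inl (by norm_num)⟩
    · rw [he.mid v j hv (by omega)] at h4
      refine ⟨(j + 1, true), List.mem_append_right _ ?_, Or.inr ⟨by simp only; omega, h2⟩⟩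
      simp only [h1, if_true, if_neg h12, if_pos h4, List.mem_singleton]
  · by_cases h0 : j = 0
    · exact ⟨(13, true), List.mem_append_right _ (by simp [h1, h0]), Or.inl (by norm_num)⟩
    · have h5 : k' = y.s + 12 * v + (j - 1) := by omega
      rw [h5, he.mid v (j - 1) hv (by omega)] at h4
      refine ⟨(j - 1, false), List.mem_append_right _ ?_, Or.inr ⟨h5, h2⟩⟩
      simp only [h1, Bool.false_eq_true, if_false, if_neg h0, if_pos h4, List.mem_singleton]

theorem soundC_run {y : Lay} {η : ℕ → Bool} (hy : y.OK) (he : EtaOK y η) (a : ℕ → Bool)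
    {v : ℕ} (hv : v < y.n) (W : List Letter) (F : ℕ → ℕ) (D : ℕ → Bool) (t : ℕ) (p : ℕ × Bool)
    (hst : ∀ b, b < 16 → St η (W.getD b dl) (F (t + b)) (D (t + b)) (F (t + b + 1))
      (D (t + b + 1)))
    (hsg : ∀ b, b < 16 → ((W.getD b dl).2.2 == D (t + b)) = sig y a (F (t + b)))
    (h0 : F t = y.s + 12 * v + p.1 ∧ D t = p.2) (b : ℕ) (hb : b ≤ 16) :
    ∃ q ∈ soundCReach (sigT (a v)) W p b,
      12 < q.1 ∨ (F (t + b) = y.s + 12 * v + q.1 ∧ D (t + b) = q.2) := by
  induction b with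
  | zero => exact ⟨p, by simp [soundCReach], Or.inr h0⟩
  | succ b ih =>
    obtain ⟨q, hq, hq'⟩ := ih (by omega)
    obtain ⟨r, hr, hr'⟩ := soundC_step hy he a hv (W.getD b dl) q hq' (hst b (by omega))
      (hsg b (by omega))
    exact ⟨r, List.mem_flatMap.2 ⟨q, hq, hr⟩, hr'⟩

theorem soundC_dead (c : List (ℕ × Bool)) (v : ℕ) (b : Bool) :
    soundCReach (sigT b) (blk c v) (11, false) 4 = [] := by
  unfold blk
  split_ifs <;> cases b <;> decide

theorem soundC_N (b : Bool) : ∀ q ∈ soundCReach (sigT b) wN (0, true) 16,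
    q = (11, false) ∨ q = (12, true) := by
  cases b <;> decide

theorem soundC_T : ∀ q ∈ soundCReach (sigT false) wT (0, true) 16,
    q = (11, false) ∨ q = (12, true) := by
  decide

theorem soundC_F : ∀ q ∈ soundCReach (sigT true) wF (0, true) 16,
    q = (11, false) ∨ q = (12, true) := by
  decide

theorem soundC_blk (c : List (ℕ × Bool)) (v : ℕ) (b : Bool) (h : (v, b) ∉ c) :
    ∀ q ∈ soundCReach (sigT b) (blk c v) (0, true) 16, q = (11, false) ∨ q = (12, true) := by
  unfold blk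
  split_ifs with h1 h2
  · cases b
    · exact soundC_T
    · exact absurd h1 h
  · cases b
    · exact absurd h2 h
    · exact soundC_F
  · exact soundC_N b

theorem soundC_first (c : List (ℕ × Bool)) (v : ℕ) :
    (blk c v).getD 0 dl = (false, true, true) ∧ (blk c v).getD 1 dl = (true, true, true) := by
  unfold blk
  split_ifs <;> decide

theorem clause_sat {y : Lay} {η : ℕ → Bool} (hy : y.OK) (he : EtaOK y η) (a : ℕ → Bool)
    (c : List (ℕ × Bool)) (F : ℕ → ℕ) (D : ℕ → Bool)
    (hst : ∀ v b, v ≤ y.n → b < 16 → St η ((blk c v).getD b dl) (F (16 * v + b))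
      (D (16 * v + b)) (F (16 * v + b + 1)) (D (16 * v + b + 1)))
    (hsg : ∀ v b, v ≤ y.n → b < 16 →
      (((blk c v).getD b dl).2.2 == D (16 * v + b)) = sig y a (F (16 * v + b)))
    (h0 : F 0 = y.s ∧ D 0 = true) : ∃ v, v < y.n ∧ (v, a v) ∈ c := by
  by_contra hno
  have hno' : ∀ v, v < y.n → (v, a v) ∉ c := fun v hv h => hno ⟨v, hv, h⟩
  have key : ∀ v, v ≤ y.n → F (16 * v) = y.s + 12 * v ∧ D (16 * v) = true := by
    intro v
    induction v with
    | zero => intro _; simpa using h0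
    | succ v ih =>
      intro hv
      have hv' : v < y.n := by omega
      obtain ⟨q, hq, hq'⟩ := soundC_run hy he a hv' (blk c v) F D (16 * v) (0, true)
        (fun b hb => hst v b (by omega) hb) (fun b hb => hsg v b (by omega) hb)
        (ih (by omega)) 16 le_rfl
      have e16 : 16 * (v + 1) = 16 * v + 16 := by ring
      rcases soundC_blk c v (a v) (hno' v hv') q hq with rfl | rfl
      · exfalso
        have h1 : F (16 * (v + 1)) = y.s + 12 * v + 11 ∧ D (16 * (v + 1)) = false := by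
          rw [e16]; exact hq'.resolve_left (by norm_num)
        obtain ⟨r, hr, -⟩ := soundC_run hy he a hv' (blk c (v + 1)) F D (16 * (v + 1))
          (11, false) (fun b hb => hst (v + 1) b hv hb) (fun b hb => hsg (v + 1) b hv hb) h1 4
          (by norm_num)
        rw [soundC_dead] at hr
        exact absurd hr List.not_mem_nil
      · have h1 : F (16 * v + 16) = y.s + 12 * v + 12 ∧ D (16 * v + 16) = true :=
          hq'.resolve_left (by norm_num)
        rw [e16]
        exact ⟨by omega, h1.2⟩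
  obtain ⟨k1, k2⟩ := key y.n le_rfl
  have s0 := hst y.n 0 le_rfl (by norm_num)
  have g1 := hsg y.n 1 le_rfl (by norm_num)
  rw [(soundC_first c y.n).1] at s0
  rw [(soundC_first c y.n).2] at g1
  have hye := hy.he
  simp only [Nat.add_zero] at s0
  rw [k1, k2] at s0
  rcases s0 with ⟨h1, -⟩ | ⟨-, h2, h3, -⟩ | ⟨h1, -⟩
  · exact absurd h1 (by decide)
  · rw [h2, h3] at g1
    unfold sig at g1
    rw [if_neg (by omega), if_neg (by omega), if_pos (by omega)] at g1
    exact absurd g1 (by decide)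
  · exact absurd h1 (by decide)

end Pool.Agent.Work.MP_8ff565_lc
end

-- merged part: Pool.Agent.Work.MP_8ff565_lc.Sound
section
/-!
Soundness: a trace yields a satisfying assignment.

Plan. By induction all passes are aligned. Each backward pass `r ≤ m`, read backwards in time,
gives an assignment `α r` with `sgn i = sig (α r) (f i)` during the pass (`generic_pure`). For
`r < m`, `Trace.mono` applied to (backward pass `r`, forward pass `r`) and to (forward pass `r`,
backward pass `r + 1`) gives `sig (α r) k ≤ sig (α (r+1)) k` on all visited slots, so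
`α r v = α (r+1) v` for `v < n` (slots `s + 12 v + 2` and `s + 12 v + 3`), and the signs of the
forward pass are squeezed; `clause_sat` finishes.
-/

namespace Pool.Agent.Work.MP_8ff565_lc

section
variable {y : Lay} {cl : ℕ → List (ℕ × Bool)} {w : ℕ → Letter} {f : ℕ → ℕ}

theorem sound_st {N Λ L : ℕ} (T : Trace N Λ L w f) {i : ℕ} (hi : Λ ≤ i) (hi' : i + 1 < N)
    (hf : f i ≤ L + 1) (hm : (w i).1 = true ∨ (w i).2.1 = (w i).2.2) :
    St (fun k => eta (w k)) (w i) (f i) (dir f i) (f (i + 1)) (dir f (i + 1)) := by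
  unfold St dir
  rcases T.step i hi hi' with e | ⟨e, e1, e2⟩ | ⟨e, e1, e2⟩
  · refine Or.inl ⟨?_, e, ?_⟩
    · by_contra hc
      exact T.safe i hi hi' hf (by simpa using hc) (hm.resolve_left hc) e
    · rw [e, ← decide_not, decide_eq_decide]
      omega
  · exact Or.inr (Or.inl ⟨decide_eq_true e1, decide_eq_true (by omega), e, e2⟩)
  · exact Or.inr (Or.inr ⟨decide_eq_false e1, decide_eq_false (by omega), e, e2⟩)

theorem sound_rev {η : ℕ → Bool} {l : Letter} {k k' : ℕ} {d d' : Bool}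
    (h : St η (rev l) k d k' d') : St η l k' (!d') k (!d) := by
  unfold St rev at *
  rcases h with ⟨h1, rfl, rfl⟩ | ⟨rfl, rfl, rfl, h⟩ | ⟨rfl, rfl, rfl, h⟩
  · exact Or.inl ⟨h1, rfl, by simp⟩
  · exact Or.inr (Or.inr ⟨rfl, rfl, rfl, by rw [← h]; simp⟩)
  · exact Or.inr (Or.inl ⟨rfl, rfl, rfl, by simpa using h⟩)

theorem sound_gm (n τ : ℕ) (h : τ < 14 * n + 2) :
    (gm n (τ + 1)).2.2 = xor (gm n τ).2.2 (gm n τ).1 := by
  have key : ∀ b, b < 14 → (wG.getD ((b + 1) % 14) dl).2.2 =
      xor (wG.getD b dl).2.2 (wG.getD b dl).1 := by decide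
  unfold gm
  by_cases h1 : τ + 1 < 14 * n
  · rw [if_pos h1, if_pos (by omega), ← key _ (Nat.mod_lt _ (by omega)),
      show (τ % 14 + 1) % 14 = (τ + 1) % 14 by omega]
  · by_cases h2 : τ < 14 * n
    · rw [if_neg h1, if_neg (by omega), if_pos h2, show τ % 14 = 13 by omega]
      rfl
    · rw [if_neg h1, if_neg h2]
      by_cases h3 : τ = 14 * n
      · rw [if_pos (by omega), if_neg (by omega)]; rfl
      · rw [if_neg (by omega), if_pos (by omega)]; rfl

theorem sound_ivt {N Λ L : ℕ} (T : Trace N Λ L w f) {u k : ℕ} (hu : Λ ≤ u) (hk : k ≤ f u) :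
    ∀ v, u ≤ v → v < N → f v ≤ k → ∃ i, u ≤ i ∧ i ≤ v ∧ f i = k := by
  intro v hv
  induction v, hv using Nat.le_induction with
  | base => exact fun _ h => ⟨u, le_rfl, le_rfl, by omega⟩
  | succ v hv ih =>
    intro hN h
    by_cases h1 : f v ≤ k
    · obtain ⟨i, h2, h3, h4⟩ := ih (by omega) h1
      exact ⟨i, h2, by omega, h4⟩
    · have := T.step v (by omega) hN
      exact ⟨v + 1, by omega, le_rfl, by omega⟩

theorem sound_sig2 (hy : y.OK) (a : ℕ → Bool) {v : ℕ} (hv : v < y.n) :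
    sig y a (y.s + 12 * v + 2) = !a v ∧ sig y a (y.s + 12 * v + 3) = a v := by
  have := hy.he
  unfold sig
  rw [if_neg (by omega), if_pos (by omega), if_neg (by omega), if_pos (by omega),
    show (y.s + 12 * v + 2 - y.s) / 12 = v by omega,
    show (y.s + 12 * v + 2 - y.s) % 12 = 2 by omega,
    show (y.s + 12 * v + 3 - y.s) / 12 = v by omega,
    show (y.s + 12 * v + 3 - y.s) % 12 = 3 by omega]
  cases a v <;> exact ⟨rfl, rfl⟩

theorem sound_congr (hy : y.OK) {a b : ℕ → Bool} (h : ∀ v, v < y.n → a v = b v) (k : ℕ) :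
    sig y a k = sig y b k := by
  have := hy.he
  unfold sig
  split_ifs with h1 h2
  · rfl
  · rw [h _ (by omega)]
  · rfl
  · rfl

theorem sound_back (hy : y.OK) (hs : Shape y cl w) (T : Trace y.N y.Λ y.L w f) {r : ℕ}
    (hr : r ≤ y.m) (h : f (y.t r) = y.p ∨ f (y.t r) = y.p + 1) :
    f (y.t r) = y.p ∧ f (y.t r + y.LB) = y.Λ ∧
    (∀ i, y.t r ≤ i → i ≤ y.t r + y.LB → f i ≤ y.p ∧ (f i = y.p → i = y.t r) ∧
      (f i = y.Λ → i = y.t r + y.LB)) ∧
    (∀ k, y.s ≤ k → k ≤ y.e → ∃ i, y.t r ≤ i ∧ i ≤ y.t r + y.LB ∧ f i = k) ∧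
    ∃ a : ℕ → Bool, ∀ i, y.t r ≤ i → i ≤ y.t r + y.LB → sgn w f i = sig y a (f i) := by
  obtain ⟨b1, b2⟩ := back_pass hy hs T hr h
  have t1 := y.t_mono hr
  have t2 := y.t_mono (Nat.zero_le r)
  have t3 := hy.t_odd r
  rw [Lay.t_zero] at t2
  have hy' := hy
  obtain ⟨h1, h2, h3, h4, h5, h6, h7, h8, h9, h10, h11, h12, h13, h14, h15⟩ := hy'
  have e0 := (b1 0 (by omega)).1
  have e1 := (b1 y.q le_rfl).1
  have e2 := (b1 0 (by omega)).2
  have e3 := (b1 y.q le_rfl).2
  rw [show y.t r + y.q + 14 * y.n + 2 + y.q = y.t r + y.LB by omega] at e3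
  simp only [Nat.add_zero] at e0 e2
  have reg : ∀ i, y.t r ≤ i → i ≤ y.t r + y.LB →
      (i < y.t r + y.q ∧ f i + i = y.p + y.t r) ∨
      (y.t r + y.q ≤ i ∧ i ≤ y.t r + y.q + 14 * y.n + 2 ∧ y.Λ < f i ∧ f i < y.p) ∨
      (y.t r + y.q + 14 * y.n + 2 < i ∧ f i + i = y.s + (y.t r + y.q + 14 * y.n + 2)) := by
    intro i hi hi'
    by_cases c1 : i < y.t r + y.q
    · have := (b1 (i - y.t r) (by omega)).1
      rw [show y.t r + (i - y.t r) = i by omega] at this
      (clear * - c1 h1 h11 h2 h4 h5 h6 h7 hi hi' t3 this; lia)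
    · by_cases c2 : i ≤ y.t r + y.q + 14 * y.n + 2
      · have := b2 i (by omega) c2
        omega
      · have := (b1 (i - (y.t r + y.q + 14 * y.n + 2)) (by omega)).2
        rw [show y.t r + y.q + 14 * y.n + 2 + (i - (y.t r + y.q + 14 * y.n + 2)) = i by omega]
          at this
        (clear * - c1 c2 h1 h11 h2 h4 h5 h6 h7 hi hi' t3 this; lia)
  refine ⟨e0, by omega, fun i hi hi' => ?_, fun k hk hk' => ?_, ?_⟩
  · have := reg i hi hi'
    (clear * - h11 h2 h4 h5 h6 h7 hi hi' t3 this; omega)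
  · exact sound_ivt T (by omega) (by omega) _ (by omega) (by omega) (by omega)
  obtain ⟨a, ha⟩ := generic_pure hy hs.et (fun τ => f (y.t r + y.q + 14 * y.n + 2 - τ))
    (fun τ => !dir f (y.t r + y.q + 14 * y.n + 2 - τ))
    (fun τ hτ => by
      have b := b2 (y.t r + y.q + (14 * y.n + 1 - τ)) (by omega) (by omega)
      have := sound_st T (i := y.t r + y.q + (14 * y.n + 1 - τ)) (by omega) (by omega) (by omega)
        (hs.ms _ (by omega))
      rw [hs.b2 r τ hr hτ] at this
      rw [show y.t r + y.q + 14 * y.n + 2 - τ = y.t r + y.q + (14 * y.n + 1 - τ) + 1 by omega,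
        show y.t r + y.q + 14 * y.n + 2 - (τ + 1) = y.t r + y.q + (14 * y.n + 1 - τ) by omega]
      exact sound_rev this)
    ⟨e2, by simp only [dir, Nat.sub_zero, e2, Bool.not_eq_true', decide_eq_false_iff_not]; omega⟩
    (by
      rw [show y.t r + y.q + 14 * y.n + 2 - (14 * y.n + 2) = y.t r + y.q by omega]
      simp only [dir, Bool.not_eq_true', decide_eq_false_iff_not]
      omega)
  refine ⟨a, fun i hi hi' => ?_⟩
  rcases reg i hi hi' with ⟨c1, c2⟩ | ⟨c1, c2, -⟩ | ⟨c1, c2⟩
  · have e := hs.b1 r (i - y.t r) hr (by omega)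
    rw [show y.t r + (i - y.t r) = i by omega] at e
    unfold sgn dir sig
    rw [e, if_neg (by omega), if_neg (by omega), if_neg (by omega),
      decide_eq_false (by omega), decide_eq_true (by omega)]
    rfl
  · have e := ha (y.t r + y.q + 14 * y.n + 2 - i) (by omega)
    rw [show y.t r + y.q + 14 * y.n + 2 - (y.t r + y.q + 14 * y.n + 2 - i) = i by omega] at e
    rw [← e]
    have : (w i).2.2 = !(gm y.n (y.t r + y.q + 14 * y.n + 2 - i)).2.2 := by
      rcases Nat.lt_or_eq_of_le c2 with c3 | rfl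
      · have e1 := hs.b2 r (y.t r + y.q + 14 * y.n + 1 - i) hr (by omega)
        rw [show y.t r + y.q + (14 * y.n + 1 - (y.t r + y.q + 14 * y.n + 1 - i)) = i by omega]
          at e1
        rw [e1, show y.t r + y.q + 14 * y.n + 2 - i = y.t r + y.q + 14 * y.n + 1 - i + 1 by omega,
          sound_gm _ _ (by omega)]
        rfl
      · have e1 := hs.b3 r 0 hr (by omega)
        rw [Nat.add_zero] at e1
        rw [e1, Nat.sub_self]
        unfold gm
        rw [if_pos (by omega)]
        rfl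
    unfold sgn
    rw [this]
    cases (gm y.n (y.t r + y.q + 14 * y.n + 2 - i)).2.2 <;> cases dir f i <;> rfl
  · have e : (w i).2.2 = false := by
      rcases Nat.lt_or_eq_of_le hi' with c3 | rfl
      · have e := hs.b3 r (i - (y.t r + y.q + 14 * y.n + 2)) hr (by omega)
        rw [show y.t r + y.q + 14 * y.n + 2 + (i - (y.t r + y.q + 14 * y.n + 2)) = i by omega] at e
        rw [e]
      · rw [hs.b4 r hr]
    unfold sgn dir sig
    rw [e, if_pos (by omega), decide_eq_false (by omega)]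
    rfl

theorem sound_fwd (hy : y.OK) (hs : Shape y cl w) (T : Trace y.N y.Λ y.L w f) {r : ℕ}
    (hr : r < y.m) (h : f (y.t r + y.LB) = y.Λ) :
    f (y.t r + y.LB + 1) = y.Λ ∧ f (y.t r + y.LB + 1 + y.q) = y.s ∧
    f (y.t r + y.LB + 1 + y.LF) = y.p ∧
    ∀ i, y.t r + y.LB + 1 ≤ i → i ≤ y.t r + y.LB + 1 + y.LF → f i ≤ y.p ∧
      (f i = y.p → i = y.t r + y.LB + 1 + y.LF) ∧ (f i = y.Λ → i = y.t r + y.LB + 1) := by
  obtain ⟨b1, b2, -⟩ := fwd_pass hy hs T hr h
  obtain ⟨h1, h2, h3, h4, h5, h6, h7, h8, h9, h10, h11, h12, h13, h14, h15⟩ := hy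
  have e0 := (b1 0 (by omega)).1
  have e1 := (b1 y.q le_rfl).1
  have e3 := (b1 y.q le_rfl).2
  rw [show y.t r + y.LB + 1 + y.q + 16 * y.n + 18 + y.q = y.t r + y.LB + 1 + y.LF by omega] at e3
  refine ⟨e0, by omega, by omega, fun i hi hi' => ?_⟩
  by_cases c1 : i < y.t r + y.LB + 1 + y.q
  · have := (b1 (i - (y.t r + y.LB + 1)) (by omega)).1
    rw [show y.t r + y.LB + 1 + (i - (y.t r + y.LB + 1)) = i by omega] at this
    omega
  · by_cases c2 : i ≤ y.t r + y.LB + 1 + y.q + 16 * y.n + 18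
    · have := b2 i (by omega) c2
      omega
    · have := (b1 (i - (y.t r + y.LB + 1 + y.q + 16 * y.n + 18)) (by omega)).2
      rw [show y.t r + y.LB + 1 + y.q + 16 * y.n + 18 +
        (i - (y.t r + y.LB + 1 + y.q + 16 * y.n + 18)) = i by omega] at this
      omega

theorem sound_top (hy : y.OK) (hs : Shape y cl w) (T : Trace y.N y.Λ y.L w f) (r : ℕ)
    (hr : r ≤ y.m) : f (y.t r) = y.p ∨ f (y.t r) = y.p + 1 := by
  induction r with
  | zero => exact start_top hy hs T
  | succ r ih =>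
    exact (fwd_pass hy hs T hr (sound_back hy hs T (by omega) (ih (by omega))).2.1).2.2

theorem sound_round (hy : y.OK) (hs : Shape y cl w) (T : Trace y.N y.Λ y.L w f) {r : ℕ}
    (hr : r < y.m) {a a' : ℕ → Bool}
    (ha : ∀ i, y.t r ≤ i → i ≤ y.t r + y.LB → sgn w f i = sig y a (f i))
    (ha' : ∀ i, y.t (r + 1) ≤ i → i ≤ y.t (r + 1) + y.LB → sgn w f i = sig y a' (f i)) :
    (∀ v, v < y.n → a v = a' v) ∧ ∃ v, v < y.n ∧ (v, a v) ∈ cl r := by
  obtain ⟨p1, p2, p3, -, -⟩ := sound_back hy hs T hr.le (sound_top hy hs T r hr.le)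
  obtain ⟨q1, q2, q3, q4, -⟩ := sound_back hy hs T (r := r + 1) hr (sound_top hy hs T _ hr)
  obtain ⟨f1, f2, f3, f4⟩ := sound_fwd hy hs T hr p2
  have t1 := y.t_mono (show r + 1 ≤ y.m from hr)
  have t2 := y.t_mono (Nat.zero_le r)
  have t3 := hy.t_odd r
  have t4 := y.t_succ r
  rw [Lay.t_zero] at t2
  have hy' := hy
  obtain ⟨h1, h2, h3, h4, h5, h6, h7, h8, h9, h10, h11, h12, h13, h14, h15⟩ := hy'
  have t5 : y.t r + y.LB + 1 + y.LF + 1 = y.t (r + 1) := by omega
  obtain ⟨m1, -⟩ := T.mono (y.t r) (y.t r + y.LB) (y.t r + y.LB + 1 + y.LF) (by omega) (by omega)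
    (by omega) (by (clear * - f1 f3 h11 h12 h13 h14 h2 h3 h4 h5 h6 h7 h8 h9 q1 q2 t1 t3 t4; omega))
    (fun i hi hi' => by
      have := p3 i hi
      have := f4 i
      omega)
    (by omega) (by rw [hs.b4 r hr.le]; exact (decide_eq_false (by omega)).symm)
    (fun i hi hi' e => by
      have := p3 i hi
      have := f4 i
      lia)
    (by omega)
    (fun i hi hi' e => by
      have := p3 i hi
      have := f4 i
      lia)
    (by omega)
  obtain ⟨m2, m3⟩ := T.mono (y.t r + y.LB + 1) (y.t r + y.LB + 1 + y.LF) (y.t (r + 1) + y.LB)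
    (by (clear * - f1 f3 h10 h11 h2 h3 h4 h5 h6 h7 h8 h9 q1 q2 t2 t3; omega)) (by omega) (by omega) (by omega)
    (fun i hi hi' => by
      have := q3 i
      have := f4 i hi
      lia)
    (by rw [t5]; omega) (by rw [hs.f5 r hr]; exact (decide_eq_true (by (clear * - f1 f3 h11 h12 h2 h4 h5 h6 h7 q1 q2 t3; lia))).symm)
    (fun i hi hi' e => by
      have := q3 i
      have := f4 i hi
      lia)
    (by omega)
    (fun i hi hi' e => by
      have := q3 i
      have := f4 i hi
      lia)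
    (by omega)
  have lo : ∀ j, y.t r + y.LB + 1 ≤ j → j ≤ y.t r + y.LB + 1 + y.LF →
      sig y a (f j) = true → sgn w f j = true := fun j hj hj' e => by
    obtain ⟨i, i1, i2, i3, i4⟩ := m1 j hj hj'
    exact i4 (by rw [ha i i1 i2, i3, e])
  have up : ∀ j, y.t r + y.LB + 1 ≤ j → j ≤ y.t r + y.LB + 1 + y.LF →
      sgn w f j = true → sig y a' (f j) = true := fun j hj hj' e => by
    obtain ⟨i, i1, i2, i3, i4⟩ := m3 j hj hj'
    rw [← i3, ← ha' i (by omega) i2]
    exact i4 e
  have mon : ∀ k, y.s ≤ k → k ≤ y.e → sig y a k = true → sig y a' k = true := by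
    intro k hk hk' e
    obtain ⟨i, i1, i2, rfl⟩ := q4 k hk hk'
    obtain ⟨j, j1, j2, j3, -⟩ := m2 i (by omega) i2
    rw [← j3] at e ⊢
    exact up j j1 j2 (lo j j1 j2 e)
  have eq : ∀ v, v < y.n → a v = a' v := fun v hv => by
    have e1 := mon (y.s + 12 * v + 2) (by omega) (by omega)
    have e2 := mon (y.s + 12 * v + 3) (by omega) (by omega)
    rw [(sound_sig2 hy a hv).1, (sound_sig2 hy a' hv).1] at e1
    rw [(sound_sig2 hy a hv).2, (sound_sig2 hy a' hv).2] at e2
    revert e1 e2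
    cases a v <;> cases a' v <;> simp
  refine ⟨eq, clause_sat hy hs.et a (cl r) (fun τ => f (y.t r + y.LB + 1 + y.q + τ))
    (fun τ => dir f (y.t r + y.LB + 1 + y.q + τ)) (fun v b hv hb => ?_) (fun v b hv hb => ?_)
    ⟨f2, decide_eq_true (by rw [Nat.add_zero]; (clear * - f1 f2 h11 h2 h4 h5 q2 t3; omega))⟩⟩
  · have b1 := f4 (y.t r + y.LB + 1 + y.q + (16 * v + b)) (by (clear * - f1 f3 h2 h3 h4 h5 h6 h7 h8 h9 hb q1 q2; lia)) (by (clear * - f1 f3 h12 h2 h3 h4 h5 h6 h7 h8 h9 hb hv q1 q2; omega))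
    have := sound_st T (i := y.t r + y.LB + 1 + y.q + (16 * v + b)) (by (clear * - f1 f3 h10 h11 h2 h3 h4 h5 h6 h7 h8 h9 hb q1 q2 t2 t3; lia)) (by (clear * - f1 f3 h11 h12 h13 h14 h2 h3 h4 h5 h6 h7 h8 h9 hb hv q1 q2 t1 t3 t4; omega))
      (by omega) (hs.ms _ (by (clear * - f1 f3 h10 h11 h2 h3 h4 h5 h6 h7 h8 h9 hb q1 q2 t2 t3; lia)))
    rw [← hs.f2 r v b hr hv hb, Nat.add_assoc _ (16 * v) b]
    exact this
  · have l1 := lo (y.t r + y.LB + 1 + y.q + (16 * v + b)) (by omega) (by omega)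
    have l2 := up (y.t r + y.LB + 1 + y.q + (16 * v + b)) (by omega) (by omega)
    rw [← sound_congr hy eq] at l2
    rw [← hs.f2 r v b hr hv hb, Nat.add_assoc _ (16 * v) b]
    exact Bool.eq_iff_iff.2 ⟨l2, l1⟩

end

theorem sound {y : Lay} {cl : ℕ → List (ℕ × Bool)} {w : ℕ → Letter} {f : ℕ → ℕ} (hy : y.OK)
    (hs : Shape y cl w) (T : Trace y.N y.Λ y.L w f) :
    ∃ a : ℕ → Bool, ∀ r, r < y.m → ∃ l ∈ cl r, a l.1 = l.2 := by
  have h : ∀ r, ∃ a : ℕ → Bool, r ≤ y.m →
      ∀ i, y.t r ≤ i → i ≤ y.t r + y.LB → sgn w f i = sig y a (f i) := fun r => by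
    by_cases hr : r ≤ y.m
    · obtain ⟨a, ha⟩ := (sound_back hy hs T hr (sound_top hy hs T r hr)).2.2.2.2
      exact ⟨a, fun _ => ha⟩
    · exact ⟨fun _ => true, fun h => absurd h hr⟩
  choose α hα using h
  have eq : ∀ r, r ≤ y.m → ∀ v, v < y.n → α 0 v = α r v := by
    intro r
    induction r with
    | zero => exact fun _ _ _ => rfl
    | succ r ih =>
      intro hr v hv
      rw [ih (by omega) v hv]
      exact (sound_round hy hs T hr (hα r (by omega)) (hα (r + 1) hr)).1 v hv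
  refine ⟨α 0, fun r hr => ?_⟩
  obtain ⟨v, hv, e⟩ := (sound_round hy hs T hr (hα r hr.le) (hα (r + 1) hr)).2
  exact ⟨_, e, eq r hr.le v hv⟩

end Pool.Agent.Work.MP_8ff565_lc
end
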