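import Pool.Agent.Work.MP_8ff565_lc.NPmem
import Pool.Agent.Work.MP_8ff565_lc.GeoB
import Pool.Agent.Work.MP_8ff565_lc.Sound
import Pool.Agent.Work.MP_8ff565_lc.Build
import Pool.Agent.Work.MP_8ff565_lc.Inst

-- merged part: Pool.Agent.Work.MP_8ff565_lc.Col0
section
/-!
The special column `0`.

Plan. First compute `bits w (5 * i + k)` for `1 ≤ i`, `k < 5`, and for `i = 0`.
`geo_of_fold`: all fields are restrictions; the labels of column `0` give
`A 1 < A 0 < B 0 < C 0 < C 1`.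
`fold_of_geo`: `h' r i = 4 * h r i` for `1 ≤ i`, and `h' r 0 = 4 * h 0 1 + 1 + r`
(so `A 1 < A 0 < B 0 < C 0 < C 1 < B 1`). By `h2` and injectivity every face of a column `≥ 1`
other than `A 1, C 1, B 1` is below `A 1` or above `B 1`; so the new creases `A 0 A 1`,
`C 0 C 1`, `A 0 B 0`, `B 0 C 0` join neighbours and `B 0 B 1` encloses only `C 0, C 1`.
-/

namespace Pool.Agent.Work.MP_8ff565_lc

theorem Col0_b0 (w : ℕ → Letter) {i : ℕ} (hi : 1 ≤ i) : bits w (5 * i) = false := by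
  rw [bits, if_neg (by omega), if_pos (by omega)]

theorem Col0_b1 (w : ℕ → Letter) {i : ℕ} (hi : 1 ≤ i) : bits w (5 * i + 1) = (w i).2.2 := by
  rw [bits, if_neg (by omega), if_neg (by omega), if_pos (by omega),
    show (5 * i + 1) / 5 = i by omega]

theorem Col0_b2 (w : ℕ → Letter) {i : ℕ} (hi : 1 ≤ i) : bits w (5 * i + 2) = eta (w i) := by
  rw [bits, if_neg (by omega), if_neg (by omega), if_neg (by omega), if_pos (by omega),
    show (5 * i + 2) / 5 = i by omega]

theorem Col0_b3 (w : ℕ → Letter) {i : ℕ} (hi : 1 ≤ i) : bits w (5 * i + 3) = !eta (w i) := by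
  rw [bits, if_neg (by omega), if_neg (by omega), if_neg (by omega), if_neg (by omega),
    if_pos (by omega), show (5 * i + 3) / 5 = i by omega]

theorem Col0_b4 (w : ℕ → Letter) {i : ℕ} (hi : 1 ≤ i) : bits w (5 * i + 4) = (w i).2.1 := by
  rw [bits, if_neg (by omega), if_neg (by omega), if_neg (by omega), if_neg (by omega),
    if_neg (by omega), show (5 * i + 4) / 5 = i by omega]

theorem Col0_cr {a b c d : ℤ} (h : ¬Cr a b c d) : ¬Cr (4 * a) (4 * b) (4 * c) (4 * d) := by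
  unfold Cr at h ⊢
  omega

theorem Col0_out {a b x y u v : ℤ} (h1 : a ≤ x) (h2 : x ≤ b) (h3 : a ≤ y) (h4 : y ≤ b)
    (hu : u < a ∨ b < u) (hv : v < a ∨ b < v) : ¬Cr x y u v ∧ ¬Cr u v x y := by
  unfold Cr
  omega

theorem Col0_adj (x u v : ℤ) : ¬Cr x (x + 1) u v ∧ ¬Cr u v x (x + 1) := by
  unfold Cr
  omega

/-- The heights after the insertion of column `0`. -/
def Col0_h (h : Fin 3 → ℕ → ℤ) (r : Fin 3) (i : ℕ) : ℤ :=
  if i = 0 then 4 * h 0 1 + 1 + r.val else 4 * h r i

theorem Col0_zero (h : Fin 3 → ℕ → ℤ) (r : Fin 3) : Col0_h h r 0 = 4 * h 0 1 + 1 + r.val :=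
  if_pos rfl

theorem Col0_pos (h : Fin 3 → ℕ → ℤ) (r : Fin 3) {i : ℕ} (hi : 1 ≤ i) :
    Col0_h h r i = 4 * h r i :=
  if_neg (by omega)

theorem geo_of_fold {N : ℕ} {w : ℕ → Letter} {h : Fin 3 → ℕ → ℤ} (hN : 2 ≤ N)
    (H : Fold N (bits w) h) : Geo N w h ∧ h 0 1 < h 2 1 := by
  refine ⟨⟨fun r r' i j _ hi _ hj => H.inj r r' i j hi hj, fun i h1 hi => ?_, fun i h1 hi => ?_,
    fun i h1 hi => ?_, fun i h1 hi => ?_, fun i h1 hi => ?_,
    fun r r' i j _ hi _ hj => H.ncv r r' i j hi hj, fun i j _ hi _ hj => H.ncn i j hi hj,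
    fun i j _ hi _ hj => H.ncs i j hi hj⟩, ?_⟩
  · rw [H.ab i hi, Col0_b0 w h1]
    simp
  · rw [H.bc i hi, Col0_b1 w h1]
  · rw [H.va i hi, Col0_b2 w h1]
  · rw [H.vb i hi, Col0_b3 w h1]
    simp
  · rw [H.vc i hi, Col0_b4 w h1]
  · have a1 := H.ab 0 (by omega)
    have a2 := H.bc 0 (by omega)
    have a3 := H.va 0 (by omega)
    have a4 := H.vc 0 (by omega)
    simp [bits] at a1 a2 a3 a4
    omega

theorem fold_of_geo {N : ℕ} {w : ℕ → Letter} {h : Fin 3 → ℕ → ℤ} (hN : 2 ≤ N)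
    (hw : (w 1).2.2 = false) (H : Geo N w h) (h1 : h 0 1 < h 2 1)
    (h2 : ∀ r i, 1 ≤ i → i < N → Btw (h r i) (h 0 1) (h 1 1) → r = 2 ∧ i = 1) :
    ∃ h', Fold N (bits w) h' := by
  have a1 : h 0 1 ≤ h 1 1 := by simpa using H.ab 1 le_rfl (by omega)
  have a2 : h 2 1 ≤ h 1 1 := by simpa [hw] using H.bc 1 le_rfl (by omega)
  have a3 : h 2 1 ≠ h 1 1 := fun e => by
    simpa using H.inj 2 1 1 1 le_rfl (by omega) le_rfl (by omega) e
  have out : ∀ r j, 2 ≤ j → j < N → 4 * h r j < 4 * h 0 1 ∨ 4 * h 1 1 < 4 * h r j := by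
    intro r j hj hj'
    have b1 : ¬Btw (h r j) (h 0 1) (h 1 1) := fun e => by
      have := (h2 r j (by omega) hj' e).2
      omega
    have b2 : h r j ≠ h 0 1 := fun e => by
      have := (H.inj r 0 j 1 (by omega) hj' le_rfl (by omega) e).2
      omega
    have b3 : h r j ≠ h 1 1 := fun e => by
      have := (H.inj r 1 j 1 (by omega) hj' le_rfl (by omega) e).2
      omega
    unfold Btw at b1
    omega
  have key : ∀ r r' j, 2 ≤ j → j + 1 < N →
      ¬Cr (Col0_h h r 0) (Col0_h h r 1) (Col0_h h r' j) (Col0_h h r' (j + 1)) ∧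
      ¬Cr (Col0_h h r' j) (Col0_h h r' (j + 1)) (Col0_h h r 0) (Col0_h h r 1) := by
    intro r r' j hj hj'
    rw [Col0_zero, Col0_pos h r le_rfl, Col0_pos h r' (i := j) (by omega),
      Col0_pos h r' (i := j + 1) (by omega)]
    have := r.isLt
    have b : h 0 1 ≤ h r 1 ∧ h r 1 ≤ h 1 1 := by
      fin_cases r
      · exact ⟨le_rfl, a1⟩
      · exact ⟨a1, le_rfl⟩
      · exact ⟨h1.le, a2⟩
    exact Col0_out (by omega) (by omega) (by omega) (by omega) (out r' j hj (by omega))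
      (out r' (j + 1) (by omega) hj')
  have e1 : Col0_h h 1 0 = Col0_h h 0 0 + 1 := by simp [Col0_zero]
  have e2 : Col0_h h 2 0 = Col0_h h 1 0 + 1 := by
    simp [Col0_zero]
    ring
  refine ⟨Col0_h h, fun r r' i j hi hj e => ?_, fun i hi => ?_, fun i hi => ?_, fun i hi => ?_,
    fun i hi => ?_, fun i hi => ?_, fun r r' i j hi hj e => ?_, fun i j hi hj => ?_,
    fun i j hi hj => ?_⟩
  · have := r.isLt
    have := r'.isLt
    rcases Nat.eq_zero_or_pos i with rfl | hi0 <;> rcases Nat.eq_zero_or_pos j with rfl | hj0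
    · rw [Col0_zero, Col0_zero] at e
      exact ⟨Fin.ext (by omega), rfl⟩
    · rw [Col0_zero, Col0_pos h _ hj0] at e
      omega
    · rw [Col0_zero, Col0_pos h _ hi0] at e
      omega
    · rw [Col0_pos h _ hi0, Col0_pos h _ hj0] at e
      exact H.inj r r' i j hi0 hi hj0 hj (by omega)
  · rcases Nat.eq_zero_or_pos i with rfl | hi0
    · simp [e1, bits]
    · rw [Col0_pos h _ hi0, Col0_pos h _ hi0, Col0_b0 w hi0]
      simpa using H.ab i hi0 hi
  · rcases Nat.eq_zero_or_pos i with rfl | hi0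
    · simp [e2, bits]
    · rw [Col0_pos h _ hi0, Col0_pos h _ hi0, Col0_b1 w hi0, ← H.bc i hi0 hi]
      omega
  · rcases Nat.eq_zero_or_pos i with rfl | hi0
    · simp [Col0_h, bits]
    · rw [Col0_pos h _ hi0, Col0_pos h _ (by omega), Col0_b2 w hi0, ← H.va i hi0 hi]
      omega
  · rcases Nat.eq_zero_or_pos i with rfl | hi0
    · simp [Col0_h, bits]
      omega
    · rw [Col0_pos h _ hi0, Col0_pos h _ (by omega), Col0_b3 w hi0]
      simpa using H.vb i hi0 hi
  · rcases Nat.eq_zero_or_pos i with rfl | hi0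
    · simp [Col0_h, bits]
      omega
    · rw [Col0_pos h _ hi0, Col0_pos h _ (by omega), Col0_b4 w hi0, ← H.vc i hi0 hi]
      omega
  · rcases Nat.eq_zero_or_pos i with rfl | hi0 <;> rcases Nat.eq_zero_or_pos j with rfl | hj0
    · rw [Col0_zero, Col0_zero, Col0_pos h r le_rfl, Col0_pos h r' le_rfl]
      unfold Cr
      fin_cases r <;> fin_cases r' <;> simp only [Fin.zero_eta, Fin.mk_one, Fin.reduceFinMk] <;>
        omega
    · exact (key r r' j (by omega) hj).1
    · exact (key r' r i (by omega) hi).2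
    · rw [Col0_pos h _ hi0, Col0_pos h _ hj0, Col0_pos h r (i := i + 1) (by omega),
        Col0_pos h r' (i := j + 1) (by omega)]
      exact Col0_cr (H.ncv r r' i j hi0 hi hj0 hj e)
  · rcases Nat.eq_zero_or_pos i with rfl | hi0
    · rw [e1]
      exact (Col0_adj _ _ _).1
    rcases Nat.eq_zero_or_pos j with rfl | hj0
    · rw [e1]
      exact (Col0_adj _ _ _).2
    · rw [Col0_pos h _ hi0, Col0_pos h _ hi0, Col0_pos h _ hj0, Col0_pos h _ hj0]
      exact Col0_cr (H.ncn i j hi0 hi hj0 hj)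
  · rcases Nat.eq_zero_or_pos i with rfl | hi0
    · rw [e2]
      exact (Col0_adj _ _ _).1
    rcases Nat.eq_zero_or_pos j with rfl | hj0
    · rw [e2]
      exact (Col0_adj _ _ _).2
    · rw [Col0_pos h _ hi0, Col0_pos h _ hi0, Col0_pos h _ hj0, Col0_pos h _ hj0]
      exact Col0_cr (H.ncs i j hi0 hi hj0 hj)

end Pool.Agent.Work.MP_8ff565_lc
end

-- merged part: Pool.Agent.Work.MP_8ff565_lc.PlanW
section
/-!
The walk of the window on the cells.

Plan. `π k = k` for `k ≤ s`; `π (s + 12 v + b) = s + (pT (a v)).getD b 0` for `v < n`, `b < 12`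
with `pT true = [0, 1, 1, 1, 2, 3, 3, 2, 1, 1, 1, 0]`, `pT false = [0, 1, 2, 2, 2, 3, 3, 2, 1, 1,
1, 0]`; `π e = π (e + 1) = s`; `π k = s + (k - e - 2)` for `e + 2 ≤ k ≤ p`;
`π k = s + q - (k - p - 1)` for `p < k ≤ L` (this stays above `Λ`). Check `WStep` and `Adj`
region by region; in a section write `k = s + 12 v + b` and use `interval_cases b`
(`s` is odd, `Λ` is even).
-/

namespace Pool.Agent.Work.MP_8ff565_lc

/-- The positions of the window inside a section of type `b`. -/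
def PlanW_pT (b : Bool) : List ℕ :=
  if b = true then [0, 1, 1, 1, 2, 3, 3, 2, 1, 1, 1, 0] else [0, 1, 2, 2, 2, 3, 3, 2, 1, 1, 1, 0]

/-- The walk of the window. -/
def PlanW_pi (y : Lay) (a : ℕ → Bool) (k : ℕ) : ℕ :=
  if k < y.s then k else
  if k < y.e then y.s + (PlanW_pT (a ((k - y.s) / 12))).getD ((k - y.s) % 12) 0 else
  if k ≤ y.e + 1 then y.s else
  if k ≤ y.p then y.s + (k - y.e - 2) else y.s + y.q - (k - y.p - 1)

theorem PlanW_tab : ∀ c : Bool, ∀ b < 12, (PlanW_pT c).getD b 0 ≤ b ∧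
    (sigT c).getD b false = decide ((PlanW_pT c).getD b 0 % 2 = b % 2) ∧
    (b < 11 → Adj ((mvT c).getD b 0) ((mvT c).getD (b + 1) 0)) ∧
    (((mvT c).getD b 0 = 0 ∧ (PlanW_pT c).getD (b + 1) 0 = (PlanW_pT c).getD b 0 + 1 ∧
        (sigT c).getD b false = true ∧ sec.getD b false = true) ∨
      ((mvT c).getD b 0 = 0 ∧ (PlanW_pT c).getD (b + 1) 0 + 1 = (PlanW_pT c).getD b 0 ∧
        (sigT c).getD b false = false ∧ sec.getD b false = false) ∨
      ((mvT c).getD b 0 = 1 ∧ (PlanW_pT c).getD (b + 1) 0 = (PlanW_pT c).getD b 0 ∧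
        sec.getD b false = (sigT c).getD b false) ∨
      (((mvT c).getD b 0 = 2 ∨ (mvT c).getD b 0 = 3) ∧
        (PlanW_pT c).getD (b + 1) 0 = (PlanW_pT c).getD b 0 ∧
        sec.getD b false = !(sigT c).getD b false)) := by
  intro c b hb
  cases c <;> interval_cases b <;> simp [Adj, PlanW_pT, sigT, mvT, sec]

theorem PlanW_end : ∀ c : Bool, (PlanW_pT c).getD 0 0 = 0 ∧ (PlanW_pT c).getD 12 0 = 0 ∧
    (mvT c).getD 0 0 = 0 ∧ (mvT c).getD 11 0 = 1 := by
  decide

theorem PlanW_adj {a b : ℕ} (ha : a ≤ 1) (hb : b ≤ 1) : Adj a b := by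
  unfold Adj
  omega

variable {y : Lay} {η : ℕ → Bool}

theorem PlanW_sec (hy : y.OK) (a : ℕ → Bool) {v b : ℕ} (hv : v < y.n) (hb : b < 12) :
    PlanW_pi y a (y.s + 12 * v + b) = y.s + (PlanW_pT (a v)).getD b 0 ∧
    mvA y a (y.s + 12 * v + b) = (mvT (a v)).getD b 0 ∧
    sig y a (y.s + 12 * v + b) = (sigT (a v)).getD b false := by
  have h1 : (y.s + 12 * v + b - y.s) / 12 = v := by omega
  have h2 : (y.s + 12 * v + b - y.s) % 12 = b := by omega
  have h3 : ¬y.s + 12 * v + b < y.s := by omega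
  have h4 : y.s + 12 * v + b < y.e := by
    have := hy.he
    omega
  simp only [PlanW_pi, mvA, sig, h1, h2, if_neg h3, if_pos h4, and_self]

theorem PlanW_start (hy : y.OK) (a : ℕ → Bool) {v : ℕ} (hv : v ≤ y.n) :
    PlanW_pi y a (y.s + 12 * v) = y.s ∧ mvA y a (y.s + 12 * v) ≤ 1 := by
  rcases hv.lt_or_eq with hv | rfl
  · obtain ⟨h1, h2, -⟩ := PlanW_sec hy a hv (b := 0) (by omega)
    rw [add_zero, (PlanW_end _).1] at h1
    rw [add_zero, (PlanW_end _).2.2.1] at h2
    omega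
  · have := hy.he
    simp only [PlanW_pi, mvA]
    split_ifs <;> omega

theorem PlanW_loc (hy : y.OK) (he : EtaOK y η) (a : ℕ → Bool) (k : ℕ) (hk : k ≤ y.L) :
    (1 ≤ k → 1 ≤ PlanW_pi y a k) ∧ PlanW_pi y a k ≤ k ∧
    (y.Λ ≤ k → dir (PlanW_pi y a) k = sig y a k) ∧ Adj (mvA y a k) (mvA y a (k + 1)) ∧
    (1 ≤ k → k < y.L → WStep (PlanW_pi y a) (mvA y a) η (cellHand y.Λ) k) := by
  have hy' := hy
  obtain ⟨h1, h2, h3, h4, h5, h6, h7, h8, -⟩ := hy'
  by_cases c1 : k < y.s
  · have e0 := PlanW_start hy a (v := 0) (by omega)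
    rw [mul_zero, add_zero] at e0
    have e1 : PlanW_pi y a k = k := if_pos c1
    have e2 : mvA y a k = 0 := if_pos c1
    have e3 : PlanW_pi y a (k + 1) = k + 1 ∧ mvA y a (k + 1) ≤ 1 := by
      by_cases c2 : k + 1 < y.s
      · exact ⟨if_pos c2, (if_pos c2 : mvA y a (k + 1) = 0).trans_le (by omega)⟩
      · rw [show k + 1 = y.s by omega]
        exact e0
    refine ⟨by omega, by omega, fun _ => by simp [dir, sig, e1, c1],
      PlanW_adj (by omega) e3.2, fun k1 _ => .inl ⟨e2, by omega, by omega, ?_⟩⟩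
    rw [e1, cellHand]
    by_cases c3 : k < y.Λ
    · rw [he.pre k k1 c3]
      exact decide_eq_decide.2 (by omega)
    · rw [he.left k (by omega) c1]
      exact (decide_eq_true (by omega)).symm
  by_cases c2 : k < y.e
  · obtain ⟨v, b, hv, hb, rfl⟩ : ∃ v b, v < y.n ∧ b < 12 ∧ k = y.s + 12 * v + b :=
      ⟨(k - y.s) / 12, (k - y.s) % 12, by omega, by omega, by omega⟩
    obtain ⟨e1, e2, e3⟩ := PlanW_sec hy a hv hb
    obtain ⟨t1, t2, t3, t4⟩ := PlanW_tab (a v) b hb
    have e4 : dir (PlanW_pi y a) (y.s + 12 * v + b) = (sigT (a v)).getD b false := by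
      rw [t2, dir, e1]
      exact decide_eq_decide.2 (by (clear * - h2 h4 h5; lia))
    have e5 : PlanW_pi y a (y.s + 12 * v + b + 1) = y.s + (PlanW_pT (a v)).getD (b + 1) 0 ∧
        Adj (mvA y a (y.s + 12 * v + b)) (mvA y a (y.s + 12 * v + b + 1)) := by
      by_cases c3 : b < 11
      · obtain ⟨f1, f2, -⟩ := PlanW_sec hy a hv (b := b + 1) (by omega)
        rw [add_assoc _ b, f1, f2, e2]
        exact ⟨rfl, t3 c3⟩
      · obtain rfl : b = 11 := by omega
        obtain ⟨f1, f2⟩ := PlanW_start hy a (v := v + 1) hv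
        rw [show y.s + 12 * v + 11 + 1 = y.s + 12 * (v + 1) by omega, f1, e2,
          (PlanW_end _).2.1, (PlanW_end _).2.2.2]
        exact ⟨rfl, PlanW_adj le_rfl f2⟩
    have e6 : ∀ c, cellHand y.Λ (y.s + c) = true := fun c => decide_eq_true (by omega)
    refine ⟨by omega, by omega, fun _ => e4.trans e3.symm, e5.2, fun _ _ => ?_⟩
    unfold WStep
    rw [e4, he.mid v b hv hb, e2, e5.1, e1, e6, e6]
    rw [t2] at t4 ⊢
    rcases t4 with ⟨a1, a2, a3, a4⟩ | ⟨a1, a2, a3, a4⟩ | ⟨a1, a2, a3⟩ | ⟨a1, a2, a3⟩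
    · exact .inl ⟨a1, by omega, by have := of_decide_eq_true a3; (clear * - a2 h2 h4 h5 this; omega), a4⟩
    · exact .inr (.inl ⟨a1, by omega, by have := of_decide_eq_false a3; (clear * - a2 this; omega), a4⟩)
    · exact .inr (.inr (.inl ⟨a1, by omega, a3⟩))
    · exact .inr (.inr (.inr ⟨a1, by omega, a3⟩))
  have c3 : ¬k + 1 < y.s := by omega
  have c4 : ¬k + 1 < y.e := by omega
  have e1 : PlanW_pi y a k = if k ≤ y.e + 1 then y.s else
      if k ≤ y.p then y.s + (k - y.e - 2) else y.s + y.q - (k - y.p - 1) :=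
    (if_neg c1).trans (if_neg c2)
  have e2 : PlanW_pi y a (k + 1) = if k + 1 ≤ y.e + 1 then y.s else
      if k + 1 ≤ y.p then y.s + (k + 1 - y.e - 2) else y.s + y.q - (k + 1 - y.p - 1) :=
    (if_neg c3).trans (if_neg c4)
  have e3 : mvA y a k = if k ≤ y.e + 1 ∨ k = y.p ∨ k = y.L then 1 else 0 :=
    (if_neg c1).trans (if_neg c2)
  have e4 : mvA y a (k + 1) ≤ 1 := by
    rw [mvA, if_neg c3, if_neg c4]
    split_ifs <;> omega
  have e5 : dir (PlanW_pi y a) k = decide (k ≠ y.e + 1 ∧ k ≤ y.p) := by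
    refine decide_eq_decide.2 ?_
    split_ifs at e1 <;> lia
  have e6 : η k = decide (k ≠ y.e + 1 ∧ k ≤ y.p) := by
    by_cases d1 : k = y.e
    · rw [d1, he.e0]
      exact (decide_eq_true (by omega)).symm
    by_cases d2 : k = y.e + 1
    · rw [d2, he.e1]
      exact (decide_eq_false (by omega)).symm
    by_cases d3 : k ≤ y.p
    · rw [he.right k (by omega) d3]
      exact (decide_eq_true (by omega)).symm
    · rw [he.run k (by omega) hk]
      exact (decide_eq_false (by omega)).symm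
  refine ⟨by split_ifs at e1 <;> lia, by split_ifs at e1 <;> omega, fun _ => ?_,
    PlanW_adj (by split_ifs at e3 <;> omega) e4, fun _ hL => ?_⟩
  · rw [e5, sig, if_neg c1, if_neg c2]
    split_ifs with d
    · exact decide_eq_false (by omega)
    · exact decide_eq_decide.2 (by omega)
  · by_cases d1 : k ≤ y.e + 1 ∨ k = y.p
    · refine .inr (.inr (.inl ⟨?_, ?_, e6.trans e5.symm⟩))
      · split_ifs at e3 <;> omega
      · split_ifs at e1 e2 <;> omega
    have d2 : mvA y a k = 0 := by split_ifs at e3 <;> omega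
    by_cases d3 : k ≤ y.p
    · refine .inl ⟨d2, ?_, ?_, e6.trans (decide_eq_decide.2 ?_)⟩ <;>
        split_ifs at e1 e2 <;> omega
    · refine .inr (.inl ⟨d2, ?_, ?_, e6.trans ?_⟩)
      · split_ifs at e1 e2 <;> lia
      · split_ifs at e1 e2 <;> lia
      · rw [cellHand, ← decide_not]
        refine decide_eq_decide.2 ?_
        split_ifs at e2 <;> (clear * - d1 d3 e2 h2 h3 h4 h5 h6 h7 h8 hL; lia)

theorem plan_window {y : Lay} {η : ℕ → Bool} (hy : y.OK) (he : EtaOK y η) (a : ℕ → Bool) :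
    ∃ π, Walk y.L π (mvA y a) η (cellHand y.Λ) ∧ η y.L = dir π y.L ∧
      ∀ k, y.Λ ≤ k → k ≤ y.L → dir π k = sig y a k := by
  have hy' := hy
  obtain ⟨h1, h2, h3, h4, h5, h6, h7, h8, -⟩ := hy'
  have h := PlanW_loc hy he a
  refine ⟨PlanW_pi y a, ⟨fun i i1 i2 => ⟨(h i i2).1 i1, (h i i2).2.1⟩,
    fun i i1 i2 => (h i i2.le).2.2.2.2 i1 i2, fun i i1 i2 => ?_, ?_, ?_⟩, ?_,
    fun k k1 k2 => (h k k2).2.2.1 k1⟩
  · have := (h (i - 1) (by omega)).2.2.2.1
    rwa [Nat.sub_add_cancel i1] at this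
  · rw [mvA, if_pos (by omega)]
    omega
  · rw [mvA, if_neg (by omega), if_neg (by omega)]
    split_ifs <;> omega
  · rw [(h y.L le_rfl).2.2.1 (by omega), he.run y.L (by omega) le_rfl, sig, if_neg (by omega),
      if_neg (by omega), if_neg (by omega)]
    exact (decide_eq_false (by omega)).symm

end Pool.Agent.Work.MP_8ff565_lc
end

-- merged part: Pool.Agent.Work.MP_8ff565_lc.Main
section
/-!
The reduction from satisfiability to `MAP_3`.
-/

namespace Pool.Agent.Work.MP_8ff565_lc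

open Pool.Agent.Lib.Cx

section
variable {y : Lay} {cl : ℕ → List (ℕ × Bool)} {w : ℕ → Letter}

theorem sat_of_fold (hy : y.OK) (hs : Shape y cl w) {h : Fin 3 → ℕ → ℤ}
    (H : Fold y.N (bits w) h) : ∃ a : ℕ → Bool, ∀ r, r < y.m → ∃ l ∈ cl r, a l.1 = l.2 := by
  have h0 := y.t_mono (Nat.zero_le y.m)
  rw [Lay.t_zero] at h0
  have hy' := hy
  obtain ⟨h1, h2, h3, h4, h5, h6, h7, h8, h9, h10, h11, h12, h13, h14, h15⟩ := hy'
  obtain ⟨G, hG⟩ := geo_of_fold (by omega) H
  obtain ⟨f, P⟩ := ports_of_geo hy hs G hG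
  exact sound hy hs (trace_of_ports G P h15 (by omega) (by omega) (clean_of_geo hy hs G))

theorem fold_of_sat (hy : y.OK) (hs : Shape y cl w) (a : ℕ → Bool)
    (hsat : ∀ r, r < y.m → ∃ v, v < y.n ∧ blk (cl r) v = if a v = true then wT else wF) :
    ∃ h, Fold y.N (bits w) h := by
  have h0 := y.t_mono (Nat.zero_le y.m)
  rw [Lay.t_zero] at h0
  have hy' := hy
  obtain ⟨h1, h2, h3, h4, h5, h6, h7, h8, h9, h10, h11, h12, h13, h14, h15⟩ := hy'
  obtain ⟨π, W1, hc, hsg⟩ := plan_window hy hs.et a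
  obtain ⟨f, mv2, W2, hf, hL, hr, ht⟩ := plan_ports hy hs a hsat
  have hmv : mvA y a y.L = 1 := by
    unfold mvA
    rw [if_neg (by omega), if_neg (by omega), if_pos (by omega)]
  have hpsi : ∀ i, 1 ≤ i → i ≤ y.L → (w i).2.2 = false := fun i hi hi' => by
    rcases Nat.lt_or_eq_of_le hi' with h | rfl
    · exact (hs.sync i hi h).2
    · rw [hs.lock _ le_rfl (by omega)]
      simp only [decide_eq_false_iff_not]
      omega
  have P : Plan y.N y.Λ y.L w π (mvA y a) f mv2 :=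
    { evΛ := h4, hL := by omega, hN := by omega, w1 := W1, close := ⟨hmv, hc⟩, w2 := W2
      sync := fun i hi hi' => ⟨hf i hi hi', hpsi i hi hi'⟩
      turnL := hL
      range := fun i hi hi' => by have := hr i hi hi'; omega
      typ := ht
      sign := fun i hi hi' => by
        obtain ⟨e1, e2, e3⟩ := hr i hi hi'
        rw [e3, hsg _ e1 e2] }
  obtain ⟨g, G⟩ := nodes_of_walk h4 (by omega) W1 ⟨hmv, hc⟩
  obtain ⟨h, H, hh1, hh2⟩ := build P G
  exact fold_of_geo (by omega) (hpsi 1 le_rfl (by omega)) H hh1 hh2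

end

/-- A bound on the variables. -/
def nvar (φ : List (List (ℕ × Bool))) : ℕ := (φ.map fun c => (c.map fun l => l.1 + 1).sum).sum

theorem lt_nvar {φ : List (List (ℕ × Bool))} {c : List (ℕ × Bool)} (hc : c ∈ φ) {l : ℕ × Bool}
    (hl : l ∈ c) : l.1 < nvar φ := by
  have h1 := List.le_sum_of_mem (List.mem_map_of_mem (f := fun l : ℕ × Bool => l.1 + 1) hl)
  have h2 := List.le_sum_of_mem
    (List.mem_map_of_mem (f := fun c : List (ℕ × Bool) => (c.map fun l => l.1 + 1).sum) hc)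
  unfold nvar; omega

/-- The clauses that do not contain a literal and its negation. -/
def proper (φ : List (List (ℕ × Bool))) : List (List (ℕ × Bool)) :=
  φ.filter fun c => c.all fun l => !decide ((l.1, !l.2) ∈ c)

/-- The reduction on formulas. -/
def red (φ : List (List (ℕ × Bool))) : List Bool := code (nvar φ + 1) (proper φ)

theorem ls_red : LS red := by
  have h : LS fun φ : List (List (ℕ × Bool)) => (nvar φ + 1, proper φ) := by
    unfold nvar proper
    fun_prop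
  have h2 := LS.comp (fun p : ℕ × List (List (ℕ × Bool)) => code p.1 p.2) _ ls_code h
  refine h2.congr fun φ => ?_
  rw [red]

theorem map3_code (n : ℕ) (φ : List (List (ℕ × Bool))) :
    map3 (code n φ) = true ↔
      ∃ h, Fold (lay n φ.length).N (bits (wf n (4 * tl n φ.length) φ)) h := by
  have hl : (code n φ).length = 30 * tl n φ.length - 3 := by simp [code]
  have ht : 1 ≤ tl n φ.length := by unfold tl; omega
  have key : (fun c : Crease (6 * tl n φ.length) => (code n φ).getD (pos c) false) =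
      fun c => bits (wf n (4 * tl n φ.length) φ) (pos c) := by
    funext c
    have : pos c < 30 * tl n φ.length - 3 := by
      rcases c with ⟨r, j⟩ | ⟨r, j⟩ <;> simp only [pos] <;> have := r.2 <;> have := j.2 <;> omega
    rw [List.getD_eq_getElem _ _ (by omega)]
    simp [code]
  rw [← bridge]
  simp only [map3, decide_eq_true_eq]
  constructor
  · rintro ⟨N, hN, H⟩
    obtain rfl : N = 6 * tl n φ.length := by omega
    rw [key] at H
    exact H
  · intro H
    exact ⟨6 * tl n φ.length, by omega, by rw [key]; exact H⟩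

theorem red_iff (φ : List (List (ℕ × Bool))) :
    map3 (red φ) = true ↔ ∃ a : ℕ → Bool, ∀ c ∈ φ, ∃ l ∈ c, a l.1 = l.2 := by
  have hy := lay_ok (nvar φ + 1) (proper φ).length (by omega)
  have hs := shape_wf (nvar φ + 1) (proper φ).length (proper φ)
  rw [red, map3_code]
  constructor
  · rintro ⟨h, H⟩
    obtain ⟨a, ha⟩ := sat_of_fold hy hs H
    refine ⟨a, fun c hc => ?_⟩
    by_cases hp : c ∈ proper φ
    · obtain ⟨r, hr, rfl⟩ := List.getElem_of_mem hp
      have := ha r hr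
      rwa [List.getD_eq_getElem _ _ hr] at this
    · simp only [proper, List.mem_filter, hc, true_and, List.all_eq_true, not_forall] at hp
      obtain ⟨l, hl, hl'⟩ := hp
      simp only [Bool.not_eq_true', decide_eq_false_iff_not, not_not] at hl'
      by_cases e : a l.1 = l.2
      · exact ⟨l, hl, e⟩
      · exact ⟨_, hl', by revert e; cases a l.1 <;> cases l.2 <;> simp⟩
  · rintro ⟨a, ha⟩
    refine fold_of_sat hy hs a fun r hr => ?_
    have hr' : r < (proper φ).length := hr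
    have hm := List.getElem_mem hr'
    rw [List.getD_eq_getElem _ _ hr']
    generalize (proper φ)[r] = c at hm
    simp only [proper, List.mem_filter, List.all_eq_true, Bool.not_eq_true',
      decide_eq_false_iff_not] at hm
    obtain ⟨⟨v, b⟩, hl, e⟩ := ha c hm.1
    refine ⟨v, Nat.lt_succ_of_lt (lt_nvar hm.1 hl), ?_⟩
    have h2 := hm.2 _ hl
    simp only at e h2
    rw [e]
    unfold blk
    cases b
    · rw [if_neg (by simpa using h2), if_pos hl]; rfl
    · rw [if_pos hl]; rfl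

theorem hard (L : N68a2faeb.DecisionProblem) (hL : L ∈ N68a2faeb.NP) :
    ∃ f : List Bool → List Bool, N68a2faeb.IsPolyTime f ∧ ∀ x, L x = map3 (f x) := by
  obtain ⟨φ, hφ, -, h⟩ := cook_levin_ls L hL
  refine ⟨fun x => red (φ x), (LS.comp _ _ ls_red hφ).isPolyTime, fun x => ?_⟩
  rw [Bool.eq_iff_iff, h, red_iff]

end Pool.Agent.Work.MP_8ff565_lc
end
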