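import Pool.Agent.Work.MP_8ff565_lc.Defs
import Pool.Agent.Lib.Cx.Bridge
import Pool.Agent.Lib.Cx.Bits

-- merged part: Pool.Agent.Work.MP_8ff565_lc.Model
section
/-!
The working model: heights, letters, traces, walks and the layout of the reduction.
Rows: `0 = A`, `1 = B`, `2 = C`. A Boolean hand is `true` for a left turn.
-/

namespace Pool.Agent.Work.MP_8ff565_lc

/-- The pairs `{a, b}` and `{c, d}` interleave, the smallest point belonging to `{a, b}`. -/
def Cr (a b c d : ℤ) : Prop := min a b < min c d ∧ min c d < max a b ∧ max a b < max c d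

/-- `z` lies strictly between `a` and `b`. -/
def Btw (z a b : ℤ) : Prop := (a < z ∧ z < b) ∨ (b < z ∧ z < a)

/-- A folded state, by integer heights, of the map with `N` columns and label string `x`. -/
structure Fold (N : ℕ) (x : ℕ → Bool) (h : Fin 3 → ℕ → ℤ) : Prop where
  inj : ∀ r r' i j, i < N → j < N → h r i = h r' j → r = r' ∧ i = j
  ab : ∀ i, i < N → (h 1 i < h 0 i ↔ (i % 2 = 0 ↔ x (5 * i) = false))
  bc : ∀ i, i < N → (h 1 i < h 2 i ↔ (i % 2 = 0 ↔ x (5 * i + 1) = false))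
  va : ∀ i, i + 1 < N → (h 0 i < h 0 (i + 1) ↔ (i % 2 = 0 ↔ x (5 * i + 2) = true))
  vb : ∀ i, i + 1 < N → (h 1 i < h 1 (i + 1) ↔ (i % 2 = 0 ↔ x (5 * i + 3) = false))
  vc : ∀ i, i + 1 < N → (h 2 i < h 2 (i + 1) ↔ (i % 2 = 0 ↔ x (5 * i + 4) = true))
  ncv : ∀ r r' i j, i + 1 < N → j + 1 < N → i % 2 = j % 2 →
    ¬Cr (h r i) (h r (i + 1)) (h r' j) (h r' (j + 1))
  ncn : ∀ i j, i < N → j < N → ¬Cr (h 0 i) (h 1 i) (h 0 j) (h 1 j)
  ncs : ∀ i j, i < N → j < N → ¬Cr (h 1 i) (h 2 i) (h 1 j) (h 2 j)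

/-- A letter `(m, hand, psi)` describes a column `i ≥ 1` and the step to the next column:
`hand` is the turn of row `C`, `m` says that rows `A, B` turn the other way, `psi` is the label
of the crease between `B` and `C`. -/
abbrev Letter := Bool × Bool × Bool

/-- The turn of rows `A` and `B`. -/
def eta (l : Letter) : Bool := xor l.1 l.2.1

/-- The label string of a word. Column `0` is special. -/
def bits (w : ℕ → Letter) (p : ℕ) : Bool :=
  if p < 5 then decide (p % 4 = 0) else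
  if p % 5 = 0 then false else
  if p % 5 = 1 then (w (p / 5)).2.2 else
  if p % 5 = 2 then eta (w (p / 5)) else
  if p % 5 = 3 then !eta (w (p / 5)) else (w (p / 5)).2.1

/-- A folded state of the columns `1, ..., N - 1` labelled by the word `w`. -/
structure Geo (N : ℕ) (w : ℕ → Letter) (h : Fin 3 → ℕ → ℤ) : Prop where
  inj : ∀ r r' i j, 1 ≤ i → i < N → 1 ≤ j → j < N → h r i = h r' j → r = r' ∧ i = j
  ab : ∀ i, 1 ≤ i → i < N → (h 1 i < h 0 i ↔ i % 2 = 0)
  bc : ∀ i, 1 ≤ i → i < N → (h 1 i < h 2 i ↔ (i % 2 = 0 ↔ (w i).2.2 = false))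
  va : ∀ i, 1 ≤ i → i + 1 < N → (h 0 i < h 0 (i + 1) ↔ (i % 2 = 0 ↔ eta (w i) = true))
  vb : ∀ i, 1 ≤ i → i + 1 < N → (h 1 i < h 1 (i + 1) ↔ (i % 2 = 0 ↔ eta (w i) = true))
  vc : ∀ i, 1 ≤ i → i + 1 < N → (h 2 i < h 2 (i + 1) ↔ (i % 2 = 0 ↔ (w i).2.1 = true))
  ncv : ∀ r r' i j, 1 ≤ i → i + 1 < N → 1 ≤ j → j + 1 < N → i % 2 = j % 2 →
    ¬Cr (h r i) (h r (i + 1)) (h r' j) (h r' (j + 1))
  ncn : ∀ i j, 1 ≤ i → i < N → 1 ≤ j → j < N → ¬Cr (h 0 i) (h 1 i) (h 0 j) (h 1 j)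
  ncs : ∀ i j, 1 ≤ i → i < N → 1 ≤ j → j < N → ¬Cr (h 1 i) (h 2 i) (h 1 j) (h 2 j)

/-- Direction of travel at time `i` in slot `f i` (`true` = forward). -/
def dir (f : ℕ → ℕ) (i : ℕ) : Bool := decide (f i % 2 = i % 2)

/-- The side of the slot `f i` on which the face `B i` lies (`true` = the `A` side). -/
def sgn (w : ℕ → Letter) (f : ℕ → ℕ) (i : ℕ) : Bool := (w i).2.2 == dir f i

/-- The face `C i` lies in the slot `f i` (between `A (f i)` and `B (f i)`), and the walk `f`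
moves along the corridor. -/
structure Ports (N Λ : ℕ) (w : ℕ → Letter) (h : Fin 3 → ℕ → ℤ) (f : ℕ → ℕ) : Prop where
  start : f Λ = Λ
  ins : ∀ i, Λ ≤ i → i < N → Btw (h 2 i) (h 0 (f i)) (h 1 (f i))
  step : ∀ i, Λ ≤ i → i + 1 < N → f (i + 1) = f i ∨
    (f (i + 1) = f i + 1 ∧ f i % 2 = i % 2 ∧ (w i).2.1 = eta (w (f i))) ∨
    (f (i + 1) + 1 = f i ∧ f i % 2 ≠ i % 2 ∧ (w i).2.1 = !eta (w (f (i + 1))))

/-- No face of row `B` lies inside the slot `k`. -/
def Clean (N : ℕ) (h : Fin 3 → ℕ → ℤ) (k : ℕ) : Prop :=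
  ∀ j, 1 ≤ j → j < N → ¬Btw (h 1 j) (h 0 k) (h 1 k)

/-- What the combinatorial part of the soundness proof needs to know about the walk. -/
structure Trace (N Λ L : ℕ) (w : ℕ → Letter) (f : ℕ → ℕ) : Prop where
  start : f Λ = Λ
  step : ∀ i, Λ ≤ i → i + 1 < N → f (i + 1) = f i ∨
    (f (i + 1) = f i + 1 ∧ f i % 2 = i % 2 ∧ (w i).2.1 = eta (w (f i))) ∨
    (f (i + 1) + 1 = f i ∧ f i % 2 ≠ i % 2 ∧ (w i).2.1 = !eta (w (f (i + 1))))
  safe : ∀ i, Λ ≤ i → i + 1 < N → f i ≤ L + 1 → (w i).1 = false → (w i).2.1 = (w i).2.2 →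
    f (i + 1) ≠ f i
  mono : ∀ a b c, L < a → a < b → b < c → c < N → (∀ i, a ≤ i → i ≤ c → f i ≤ L) →
    f (b + 1) = f b → (w b).2.1 = dir f b →
    (∀ i, a ≤ i → i ≤ c → f i = f b → i = b ∨ i = b + 1) → f a = f c →
    (∀ i, a ≤ i → i ≤ c → f i = f a → i = a ∨ i = c) → a % 2 ≠ c % 2 →
    (∀ j, b < j → j ≤ c → ∃ i, a ≤ i ∧ i ≤ b ∧ f i = f j ∧
      (sgn w f i = true → sgn w f j = true)) ∧
    (∀ i, a ≤ i → i ≤ b → ∃ j, b < j ∧ j ≤ c ∧ f j = f i ∧
      (sgn w f i = true → sgn w f j = true))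

/-- One step of the abstract automaton: a U-turn (only on a letter with `m = true`) or a move
across a boundary whose hand `η` matches. -/
def St (η : ℕ → Bool) (l : Letter) (k : ℕ) (d : Bool) (k' : ℕ) (d' : Bool) : Prop :=
  (l.1 = true ∧ k' = k ∧ d' = !d) ∨
  (d = true ∧ d' = true ∧ k' = k + 1 ∧ l.2.1 = η k) ∨
  (d = false ∧ d' = false ∧ k' + 1 = k ∧ l.2.1 = !η k')

/-- Consecutive moves: `0` advance, `1` inward turn, `2, 3` the two outward turns of an isolated
pleat. -/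
def Adj (a b : ℕ) : Prop := (b = 3 ↔ a = 2) ∧ (b = 2 → a = 0) ∧ (a = 3 → b = 0)

/-- One step of a walk with moves `mv` on a line whose boundaries have hands `θ`. -/
def WStep (ps mv : ℕ → ℕ) (hand θ : ℕ → Bool) (i : ℕ) : Prop :=
  (mv i = 0 ∧ ps (i + 1) = ps i + 1 ∧ ps i % 2 = i % 2 ∧ hand i = θ (ps i)) ∨
  (mv i = 0 ∧ ps (i + 1) + 1 = ps i ∧ ps i % 2 ≠ i % 2 ∧ hand i = !θ (ps (i + 1))) ∨
  (mv i = 1 ∧ ps (i + 1) = ps i ∧ hand i = dir ps i) ∨
  ((mv i = 2 ∨ mv i = 3) ∧ ps (i + 1) = ps i ∧ hand i = !dir ps i)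

/-- A walk during the times `1, ..., T`. -/
structure Walk (T : ℕ) (ps mv : ℕ → ℕ) (hand θ : ℕ → Bool) : Prop where
  pos : ∀ i, 1 ≤ i → i ≤ T → 1 ≤ ps i ∧ ps i ≤ i
  step : ∀ i, 1 ≤ i → i < T → WStep ps mv hand θ i
  adj : ∀ i, 1 ≤ i → i ≤ T → Adj (mv (i - 1)) (mv i)
  zero : mv 0 ≤ 1
  last : mv T ≤ 1

/-- The hands of the cell boundaries: a staircase below `Λ`, a roll from `Λ` on. -/
def cellHand (Λ c : ℕ) : Bool := decide (c % 2 = 0 ∨ Λ ≤ c)

/-- The data from which a folded state is built. `π, mv1` is the walk of the window slots on the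
cells, `f, mv2` the walk of row `C` on the slots. -/
structure Plan (N Λ L : ℕ) (w : ℕ → Letter) (π mv1 f mv2 : ℕ → ℕ) : Prop where
  evΛ : Λ % 2 = 0
  hL : 2 ≤ L
  hN : L + 1 < N
  w1 : Walk L π mv1 (fun k => eta (w k)) (cellHand Λ)
  close : mv1 L = 1 ∧ eta (w L) = dir π L
  w2 : Walk (N - 1) f mv2 (fun i => (w i).2.1) (fun k => eta (w k))
  sync : ∀ i, 1 ≤ i → i ≤ L → f i = i ∧ (w i).2.2 = false
  turnL : mv2 L = 1
  range : ∀ i, L < i → i < N → 2 ≤ f i ∧ f i ≤ L
  typ : ∀ i, L < i → i + 1 < N →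
    ((w i).1 = true ↔ (mv2 i ≠ 0 ∨ mv1 (min (f i) (f (i + 1))) ≠ 0))
  sign : ∀ i, L < i → i < N → sgn w f i = dir π (f i)

end Pool.Agent.Work.MP_8ff565_lc
end

-- merged part: Pool.Agent.Work.MP_8ff565_lc.Bridge
section
/-!
From total orders of the faces to integer heights and back.

Plan. (->) Given the strict total order `lt`, put `rk f = card {g | lt g f}` (classical filter of
`Finset.univ`); `lt f g -> rk f < rk g` (strict inclusion), so by trichotomy
`lt f g <-> rk f < rk g` and `rk` is injective. Let `h r i = if hi : i < N then rk (r, ⟨i, hi⟩)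
else 0`. Each of `ab bc va vb vc` follows from the MV condition for one crease, by cases on the
parity of `i` (which end is `FaceUp`) and on the label. `Cr a b c d` gives, by cases on
`a < b` and `c < d`, an interleaving `lt a x, lt x b, lt b y` for a choice of the order of the ends.
(<-) `lt f g := h f.1 f.2 < h g.1 g.2`; case analysis on the creases (`Fin 2`, `Fin 3` by
`fin_cases`) and on `Joins`; `omega` after unfolding `Cr`.
-/

namespace Pool.Agent.Work.MP_8ff565_lc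

theorem Bridge_rank {α : Type} [Fintype α] (lt : α → α → Prop) (h : IsStrictTotalOrder α lt) :
    ∃ H : α → ℤ, Function.Injective H ∧ ∀ f g, lt f g ↔ H f < H g := by
  classical
  have h1 : ∀ f g, lt f g →
      (Finset.univ.filter (lt · f)).card < (Finset.univ.filter (lt · g)).card := by
    intro f g hfg
    refine Finset.card_lt_card ⟨fun a ha => ?_, fun hs => ?_⟩
    · simp only [Finset.mem_filter, Finset.mem_univ, true_and] at ha ⊢
      exact _root_.trans ha hfg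
    · have : f ∈ Finset.univ.filter (lt · f) := hs (by simpa using hfg)
      exact irrefl_of lt f (by simpa using this)
  refine ⟨fun f => (Finset.univ.filter (lt · f)).card, fun f g e => ?_, fun f g =>
    ⟨fun hfg => Int.ofNat_lt.2 (h1 f g hfg), fun hfg => ?_⟩⟩
  · have e' := Int.ofNat_inj.1 e
    rcases trichotomous_of lt f g with a | a | a
    · exact absurd e' (h1 _ _ a).ne
    · exact a
    · exact absurd e' (h1 _ _ a).ne'
  · have e' := Int.ofNat_lt.1 hfg
    rcases trichotomous_of lt f g with a | rfl | a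
    · exact a
    · exact absurd e' (lt_irrefl _)
    · exact absurd e' (h1 _ _ a).not_gt

theorem Bridge_up {N : ℕ} (c : Crease N) : FaceUp (ends c).2 ↔ ¬FaceUp (ends c).1 := by
  rcases c with ⟨r, j⟩ | ⟨r, j⟩ <;> simp only [ends, FaceUp, Fin.val_succ, Fin.val_castSucc] <;>
    omega

/-- the intermediate form -/
def Bridge_P (N : ℕ) (mv : Crease N → Bool) (H : Face N → ℤ) : Prop :=
  Function.Injective H ∧
    (∀ c, H (ends c).1 < H (ends c).2 ↔ (FaceUp (ends c).1 ↔ mv c = true)) ∧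
    ∀ c c', edge c = edge c' → ¬Cr (H (ends c).1) (H (ends c).2) (H (ends c').1) (H (ends c').2)

theorem Bridge_iff (N : ℕ) (mv : Crease N → Bool) : Foldable N mv ↔ ∃ H, Bridge_P N mv H := by
  constructor
  · rintro ⟨lt, h1, h2, h3⟩
    obtain ⟨H, a1, a2⟩ := Bridge_rank lt h1
    simp only [a2] at h2 h3
    refine ⟨H, a1, fun c => ?_, fun c c' e hc => ?_⟩
    · have b1 := h2 c (ends c).1 (ends c).2 (Or.inl rfl)
      have b2 := h2 c (ends c).2 (ends c).1 (Or.inr rfl)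
      rw [Bridge_up] at b2
      by_cases u : FaceUp (ends c).1 <;> by_cases m : mv c = true <;>
        simp only [u, m, not_true, not_false_eq_true, if_true, forall_const, Bool.false_eq_true,
          if_false, iff_true, iff_false, true_iff, false_iff, not_lt] at b1 b2 ⊢ <;> omega
    · have b1 := h3 c c' (ends c).1 (ends c).2 (ends c').1 (ends c').2 e (Or.inl rfl) (Or.inl rfl)
      have b2 := h3 c c' (ends c).1 (ends c).2 (ends c').2 (ends c').1 e (Or.inl rfl) (Or.inr rfl)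
      have b3 := h3 c c' (ends c).2 (ends c).1 (ends c').1 (ends c').2 e (Or.inr rfl) (Or.inl rfl)
      have b4 := h3 c c' (ends c).2 (ends c).1 (ends c').2 (ends c').1 e (Or.inr rfl) (Or.inr rfl)
      unfold Cr at hc
      omega
  · rintro ⟨H, h1, h2, h3⟩
    refine ⟨fun f g => H f < H g,
      { trichotomous := fun f g a b => h1 (by omega)
        irrefl := fun f => lt_irrefl _
        trans := fun f g k => lt_trans }, fun c f g hj u => ?_, fun c c' a b x y e hj hj' hc => ?_⟩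
    · have b1 := h2 c
      have b2 := Bridge_up c
      have b3 : H (ends c).1 ≠ H (ends c).2 := fun e => by
        rw [← h1 e] at b2
        tauto
      rcases hj with hj | hj <;> rw [hj] at b1 b2 b3 <;> dsimp only at b1 b2 b3 <;> split_ifs with m
      · exact b1.2 (iff_of_true u m)
      · exact lt_of_le_of_ne (not_lt.1 fun a => m ((b1.1 a).1 u)) b3.symm
      · exact lt_of_le_of_ne (not_lt.1 fun a => b2.1 u ((b1.1 a).2 m)) b3.symm
      · exact b1.2 (iff_of_false (b2.1 u) m)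
    · refine h3 c c' e ?_
      unfold Cr
      rcases hj with hj | hj <;> rcases hj' with hj' | hj' <;> rw [hj, hj'] <;> dsimp only <;> omega

theorem bridge (N : ℕ) (x : ℕ → Bool) :
    Foldable N (fun c => x (pos c)) ↔ ∃ h, Fold N x h := by
  rw [Bridge_iff]
  constructor
  · rintro ⟨H, h1, h2, h3⟩
    refine ⟨fun r i => if hi : i < N then H (r, ⟨i, hi⟩) else 0, fun r r' i j hi hj e => ?_,
      fun i hi => ?_, fun i hi => ?_, fun i hi => ?_, fun i hi => ?_, fun i hi => ?_,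
      fun r r' i j hi hj e => ?_, fun i j hi hj => ?_, fun i j hi hj => ?_⟩
    · simp only [hi, hj, dif_pos] at e
      simpa using h1 e
    · have b := h2 (.inl (0, ⟨i, hi⟩))
      have b' : H (0, ⟨i, hi⟩) ≠ H (1, ⟨i, hi⟩) := fun e => by simpa using h1 e
      simp only [hi, dif_pos]
      change H (0, ⟨i, hi⟩) < H (1, ⟨i, hi⟩) ↔ ((0 + i) % 2 = 0 ↔ x (5 * i) = true) at b
      cases hx : x (5 * i) <;> simp [hx] at b ⊢ <;> omega
    · have b := h2 (.inl (1, ⟨i, hi⟩))
      simp only [hi, dif_pos]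
      change H (1, ⟨i, hi⟩) < H (2, ⟨i, hi⟩) ↔ ((1 + i) % 2 = 0 ↔ x (5 * i + 1) = true) at b
      cases hx : x (5 * i + 1) <;> simp [hx] at b ⊢ <;> omega
    · have b := h2 (.inr (0, ⟨i, by omega⟩))
      simp only [hi, Nat.lt_of_succ_lt hi, dif_pos]
      change _ ↔ ((0 + i) % 2 = 0 ↔ x (5 * i + 2) = true) at b
      rw [zero_add] at b
      exact b
    · have b := h2 (.inr (1, ⟨i, by omega⟩))
      simp only [hi, Nat.lt_of_succ_lt hi, dif_pos]
      change _ ↔ ((1 + i) % 2 = 0 ↔ x (5 * i + 3) = true) at b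
      refine b.trans ?_
      cases hx : x (5 * i + 3) <;> simp <;> omega
    · have b := h2 (.inr (2, ⟨i, by omega⟩))
      simp only [hi, Nat.lt_of_succ_lt hi, dif_pos]
      change _ ↔ ((2 + i) % 2 = 0 ↔ x (5 * i + 4) = true) at b
      rw [Nat.add_mod_left] at b
      exact b
    · simp only [hi, hj, Nat.lt_of_succ_lt hi, Nat.lt_of_succ_lt hj, dif_pos]
      exact h3 (.inr (r, ⟨i, by omega⟩)) (.inr (r', ⟨j, by omega⟩)) (congrArg Sum.inr e)
    · simp only [hi, hj, dif_pos]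
      exact h3 (.inl (0, ⟨i, hi⟩)) (.inl (0, ⟨j, hj⟩)) rfl
    · simp only [hi, hj, dif_pos]
      exact h3 (.inl (1, ⟨i, hi⟩)) (.inl (1, ⟨j, hj⟩)) rfl
  · rintro ⟨h, F⟩
    refine ⟨fun f => h f.1 f.2, fun f g e => ?_, ?_, ?_⟩
    · have := F.inj _ _ _ _ f.2.2 g.2.2 e
      exact Prod.ext this.1 (Fin.ext this.2)
    · rintro (⟨r, i, hi⟩ | ⟨r, i, hi⟩) <;> fin_cases r
      · have b := F.ab i hi
        have b' : h 0 i ≠ h 1 i := fun e => by simpa using F.inj _ _ _ _ hi hi e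
        change h 0 i < h 1 i ↔ ((0 + i) % 2 = 0 ↔ x (5 * i) = true)
        cases hx : x (5 * i) <;> simp [hx] at b ⊢ <;> omega
      · have b := F.bc i hi
        change h 1 i < h 2 i ↔ ((1 + i) % 2 = 0 ↔ x (5 * i + 1) = true)
        cases hx : x (5 * i + 1) <;> simp [hx] at b ⊢ <;> omega
      · change h 0 i < h 0 (i + 1) ↔ ((0 + i) % 2 = 0 ↔ x (5 * i + 2) = true)
        rw [zero_add]
        exact F.va i (by omega)
      · change h 1 i < h 1 (i + 1) ↔ ((1 + i) % 2 = 0 ↔ x (5 * i + 3) = true)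
        refine (F.vb i (by omega)).trans ?_
        cases hx : x (5 * i + 3) <;> simp <;> omega
      · change h 2 i < h 2 (i + 1) ↔ ((2 + i) % 2 = 0 ↔ x (5 * i + 4) = true)
        rw [Nat.add_mod_left]
        exact F.vc i (by omega)
    · rintro (⟨r, i, hi⟩ | ⟨r, i, hi⟩) (⟨r', j, hj⟩ | ⟨r', j, hj⟩) e
      · fin_cases r <;> fin_cases r'
        · exact F.ncn i j hi hj
        · simp [edge] at e
        · simp [edge] at e
        · exact F.ncs i j hi hj
      · simp [edge] at e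
      · simp [edge] at e
      · exact F.ncv r r' i j (by omega) (by omega) (Sum.inr.inj e)

end Pool.Agent.Work.MP_8ff565_lc
end

-- merged part: Pool.Agent.Work.MP_8ff565_lc.Lay
section
/-!
The tables, the layout and the shape of the word produced by the reduction.
-/

namespace Pool.Agent.Work.MP_8ff565_lc

/-- The default letter. -/
def dl : Letter := (true, true, true)

/-- The hands of the 12 boundaries of a section. -/
def sec : List Bool :=
  [true, true, false, true, true, true, false, false, false, true, false, false]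

/-- The signs of the slots `0, ..., 12` of a section of type `b`. -/
def sigT (b : Bool) : List Bool :=
  if b = true then
    [true, true, false, true, true, true, false, false, false, true, false, false, true]
  else [true, true, true, false, true, true, false, false, false, true, false, false, true]

/-- The moves of the window at the boundaries of a section of type `b`. -/
def mvT (b : Bool) : List ℕ :=
  if b = true then [0, 1, 1, 0, 0, 1, 0, 0, 1, 1, 0, 1] else [0, 0, 2, 3, 0, 1, 0, 0, 1, 1, 0, 1]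

/-- The generic block (14 letters). -/
def wG : List Letter :=
  [(false, true, true), (true, true, true), (true, false, false), (false, true, true),
    (true, false, true), (true, true, false), (false, true, true), (true, true, true),
    (false, false, false), (false, false, false), (true, false, false), (true, true, true),
    (false, false, false), (true, false, false)]

/-- The neutral block of a clause pass (16 letters). -/
def wN : List Letter :=
  [(false, true, true), (true, true, true), (true, false, false), (false, true, true),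
    (true, false, true), (true, true, false), (false, true, true), (true, true, true),
    (false, false, false), (true, true, false), (true, false, true), (false, false, false),
    (true, false, false), (true, true, true), (false, false, false), (true, false, false)]

/-- The block of a positive literal (16 letters). -/
def wT : List Letter :=
  [(false, true, true), (true, true, true), (true, false, false), (false, true, true),
    (true, false, true), (true, true, false), (false, true, true), (true, true, true),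
    (false, false, false), (false, false, false), (true, false, false), (true, true, true),
    (true, true, false), (true, false, true), (false, false, false), (true, false, false)]

/-- The block of a negative literal (16 letters). -/
def wF : List Letter :=
  [(false, true, true), (true, true, true), (true, false, false), (false, true, true),
    (true, false, true), (true, true, false), (false, true, true), (true, true, true),
    (false, false, false), (true, false, false), (true, true, true), (false, false, false),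
    (true, false, false), (true, true, true), (false, false, false), (true, false, false)]

/-- The block of the clause `c` at the variable `v`. -/
def blk (c : List (ℕ × Bool)) (v : ℕ) : List Letter :=
  if (v, true) ∈ c then wT else if (v, false) ∈ c then wF else wN

/-- The middle of a generic pass, in forward order: `n` generic blocks and two more letters
(and a harmless letter afterwards). -/
def gm (n τ : ℕ) : Letter :=
  if τ < 14 * n then wG.getD (τ % 14) dl else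
  if τ = 14 * n + 1 then (true, false, false) else (true, true, true)

/-- A letter read backwards in time. -/
def rev (l : Letter) : Letter := (l.1, !l.2.1, !(xor l.2.2 l.1))

/-- The layout: `n` variables, `m` clauses; slots `Λ` (bottom of the left marker), `s` (first
section), `e` (end gadget), `p` (top of the right marker), `L` (end of the window); lengths
`q, Q` (markers), `S` (lock), `LB, LF` (passes), `R` (round); `a` is the start of the first
round and `N` the number of columns. -/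
structure Lay where
  n : ℕ
  m : ℕ
  q : ℕ
  Q : ℕ
  Λ : ℕ
  s : ℕ
  e : ℕ
  p : ℕ
  L : ℕ
  S : ℕ
  a : ℕ
  LB : ℕ
  LF : ℕ
  R : ℕ
  N : ℕ

/-- The start of the round `r`. -/
def Lay.t (y : Lay) (r : ℕ) : ℕ := y.a + r * y.R

/-- The relations between the parameters. -/
structure Lay.OK (y : Lay) : Prop where
  hn : 1 ≤ y.n
  hq : y.q = 48 * y.n + 63
  hQ : y.Q = 64 * y.n + 85
  evΛ : y.Λ % 2 = 0
  hs : y.s = y.Λ + y.q
  he : y.e = y.s + 12 * y.n
  hp : y.p = y.e + 2 + y.q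
  hL : y.L = y.p + y.Q + 1
  hS : y.S + y.Λ = y.L + 1
  ha : y.a = y.L + y.S + y.Q + 1
  hLB : y.LB = 2 * y.q + 14 * y.n + 2
  hLF : y.LF = 2 * y.q + 16 * y.n + 18
  hR : y.R = y.LB + y.LF + 2
  hN : y.N = y.t y.m + y.LB + 1
  hΛ : 2 * y.N + 2 ≤ 3 * y.Λ

theorem Lay.t_zero (y : Lay) : y.t 0 = y.a := by simp [Lay.t]

theorem Lay.t_succ (y : Lay) (r : ℕ) : y.t (r + 1) = y.t r + y.R := by
  simp only [Lay.t]; ring

theorem Lay.t_mono (y : Lay) {r r' : ℕ} (h : r ≤ r') : y.t r ≤ y.t r' :=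
  Nat.add_le_add_left (Nat.mul_le_mul_right _ h) _

theorem Lay.OK.t_odd {y : Lay} (hy : y.OK) (r : ℕ) : y.t r % 2 = 1 := by
  obtain ⟨h1, h2, h3, h4, h5, h6, h7, h8, h9, h10, h11, h12, h13, -, -⟩ := hy
  induction r with
  | zero => rw [Lay.t_zero]; omega
  | succ r ih => rw [Lay.t_succ]; omega

/-- The hands of the boundaries of the corridor up to the slot `L + 2`. -/
structure EtaOK (y : Lay) (η : ℕ → Bool) : Prop where
  pre : ∀ k, 1 ≤ k → k < y.Λ → η k = decide (k % 2 = 0)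
  left : ∀ k, y.Λ ≤ k → k < y.s → η k = true
  mid : ∀ v b, v < y.n → b < 12 → η (y.s + 12 * v + b) = sec.getD b false
  e0 : η y.e = true
  e1 : η (y.e + 1) = false
  right : ∀ k, y.e + 2 ≤ k → k ≤ y.p → η k = true
  run : ∀ k, y.p < k → k ≤ y.L → η k = false
  out : η (y.L + 1) = true

/-- The shape of the word `w` for the clauses `cl 0, ..., cl (m - 1)`. -/
structure Shape (y : Lay) (cl : ℕ → List (ℕ × Bool)) (w : ℕ → Letter) : Prop where
  et : EtaOK y fun k => eta (w k)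
  sync : ∀ k, 1 ≤ k → k < y.L → (w k).1 = false ∧ (w k).2.2 = false
  lock : ∀ i, y.L ≤ i → i < y.L + y.S → w i = (true, decide (i % 2 = 0), decide (i % 2 = 1))
  runQ : ∀ i, y.L + y.S ≤ i → i < y.L + y.S + y.Q → w i = (false, true, true)
  peak : w (y.L + y.S + y.Q) = (true, false, true)
  ms : ∀ i, y.p < i → (w i).1 = true ∨ (w i).2.1 = (w i).2.2
  b1 : ∀ r j, r ≤ y.m → j < y.q → w (y.t r + j) = (false, false, false)
  b2 : ∀ r τ, r ≤ y.m → τ < 14 * y.n + 2 →
    w (y.t r + y.q + (14 * y.n + 1 - τ)) = rev (gm y.n τ)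
  b3 : ∀ r j, r ≤ y.m → j < y.q → w (y.t r + y.q + 14 * y.n + 2 + j) = (false, false, false)
  b4 : ∀ r, r ≤ y.m → w (y.t r + y.LB) = (true, false, false)
  f1 : ∀ r j, r < y.m → j < y.q → w (y.t r + y.LB + 1 + j) = (false, true, true)
  f2 : ∀ r v b, r < y.m → v ≤ y.n → b < 16 →
    w (y.t r + y.LB + 1 + y.q + 16 * v + b) = (blk (cl r) v).getD b dl
  f3 : ∀ r, r < y.m → w (y.t r + y.LB + 1 + y.q + 16 * y.n + 16) = (true, true, true) ∧
    w (y.t r + y.LB + 1 + y.q + 16 * y.n + 17) = (true, false, false)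
  f4 : ∀ r j, r < y.m → j < y.q →
    w (y.t r + y.LB + 1 + y.q + 16 * y.n + 18 + j) = (false, true, true)
  f5 : ∀ r, r < y.m → w (y.t r + y.LB + 1 + y.LF) = (true, true, true)

/-- The sign of the slot `k` under the assignment `a`. -/
def sig (y : Lay) (a : ℕ → Bool) (k : ℕ) : Bool :=
  if k < y.s then true else
  if k < y.e then (sigT (a ((k - y.s) / 12))).getD ((k - y.s) % 12) false else
  if k = y.e + 1 then false else decide (k ≤ y.p)

/-- The move of the window at the boundary `k` under the assignment `a`. -/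
def mvA (y : Lay) (a : ℕ → Bool) (k : ℕ) : ℕ :=
  if k < y.s then 0 else
  if k < y.e then (mvT (a ((k - y.s) / 12))).getD ((k - y.s) % 12) 0 else
  if k ≤ y.e + 1 ∨ k = y.p ∨ k = y.L then 1 else 0

end Pool.Agent.Work.MP_8ff565_lc
end

-- merged part: Pool.Agent.Work.MP_8ff565_lc.GeoA
section
/-!
The corridor between the rows `A` and `B`: slot `k` is the interval between `A k` and `B k`.

`Geo.sep`: consecutive slots are disjoint (transitivity from `ab`, `va`, `vb`).
`Geo.walk`: a face of row `r` inside one of the slots `k, k + 1` has its neighbour across the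
side of the boundary `k` inside one of them too: the creases `A k A (k+1)` and `B k B (k+1)` are
nested, and the crease `r j, r (j+1)` crosses neither (`ncv`, `inj`, `omega`).

`clean_of_geo`. Suppose `B j` is inside slot `k`; `j ≠ k`, and `j ≠ k ± 1` by `sep`.
Case `k < j`: walk `j` down to `Λ`; the slot changes by at most one per step, stays `≥ 2`
(`2 Λ ≤ k + N`, `2 N + 2 ≤ 3 Λ`) and `< j`; for `k < j ≤ Λ` slot `k` is entirely below slot `j`
(the initial part is a rising staircase: `eta (w k) = decide (k % 2 = 0)`), a contradiction.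
Case `j < k`: walk `j` up to `L` keeping `j < k ≤ L + 1 + (j - Λ)`: for `j < Λ` the step of row `B`
goes up while the slots `L, ..., L + S` form a falling staircase (`Shape.lock`), so the slot cannot
advance from `k ≥ L + 1`; at `j = L` we get `B L` inside a slot `k` with `L < k ≤ L + S`, which
lies entirely below slot `L`.

`ports_of_geo`. `C 1` is inside slot `1`. If `C k` is inside slot `k`, `k` odd, `k + 1 ≤ Λ`, then
`C (k+1)` is inside slot `k + 1` (it is above `B (k+1)`); if `k` is even and `k + 2 ≤ Λ` then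
`C (k+1)` is in slot `k` or `k + 1`, and slot `k` is impossible because `C (k+2)` would be in slot
`k` or `k - 1`, below `B (k+2)`. So `C Λ` is in slot `Λ`. Define `f` by recursion
(`f (i+1) = f i` if `C (i+1)` is inside slot `f i`, else the neighbour on the side of parity `i`)
with the invariant `2 Λ ≤ f i + i`, `f i ≤ i`. The hand condition follows from `sep` and `vc`.
-/

namespace Pool.Agent.Work.MP_8ff565_lc

variable {N : ℕ} {w : ℕ → Letter} {h : Fin 3 → ℕ → ℤ}

theorem GeoA_ne (H : Geo N w h) {r r' : Fin 3} {i j : ℕ} (hi : 1 ≤ i) (hi' : i < N) (hj : 1 ≤ j)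
    (hj' : j < N) (hne : r ≠ r' ∨ i ≠ j) : h r i ≠ h r' j := fun e => by
  have := H.inj r r' i j hi hi' hj hj' e
  tauto

theorem Geo.sep (H : Geo N w h) {k : ℕ} (hk : 1 ≤ k) (hk' : k + 1 < N) :
    ((k % 2 = 0 ↔ eta (w k) = true) →
      max (h 0 k) (h 1 k) < min (h 0 (k + 1)) (h 1 (k + 1))) ∧
    (¬(k % 2 = 0 ↔ eta (w k) = true) →
      max (h 0 (k + 1)) (h 1 (k + 1)) < min (h 0 k) (h 1 k)) := by
  have h1 := H.ab k hk (by omega)
  have h2 := H.ab (k + 1) (by omega) hk'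
  have h3 := H.va k hk hk'
  have h4 := H.vb k hk hk'
  have e1 := GeoA_ne H (r := 0) (r' := 1) hk (by omega) hk (by omega) (Or.inl (by decide))
  have e2 := GeoA_ne H (r := 0) (r' := 1) (i := k + 1) (j := k + 1) (by omega) hk' (by omega) hk'
    (Or.inl (by decide))
  have e3 := GeoA_ne H (r := 0) (r' := 0) (i := k) (j := k + 1) hk (by omega) (by omega) hk'
    (Or.inr (by omega))
  have e4 := GeoA_ne H (r := 1) (r' := 1) (i := k) (j := k + 1) hk (by omega) (by omega) hk'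
    (Or.inr (by omega))
  refine ⟨fun hP => ?_, fun hP => ?_⟩
  · have h5 := h3.2 hP
    have h6 := h4.2 hP
    (clear * - e1 e2 e3 e4 h1 h2 h3 h4 h5 h6 hP; lia)
  · have h5 := mt h3.1 hP
    have h6 := mt h4.1 hP
    (clear * - e1 e2 e3 e4 h1 h2 h3 h4 h5 h6 hP; lia)

theorem GeoA_nc {a b x y : ℤ} (h1 : ¬Cr a b x y) (h2 : ¬Cr x y a b) (e1 : x ≠ a) (e2 : x ≠ b)
    (e3 : y ≠ a) (e4 : y ≠ b) : Btw x a b ↔ Btw y a b := by
  unfold Cr at h1 h2
  unfold Btw
  omega

theorem GeoA_ring {a b a' b' x : ℤ} (h1 : max a b < min a' b' ∨ max a' b' < min a b)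
    (h2 : b < a ↔ a' < b') (h3 : a ≠ b) (h4 : a' ≠ b') (e1 : x ≠ a) (e2 : x ≠ b) (e3 : x ≠ a')
    (e4 : x ≠ b') : (Btw x a b ∨ Btw x a' b') ↔ ¬(Btw x a a' ↔ Btw x b b') := by
  unfold Btw
  omega

theorem GeoA_sep' (H : Geo N w h) {k : ℕ} (hk : 1 ≤ k) (hk' : k + 1 < N) :
    max (h 0 k) (h 1 k) < min (h 0 (k + 1)) (h 1 (k + 1)) ∨
      max (h 0 (k + 1)) (h 1 (k + 1)) < min (h 0 k) (h 1 k) := by
  by_cases hP : (k % 2 = 0 ↔ eta (w k) = true)
  · exact Or.inl ((H.sep hk hk').1 hP)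
  · exact Or.inr ((H.sep hk hk').2 hP)

theorem Geo.walk (H : Geo N w h) {k j : ℕ} (r : Fin 3) (hk : 1 ≤ k) (hk' : k + 1 < N)
    (hj : 1 ≤ j) (hj' : j + 1 < N) (hp : j % 2 = k % 2) :
    (Btw (h r j) (h 0 k) (h 1 k) ∨ Btw (h r j) (h 0 (k + 1)) (h 1 (k + 1))) ↔
    (Btw (h r (j + 1)) (h 0 k) (h 1 k) ∨ Btw (h r (j + 1)) (h 0 (k + 1)) (h 1 (k + 1))) := by
  have hs := GeoA_sep' H hk hk'
  by_cases h0 : j = k ∧ r = 0
  · obtain ⟨rfl, rfl⟩ := h0
    unfold Btw
    (clear * - hs; lia)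
  by_cases h1 : j = k ∧ r = 1
  · obtain ⟨rfl, rfl⟩ := h1
    unfold Btw
    (clear * - h0 hs; lia)
  have a1 := H.ab k hk (by omega)
  have a2 := H.ab (k + 1) (by omega) hk'
  have e1 := GeoA_ne H (r := 0) (r' := 1) hk (by omega) hk (by omega) (Or.inl (by decide))
  have e2 := GeoA_ne H (r := 0) (r' := 1) (i := k + 1) (j := k + 1) (by omega) hk' (by omega) hk'
    (Or.inl (by decide))
  have x1 : ∀ s : Fin 3, ¬(j = k ∧ r = s) → h r j ≠ h s k := fun s hs =>
    GeoA_ne H hj (by omega) hk (by omega) (by grind)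
  have x2 : ∀ s : Fin 3, h r j ≠ h s (k + 1) := fun s =>
    GeoA_ne H hj (by omega) (by omega) hk' (Or.inr (by omega))
  have x3 : ∀ s : Fin 3, h r (j + 1) ≠ h s k := fun s =>
    GeoA_ne H (by omega) hj' hk (by omega) (Or.inr (by omega))
  have x4 : ∀ s : Fin 3, ¬(j = k ∧ r = s) → h r (j + 1) ≠ h s (k + 1) := fun s hs =>
    GeoA_ne H (by omega) hj' (by omega) hk' (by
      by_cases e : r = s
      · exact Or.inr fun e' => hs ⟨by omega, e⟩
      · exact Or.inl e)
  have n1 := GeoA_nc (H.ncv 0 r k j hk hk' hj hj' hp.symm) (H.ncv r 0 j k hj hj' hk hk' hp)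
    (x1 0 h0) (x2 0) (x3 0) (x4 0 h0)
  have n2 := GeoA_nc (H.ncv 1 r k j hk hk' hj hj' hp.symm) (H.ncv r 1 j k hj hj' hk hk' hp)
    (x1 1 h1) (x2 1) (x3 1) (x4 1 h1)
  have a3 : h 1 k < h 0 k ↔ h 0 (k + 1) < h 1 (k + 1) := by omega
  rw [GeoA_ring hs a3 e1 e2 (x1 0 h0) (x1 1 h1) (x2 0) (x2 1),
    GeoA_ring hs a3 e1 e2 (x3 0) (x3 1) (x4 0 h0) (x4 1 h1), n1, n2]

theorem GeoA_fwd (H : Geo N w h) {k j : ℕ} (r : Fin 3) (hk : 2 ≤ k) (hk' : k + 1 < N)
    (hj : 1 ≤ j) (hj' : j + 1 < N) (hb : Btw (h r j) (h 0 k) (h 1 k)) :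
    ∃ k', Btw (h r (j + 1)) (h 0 k') (h 1 k') ∧
      (k' = k ∨ (k' = k + 1 ∧ k % 2 = j % 2) ∨ (k' + 1 = k ∧ k % 2 ≠ j % 2)) := by
  by_cases hp : j % 2 = k % 2
  · rcases (H.walk r (by omega) hk' hj hj' hp).1 (Or.inl hb) with h1 | h1
    · exact ⟨k, h1, Or.inl rfl⟩
    · exact ⟨k + 1, h1, by omega⟩
  · obtain ⟨k, rfl⟩ : ∃ k', k = k' + 1 := ⟨k - 1, by omega⟩
    rcases (H.walk r (k := k) (by omega) (by omega) hj hj' (by omega)).1 (Or.inr hb) with h1 | h1
    · exact ⟨k, h1, by omega⟩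
    · exact ⟨k + 1, h1, Or.inl rfl⟩

theorem GeoA_bwd (H : Geo N w h) {k j : ℕ} (r : Fin 3) (hk : 2 ≤ k) (hk' : k + 1 < N)
    (hj : 1 ≤ j) (hj' : j + 1 < N) (hb : Btw (h r (j + 1)) (h 0 k) (h 1 k)) :
    ∃ k', Btw (h r j) (h 0 k') (h 1 k') ∧ k' ≤ k + 1 ∧ k ≤ k' + 1 := by
  by_cases hp : j % 2 = k % 2
  · rcases (H.walk r (by omega) hk' hj hj' hp).2 (Or.inl hb) with h1 | h1
    · exact ⟨k, h1, by omega⟩
    · exact ⟨k + 1, h1, by omega⟩
  · obtain ⟨k, rfl⟩ : ∃ k', k = k' + 1 := ⟨k - 1, by omega⟩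
    rcases (H.walk r (k := k) (by omega) (by omega) hj hj' (by omega)).2 (Or.inr hb) with h1 | h1
    · exact ⟨k, h1, by omega⟩
    · exact ⟨k + 1, h1, by omega⟩

theorem GeoA_self (j : ℕ) : ¬Btw (h 1 j) (h 0 j) (h 1 j) := by
  unfold Btw
  omega

theorem GeoA_next (H : Geo N w h) {j : ℕ} (hj : 1 ≤ j) (hj' : j + 1 < N) :
    ¬Btw (h 1 j) (h 0 (j + 1)) (h 1 (j + 1)) := by
  have := GeoA_sep' H hj hj'
  unfold Btw
  omega

theorem GeoA_prev (H : Geo N w h) {j : ℕ} (hj : 1 ≤ j) (hj' : j + 1 < N) :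
    ¬Btw (h 1 (j + 1)) (h 0 j) (h 1 j) := by
  have := GeoA_sep' H hj hj'
  unfold Btw
  omega

theorem GeoA_size {y : Lay} (hy : y.OK) :
    y.L + y.S + 2 < y.N ∧ y.S + y.Λ = y.L + 1 ∧ 2 * y.N + 2 ≤ 3 * y.Λ ∧ y.Λ + 2 < y.L ∧
      y.Λ % 2 = 0 := by
  have h0 := y.t_mono (Nat.zero_le y.m)
  rw [Lay.t_zero] at h0
  obtain ⟨h1, h2, h3, h4, h5, h6, h7, h8, h9, h10, h11, h12, h13, h14, h15⟩ := hy
  (clear * - h0 h10 h11 h14 h15 h2 h3 h4 h5 h6 h7 h8 h9; lia)

theorem GeoA_up {y : Lay} {cl : ℕ → List (ℕ × Bool)} (hs : Shape y cl w) {k : ℕ} (hk : 1 ≤ k)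
    (hk' : k < y.Λ) : k % 2 = 0 ↔ eta (w k) = true := by
  have : eta (w k) = decide (k % 2 = 0) := hs.et.pre k hk hk'
  rw [this, decide_eq_true_iff]

theorem GeoA_down {y : Lay} {cl : ℕ → List (ℕ × Bool)} (hs : Shape y cl w) {k : ℕ} (hk : y.L ≤ k)
    (hk' : k < y.L + y.S) : ¬(k % 2 = 0 ↔ eta (w k) = true) := by
  rw [hs.lock k hk hk']
  by_cases hp : k % 2 = 0 <;> simp [eta, hp]

theorem GeoA_rise {y : Lay} {cl : ℕ → List (ℕ × Bool)} (hy : y.OK) (hs : Shape y cl w)
    (H : Geo y.N w h) {k : ℕ} (hk : 1 ≤ k) (j : ℕ) (hj : k < j) (hj' : j ≤ y.Λ) :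
    max (h 0 k) (h 1 k) < min (h 0 j) (h 1 j) := by
  have hz := GeoA_size hy
  induction j with
  | zero => omega
  | succ j ih =>
    have h1 := (H.sep (k := j) (by omega) (by omega)).1 (GeoA_up hs (by omega) (by omega))
    by_cases e : k = j
    · subst e
      exact h1
    · have := ih (by omega) (by omega)
      omega

theorem GeoA_fall {y : Lay} {cl : ℕ → List (ℕ × Bool)} (hy : y.OK) (hs : Shape y cl w)
    (H : Geo y.N w h) {k : ℕ} (hk : y.L ≤ k) (j : ℕ) (hj : k < j) (hj' : j ≤ y.L + y.S) :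
    max (h 0 j) (h 1 j) < min (h 0 k) (h 1 k) := by
  have hz := GeoA_size hy
  induction j with
  | zero => omega
  | succ j ih =>
    have h1 := (H.sep (k := j) (by omega) (by omega)).2 (GeoA_down hs (by omega) (by omega))
    by_cases e : k = j
    · subst e
      exact h1
    · have := ih (by omega) (by omega)
      omega

theorem GeoA_low {y : Lay} {cl : ℕ → List (ℕ × Bool)} (hy : y.OK) (hs : Shape y cl w)
    (H : Geo y.N w h) (j : ℕ) : ∀ k, 1 ≤ k → k < j → j < y.N → j + 3 ≤ k + y.Λ →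
      ¬Btw (h 1 j) (h 0 k) (h 1 k) := by
  induction j with
  | zero => omega
  | succ j ih =>
    intro k h1 h2 h3 h4 hb
    by_cases hj : j + 1 ≤ y.Λ
    · have := GeoA_rise hy hs H h1 (j + 1) h2 hj
      unfold Btw at hb
      omega
    · obtain ⟨k', h5, h6, h7⟩ := GeoA_bwd H 1 (by omega) (by omega) (by omega) h3 hb
      have e1 : k' ≠ j := fun e => GeoA_self j (e ▸ h5)
      have e2 : k' ≠ j + 1 := fun e => GeoA_next H (j := j) (by omega) h3 (e ▸ h5)
      exact ih k' (by omega) (by omega) (by omega) (by omega) h5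

theorem GeoA_high {y : Lay} {cl : ℕ → List (ℕ × Bool)} (hy : y.OK) (hs : Shape y cl w)
    (H : Geo y.N w h) (d : ℕ) : ∀ j k, j + d = y.L → 1 ≤ j → j < k → k ≤ y.L + 1 + (j - y.Λ) →
      ¬Btw (h 1 j) (h 0 k) (h 1 k) := by
  have hz := GeoA_size hy
  induction d with
  | zero =>
    intro j k h1 h2 h3 h4 hb
    have := GeoA_fall hy hs H (k := j) (by omega) k h3 (by omega)
    unfold Btw at hb
    omega
  | succ d ih =>
    intro j k h1 h2 h3 h4 hb
    obtain ⟨k', h5, h6⟩ := GeoA_fwd H 1 (by omega) (by omega) h2 (by omega) hb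
    have e1 : k' ≠ j + 1 := fun e => GeoA_self (j + 1) (e ▸ h5)
    have e2 : k' ≠ j := fun e => GeoA_prev H h2 (by omega) (e ▸ h5)
    refine ih (j + 1) k' (by omega) (by omega) (by omega) ?_ h5
    by_contra hc
    have h7 := GeoA_fall hy hs H (k := k) (by (clear * - e1 e2 h1 h3 h6 hc hz; lia)) k' (by (clear * - e1 e2 h1 h4 h6 hc hz; lia)) (by omega)
    have h8 := (H.vb j h2 (by omega)).2 (GeoA_up hs h2 (by (clear * - e1 e2 h1 h4 h6 hc hz; omega)))
    unfold Btw at hb h5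
    (clear * - e1 e2 h1 h5 h6 h7 h8 hb hc hz; lia)

theorem clean_of_geo {y : Lay} {cl : ℕ → List (ℕ × Bool)} (hy : y.OK) (hs : Shape y cl w)
    (H : Geo y.N w h) (k : ℕ) (hk : 2 * y.Λ ≤ k + y.N) (hk' : k ≤ y.L + 1) : Clean y.N h k := by
  have hz := GeoA_size hy
  intro j hj hj'
  rcases lt_trichotomy k j with h1 | rfl | h1
  · exact GeoA_low hy hs H j k (by omega) h1 hj' (by omega)
  · exact GeoA_self k
  · exact GeoA_high hy hs H (y.L - j) j k (by omega) hj h1 (by omega)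

theorem GeoA_bc {y : Lay} {cl : ℕ → List (ℕ × Bool)} (hy : y.OK) (hs : Shape y cl w)
    (H : Geo y.N w h) {k : ℕ} (hk : 1 ≤ k) (hk' : k ≤ y.Λ) : h 1 k < h 2 k ↔ k % 2 = 0 := by
  have hz := GeoA_size hy
  rw [H.bc k hk (by omega), (hs.sync k hk (by omega)).2]
  simp

theorem GeoA_diag {y : Lay} {cl : ℕ → List (ℕ × Bool)} (hy : y.OK) (hs : Shape y cl w)
    (H : Geo y.N w h) (h1 : h 0 1 < h 2 1) (k : ℕ) (hk : 1 ≤ k) (hk' : k ≤ y.Λ) :
    Btw (h 2 k) (h 0 k) (h 1 k) := by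
  have hz := GeoA_size hy
  induction k with
  | zero => omega
  | succ k ih =>
    by_cases h0 : k = 0
    · subst h0
      have h2 := GeoA_bc hy hs H hk hk'
      have h3 := GeoA_ne H (r := 1) (r' := 2) hk (by omega) hk (by omega) (Or.inl (by decide))
      simp only [zero_add] at h2 h3 ⊢
      exact Or.inl ⟨h1, by omega⟩
    have h2 := ih (by omega) (by omega)
    refine ((H.walk 2 (k := k) (by omega) (by omega) (by omega) (by omega) rfl).1
      (Or.inl h2)).resolve_left fun h3 => ?_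
    by_cases hp : k % 2 = 0
    · obtain ⟨k', h4, h5⟩ := GeoA_fwd H 2 (k := k) (j := k + 1) (by omega) (by omega) (by omega)
        (by omega) h3
      have h6 := (GeoA_bc hy hs H (k := k + 1 + 1) (by omega) (by omega)).2 (by omega)
      have h7 := GeoA_rise hy hs H (k := k') (by omega) (k + 1 + 1) (by omega) (by omega)
      unfold Btw at h4
      omega
    · have h6 := (GeoA_bc hy hs H (k := k + 1) (by omega) (by omega)).2 (by omega)
      have h7 := GeoA_rise hy hs H (k := k) (by omega) (k + 1) (by omega) (by omega)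
      unfold Btw at h3
      omega

theorem GeoA_step (H : Geo N w h) {k i : ℕ} (hk : 2 ≤ k) (hk' : k + 1 < N) (hi : 1 ≤ i)
    (hi' : i + 1 < N) (hb : Btw (h 2 i) (h 0 k) (h 1 k)) :
    ∃ k', Btw (h 2 (i + 1)) (h 0 k') (h 1 k') ∧ (k' = k ∨
      (k' = k + 1 ∧ k % 2 = i % 2 ∧ (w i).2.1 = eta (w k)) ∨
      (k' + 1 = k ∧ k % 2 ≠ i % 2 ∧ (w i).2.1 = !eta (w k'))) := by
  obtain ⟨k', h1, h2⟩ := GeoA_fwd H 2 hk hk' hi hi' hb
  refine ⟨k', h1, ?_⟩
  have h3 := H.vc i hi hi'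
  rcases h2 with h2 | ⟨rfl, h2⟩ | ⟨rfl, h2⟩
  · exact Or.inl h2
  · refine Or.inr (Or.inl ⟨rfl, h2, ?_⟩)
    obtain ⟨h4, h5⟩ := H.sep (k := k) (by omega) hk'
    unfold Btw at hb h1
    cases h6 : (w i).2.1 <;> cases h7 : eta (w k) <;> simp only [h6, h7] at h3 h4 h5 ⊢ <;>
      simp at h3 h4 h5 <;> omega
  · refine Or.inr (Or.inr ⟨rfl, h2, ?_⟩)
    obtain ⟨h4, h5⟩ := H.sep (k := k') (by omega) (by omega)
    unfold Btw at hb h1
    cases h6 : (w i).2.1 <;> cases h7 : eta (w k') <;> simp only [h6, h7] at h3 h4 h5 ⊢ <;>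
      simp at h3 h4 h5 ⊢ <;> omega

theorem ports_of_geo {y : Lay} {cl : ℕ → List (ℕ × Bool)} (hy : y.OK) (hs : Shape y cl w)
    (H : Geo y.N w h) (h1 : h 0 1 < h 2 1) : ∃ f, Ports y.N y.Λ w h f := by
  have hz := GeoA_size hy
  have h2 : ∀ i k, ∃ k', y.Λ ≤ i → i + 1 < y.N → Btw (h 2 i) (h 0 k) (h 1 k) → 2 * y.Λ ≤ k + i →
      k ≤ i → Btw (h 2 (i + 1)) (h 0 k') (h 1 k') ∧ (k' = k ∨
        (k' = k + 1 ∧ k % 2 = i % 2 ∧ (w i).2.1 = eta (w k)) ∨
        (k' + 1 = k ∧ k % 2 ≠ i % 2 ∧ (w i).2.1 = !eta (w k'))) := by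
    intro i k
    by_cases hc : y.Λ ≤ i ∧ i + 1 < y.N ∧ Btw (h 2 i) (h 0 k) (h 1 k) ∧ 2 * y.Λ ≤ k + i ∧ k ≤ i
    · obtain ⟨c1, c2, c3, c4, c5⟩ := hc
      obtain ⟨k', hk'⟩ := GeoA_step H (by omega) (by omega) (by omega) c2 c3
      exact ⟨k', fun _ _ _ _ _ => hk'⟩
    · exact ⟨0, fun c1 c2 c3 c4 c5 => absurd ⟨c1, c2, c3, c4, c5⟩ hc⟩
  choose g hg using h2
  obtain ⟨f, f0, f1⟩ : ∃ f : ℕ → ℕ, f y.Λ = y.Λ ∧ ∀ i, y.Λ ≤ i → f (i + 1) = g i (f i) := by
    refine ⟨fun i => Nat.rec y.Λ (fun i k => if i < y.Λ then y.Λ else g i k) i, ?_, fun i hi => ?_⟩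
    · obtain ⟨l, hl⟩ : ∃ l, y.Λ = l + 1 := ⟨y.Λ - 1, by omega⟩
      have : ∀ i, i + 1 = y.Λ → (Nat.rec y.Λ (fun i k => if i < y.Λ then y.Λ else g i k) (i + 1) :
        ℕ) = y.Λ := fun i hi => if_pos (by omega)
      have h3 := this l hl.symm
      rwa [← hl] at h3
    · exact if_neg (by omega)
  have h3 : ∀ i, y.Λ ≤ i → i < y.N →
      Btw (h 2 i) (h 0 (f i)) (h 1 (f i)) ∧ 2 * y.Λ ≤ f i + i ∧ f i ≤ i := by
    intro i hi
    induction i, hi using Nat.le_induction with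
    | base =>
      intro _
      rw [f0]
      exact ⟨GeoA_diag hy hs H h1 _ (by omega) le_rfl, by omega, le_rfl⟩
    | succ i hi ih =>
      intro hi'
      obtain ⟨c1, c2, c3⟩ := ih (by omega)
      obtain ⟨d1, d2⟩ := hg i (f i) hi hi' c1 c2 c3
      rw [f1 i hi]
      exact ⟨d1, by omega, by omega⟩
  refine ⟨f, f0, fun i hi hi' => (h3 i hi hi').1, fun i hi hi' => ?_⟩
  obtain ⟨c1, c2, c3⟩ := h3 i hi (by omega)
  rw [f1 i hi]
  exact (hg i (f i) hi hi' c1 c2 c3).2

end Pool.Agent.Work.MP_8ff565_lc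
end

-- merged part: Pool.Agent.Work.MP_8ff565_lc.Key
section
/-!
The order of the visits of a walk to a position, and the substitution lemma.
-/

namespace Pool.Agent.Work.MP_8ff565_lc

/-- Time order, reversed inside an outward pleat. -/
def key (mv : ℕ → ℕ) (i : ℕ) : ℕ :=
  if mv i = 2 then i + 2 else if mv (i - 1) = 3 then i - 2 else i

section
variable {T : ℕ} {ps mv : ℕ → ℕ} {hand θ : ℕ → Bool}

theorem Walk.Key_cases (W : Walk T ps mv hand θ) {i : ℕ} (hi : 1 ≤ i) (hi' : i ≤ T) :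
    (mv i = 2 ∧ i + 2 ≤ T ∧ mv (i + 1) = 3 ∧ mv (i + 2) = 0 ∧ mv (i - 1) = 0 ∧ key mv i = i + 2) ∨
    (3 ≤ i ∧ mv (i - 1) = 3 ∧ mv (i - 2) = 2 ∧ mv i = 0 ∧ key mv i = i - 2) ∨
    (mv i ≠ 2 ∧ mv (i - 1) ≠ 3 ∧ key mv i = i) := by
  have h0 := W.zero
  have hT := W.last
  have a0 := W.adj i hi hi'
  unfold key
  split_ifs with h1 h2
  · have b1 : i ≠ T := by
      rintro rfl
      omega
    have c1 : mv (i + 1) = 3 := (W.adj (i + 1) (by omega) (by omega)).1.2 h1
    have b2 : i + 1 ≠ T := by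
      rintro rfl
      omega
    exact Or.inl ⟨h1, by omega, c1, (W.adj (i + 2) (by omega) (by omega)).2.2 c1, a0.2.1 h1, rfl⟩
  · have b1 : i - 1 ≠ 0 := by
      intro h
      rw [h] at h2
      omega
    have c1 : mv (i - 2) = 2 := (W.adj (i - 1) (by omega) (by omega)).1.1 h2
    have b2 : i - 2 ≠ 0 := by
      intro h
      rw [h] at c1
      omega
    exact Or.inr (Or.inl ⟨by omega, h2, c1, a0.2.2 h2, rfl⟩)
  · exact Or.inr (Or.inr ⟨h1, h2, rfl⟩)

theorem Walk.key_range (W : Walk T ps mv hand θ) {i : ℕ} (hi : 1 ≤ i) (hi' : i ≤ T) :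
    1 ≤ key mv i ∧ key mv i ≤ T := by
  have := W.Key_cases hi hi'
  omega

theorem Walk.key_inj (W : Walk T ps mv hand θ) {i j : ℕ} (hi : 1 ≤ i) (hi' : i ≤ T)
    (hj : 1 ≤ j) (hj' : j ≤ T) (e : key mv i = key mv j) : i = j := by
  have c : ∀ a b, a = b → mv a = mv b := fun a b h => congrArg mv h
  rcases W.Key_cases hi hi' with ⟨a1, a2, a3, a4, -, a5⟩ | ⟨a1, -, a2, -, a5⟩ | ⟨a1, a2, a5⟩ <;>
    rcases W.Key_cases hj hj' with ⟨b1, b2, b3, b4, -, b5⟩ | ⟨b1, -, b2, -, b5⟩ | ⟨b1, b2, b5⟩ <;>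
    rw [a5, b5] at e
  · omega
  · have := c (i + 2) (j - 2) (by omega)
    omega
  · have := c (i + 1) (j - 1) (by omega)
    omega
  · have := c (j + 2) (i - 2) (by omega)
    omega
  · omega
  · have := c j (i - 2) (by omega)
    omega
  · have := c (j + 1) (i - 1) (by omega)
    omega
  · have := c i (j - 2) (by omega)
    omega
  · exact e

theorem Walk.key_in (W : Walk T ps mv hand θ) {i : ℕ} (hi : 1 ≤ i) (hi' : i ≤ T)
    (e : mv i = 1) : key mv i = i ∧ (i < T → key mv (i + 1) = i + 1) ∧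
      ∀ j, i < j → j ≤ T → i < key mv j := by
  have h1 := W.Key_cases hi hi'
  refine ⟨by omega, fun h => ?_, fun j hj hj' => ?_⟩
  · have h2 := W.Key_cases (i := i + 1) (by omega) h
    rw [Nat.add_sub_cancel] at h2
    omega
  · have h2 := W.Key_cases (i := j) (by omega) hj'
    have c : ∀ a b, a = b → mv a = mv b := fun a b h => congrArg mv h
    have := c i (j - 1)
    have := c i (j - 2)
    omega

theorem Walk.key_out (W : Walk T ps mv hand θ) {i : ℕ} (hi : 1 ≤ i) (hi' : i < T)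
    (e : mv i = 2 ∨ mv i = 3) : key mv (i + 1) + 1 = key mv i := by
  have h1 := W.Key_cases hi hi'.le
  have h2 := W.Key_cases (i := i + 1) (by omega) hi'
  rw [Nat.add_sub_cancel] at h2
  omega

theorem Walk.key_adv (W : Walk T ps mv hand θ) {i j : ℕ} (hi : 1 ≤ i) (hij : i < j)
    (hj : j < T) (hp : i % 2 = j % 2) (ei : mv i = 0) (ej : mv j = 0) :
    max (key mv i) (key mv (i + 1)) < min (key mv j) (key mv (j + 1)) := by
  have c : ∀ a b, a = b → mv a = mv b := fun a b h => congrArg mv h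
  have h1 : key mv i ≤ i := by
    have := W.Key_cases hi (by omega)
    omega
  have h2 : key mv (i + 1) = i + 1 ∨ (key mv (i + 1) = i + 3 ∧ mv (i + 2) = 3) := by
    have := W.Key_cases (i := i + 1) (by omega) (by omega)
    rw [Nat.add_sub_cancel] at this
    have := c (i + 1 + 1) (i + 2) rfl
    omega
  have h3 : key mv j = j ∨ (key mv j = j - 2 ∧ mv (j - 2) = 2) := by
    have := W.Key_cases (i := j) (by omega) (by omega)
    omega
  have h4 : j + 1 ≤ key mv (j + 1) := by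
    have := W.Key_cases (i := j + 1) (by omega) (by omega)
    rw [Nat.add_sub_cancel] at this
    omega
  have := c (i + 2) j
  have := c (i + 2) (j - 2)
  have := c i (j - 2)
  lia

end

theorem Key_sorted {X : Type} (R : X → X → Prop) (H : X → ℤ) (hR : ∀ a b, R a b → R b a)
    (h : ∀ a b c d, R a b → R c d → H a < H c → H c < H b → H b < H d → False)
    {a b c d : X} (hab : R a b) (hcd : R c d) : ¬Cr (H a) (H b) (H c) (H d) := by
  rintro ⟨h1, h2, h3⟩
  rcases le_total (H a) (H b) with e | e <;> rcases le_total (H c) (H d) with e' | e'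
  · exact h a b c d hab hcd (by omega) (by omega) (by omega)
  · exact h a b d c hab (hR _ _ hcd) (by omega) (by omega) (by omega)
  · exact h b a c d (hR _ _ hab) hcd (by omega) (by omega) (by omega)
  · exact h b a d c (hR _ _ hab) (hR _ _ hcd) (by omega) (by omega) (by omega)

/-- Substitution. Points `x` carry a node `nd x`, the height `g` of the node and an inner height
`z x`; `R` is the (symmetric) crease relation and `μ` the partner map on nodes. -/
theorem subst_nc {X Y : Type} (R : X → X → Prop) (nd : X → Y) (μ : Y → Y) (g : Y → ℤ)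
    (z H : X → ℤ) (hR : ∀ a b, R a b → R b a)
    (hH : ∀ a b a' b', R a a' → R b b' →
      (H a < H b ↔ g (nd a) < g (nd b) ∨ (nd a = nd b ∧ z a < z b)))
    (hg : ∀ a b a' b', R a a' → R b b' → g (nd a) = g (nd b) → nd a = nd b)
    (hμ : ∀ a b, R a b → nd b = nd a ∨ nd b = μ (nd a))
    (h1 : ∀ a b c d, R a b → R c d →
      ¬(g (nd a) < g (nd c) ∧ g (nd c) < g (nd b) ∧ g (nd b) < g (nd d)))
    (h2 : ∀ a b c d, R a b → R c d → nd a = nd c → nd b = nd d → nd a ≠ nd b → z a < z c →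
      z d < z b)
    (h3 : ∀ a b c d, R a b → R c d → nd a = nd b → nd c = nd a → z a < z c → z c < z b →
      nd d = nd a ∧ z a < z d ∧ z d < z b)
    {a b c d : X} (hab : R a b) (hcd : R c d) : ¬Cr (H a) (H b) (H c) (H d) := by
  have _ := hg
  refine Key_sorted R H hR (fun a b c d hab hcd e1 e2 e3 => ?_) hab hcd
  have hba := hR _ _ hab
  have hdc := hR _ _ hcd
  rw [hH a c b d hab hcd] at e1
  rw [hH c b d a hcd hba] at e2
  rw [hH b d a c hba hdc] at e3
  rcases e1 with e1 | ⟨e1, f1⟩ <;> rcases e2 with e2 | ⟨e2, f2⟩ <;> rcases e3 with e3 | ⟨e3, f3⟩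
  · exact h1 a b c d hab hcd ⟨e1, e2, e3⟩
  · rcases hμ b a hba with u | u <;> rcases hμ d c hdc with v | v <;>
      rw [u] at e1 <;> rw [v, ← e3] at e1 e2 <;> omega
  · rcases hμ b a hba with u | u <;> rcases hμ c d hcd with v | v <;>
      rw [u, e2] at e1 <;> rw [v, e2] at e3 <;> omega
  · obtain ⟨u, -⟩ := h3 c d b a hcd hba (e2.trans e3) e2.symm f2 f3
    rw [u] at e1
    omega
  · rcases hμ a b hab with u | u <;> rcases hμ c d hcd with v | v <;>
      rw [u, e1] at e2 e3 <;> rw [v] at e3 <;> omega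
  · have := h2 a b c d hab hcd e1 e3 (fun u => by rw [← u, e1] at e2; omega) f1
    omega
  · obtain ⟨u, -⟩ := h3 a b c d hab hcd (e1.trans e2) e1.symm f1 f2
    rw [u, e1, e2] at e3
    omega
  · have := h3 a b c d hab hcd (e1.trans e2) e1.symm f1 f2
    omega

/-- Comparison of two-digit numbers. -/
theorem lex_lt {M g g' z z' : ℤ} (hz : 2 * |z| < M) (hz' : 2 * |z'| < M) :
    g * M + z < g' * M + z' ↔ g < g' ∨ (g = g' ∧ z < z') := by
  have h1 := le_abs_self z
  have h2 := neg_abs_le z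
  have h3 := le_abs_self z'
  have h4 := neg_abs_le z'
  have hM : 0 ≤ M := by linarith [abs_nonneg z]
  rcases lt_trichotomy g g' with h | rfl | h
  · have := mul_le_mul_of_nonneg_right (Int.add_one_le_of_lt h) hM
    exact ⟨fun _ => Or.inl h, fun _ => by linarith⟩
  · simp
  · have := mul_le_mul_of_nonneg_right (Int.add_one_le_of_lt h) hM
    exact ⟨fun _ => by linarith, fun _ => by omega⟩

end Pool.Agent.Work.MP_8ff565_lc
end

-- merged part: Pool.Agent.Work.MP_8ff565_lc.Node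
section
/-!
The order of the nodes. Node `k` (`1 ≤ k ≤ L`) is the window slot `k`, node `2 L + 1 - k` is the
bundle of the later columns whose face `C` lies in slot `k`.

Plan. For `1 ≤ u ≤ 2 L` let `k u = if u ≤ L then u else 2 L + 1 - u`, cell `c u = π (k u)`,
depth `δ u = if u ≤ L then key mv1 u else 2 L + 1 - key mv1 (k u)` (injective, in `[1, 2 L]`,
`δ L = L`, `δ (L + 1) = L + 1`), cell height `Hc c = if c ≤ Λ ∨ c % 2 = 0 then c else 4 L - c`
(cells are in `[1, L]`) and `g u = Hc (c u) * (8 L) + (if c u % 2 = 0 then δ u else - δ u)`.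
`ncv`: `subst_nc` with points the nodes, nodes the cells, `R u v` = consecutive with smaller one
of parity `ε`, `μ c = if c % 2 = ε then c + 1 else c - 1`. A step with `mv1 = 0` changes the cell
to `μ` of it, the other steps (and `L -> L + 1`) stay in the cell and change `δ` by one (so `h3`
is vacuous); `h2` is `key_adv` (and its mirror image; window nodes have `δ ≤ L <` bundle nodes).
`ncs`: both ends are in one cell and `δ u + δ (2 L + 1 - u) = 2 L + 1`.
-/

namespace Pool.Agent.Work.MP_8ff565_lc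

/-- The properties of the order of the nodes. -/
structure Nodes (L : ℕ) (η : ℕ → Bool) (π mv1 : ℕ → ℕ) (g : ℕ → ℤ) : Prop where
  inj : ∀ u v, 1 ≤ u → u ≤ 2 * L → 1 ≤ v → v ≤ 2 * L → g u = g v → u = v
  ncv : ∀ u v, 1 ≤ u → u < 2 * L → 1 ≤ v → v < 2 * L → u % 2 = v % 2 →
    ¬Cr (g u) (g (u + 1)) (g v) (g (v + 1))
  ncs : ∀ k k', 1 ≤ k → k ≤ L → 1 ≤ k' → k' ≤ L →
    ¬Cr (g k) (g (2 * L + 1 - k)) (g k') (g (2 * L + 1 - k'))
  dirW : ∀ k, 1 ≤ k → k ≤ L → (g k < g (k + 1) ↔ (k % 2 = 0 ↔ η k = true))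
  dirX : ∀ k, 1 ≤ k → k < L →
    ((g (2 * L + 1 - k) < g (2 * L - k) ↔ g k < g (k + 1)) ↔ mv1 k = 0)
  side : ∀ k, 1 ≤ k → k ≤ L → (g k < g (2 * L + 1 - k) ↔ π k % 2 = 0)

/-- The height of a cell. -/
def Node_H (Λ L c : ℕ) : ℤ := if c ≤ Λ ∨ c % 2 = 0 then c else 4 * L - c

/-- The height of a point of depth `δ` in the cell `c`. -/
def Node_G (Λ L c : ℕ) (δ : ℤ) : ℤ := Node_H Λ L c * (8 * L) + if c % 2 = 0 then δ else -δ

theorem Node_H_spec (Λ L c : ℕ) : ((c ≤ Λ ∨ c % 2 = 0) ∧ Node_H Λ L c = c) ∨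
    (Λ < c ∧ c % 2 = 1 ∧ Node_H Λ L c = 4 * L - c) := by
  unfold Node_H
  split_ifs with h
  · exact Or.inl ⟨h, rfl⟩
  · exact Or.inr ⟨by omega, by omega, rfl⟩

theorem Node_G_lt {Λ L c c' : ℕ} {δ δ' : ℤ} (hc : c ≤ L) (hc' : c' ≤ L) (h1 : 1 ≤ δ)
    (h2 : δ ≤ 2 * L) (h1' : 1 ≤ δ') (h2' : δ' ≤ 2 * L) :
    Node_G Λ L c δ < Node_G Λ L c' δ' ↔ Node_H Λ L c < Node_H Λ L c' ∨
      (c = c' ∧ ((c % 2 = 0 ∧ δ < δ') ∨ (c % 2 = 1 ∧ δ' < δ))) := by
  have hz : ∀ (c : ℕ) (δ : ℤ), 1 ≤ δ → δ ≤ 2 * L →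
      2 * |if c % 2 = 0 then δ else -δ| < 8 * (L : ℤ) := by
    intro c δ h1 h2
    split_ifs
    · rw [abs_of_pos (by omega)]; omega
    · rw [abs_neg, abs_of_pos (by omega)]; omega
  unfold Node_G
  rw [lex_lt (hz c δ h1 h2) (hz c' δ' h1' h2')]
  have a1 := Node_H_spec Λ L c
  have a2 := Node_H_spec Λ L c'
  refine or_congr Iff.rfl ⟨fun h => ?_, fun h => ?_⟩
  · have e : c = c' := by (clear * - a1 a2 h h1 h1' hc hc'; omega)
    subst e
    have h3 := h.2
    refine ⟨rfl, ?_⟩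
    split_ifs at h3 <;> omega
  · obtain ⟨rfl, h3⟩ := h
    refine ⟨rfl, ?_⟩
    split_ifs <;> omega

theorem Node_cr {a b c d : ℤ} (h : Cr a b c d) : (a < c ∧ c < b ∧ b < d) ∨ (a < d ∧ d < b ∧ b < c) ∨
    (b < c ∧ c < a ∧ a < d) ∨ (b < d ∧ d < a ∧ a < c) := by
  unfold Cr at h
  (clear * - h; lia)

theorem Node_cr_l {a b c d : ℤ} (h : Cr a b c d) : Cr b a c d := by
  unfold Cr at h ⊢
  rwa [min_comm b a, max_comm b a]

theorem Node_cr_r {a b c d : ℤ} (h : Cr a b c d) : Cr a b d c := by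
  unfold Cr at h ⊢
  rwa [min_comm d c, max_comm d c]

theorem Node_nc {Λ L b b' : ℕ} {α β α' β' : ℤ} (hΛ : Λ % 2 = 0) (hb : b + 1 ≤ L)
    (hb' : b' + 1 ≤ L) (hp : b % 2 = b' % 2) (hα : 1 ≤ α ∧ α ≤ 2 * L) (hβ : 1 ≤ β ∧ β ≤ 2 * L)
    (hα' : 1 ≤ α' ∧ α' ≤ 2 * L) (hβ' : 1 ≤ β' ∧ β' ≤ 2 * L)
    (hs : (α < α' ∧ β < β') ∨ (α' < α ∧ β' < β)) :
    ¬Cr (Node_G Λ L b α) (Node_G Λ L (b + 1) β) (Node_G Λ L b' α') (Node_G Λ L (b' + 1) β') := by
  intro h
  have hb0 : b ≤ L := by omega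
  have hb0' : b' ≤ L := by omega
  have a1 := Node_H_spec Λ L b
  have a2 := Node_H_spec Λ L (b + 1)
  have a3 := Node_H_spec Λ L b'
  have a4 := Node_H_spec Λ L (b' + 1)
  rcases Node_cr h with ⟨h1, h2, h3⟩ | ⟨h1, h2, h3⟩ | ⟨h1, h2, h3⟩ | ⟨h1, h2, h3⟩
  all_goals
    rw [Node_G_lt (by assumption) (by assumption) (by omega) (by omega) (by omega) (by omega)]
      at h1 h2 h3
    (clear * - a1 a2 a3 a4 h1 h2 h3 hb hb' hp hs hΛ hα'; lia)

theorem Node_one {Λ L c : ℕ} {δ δ' : ℤ} (h : δ' = δ + 1 ∨ δ = δ' + 1) :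
    Node_G Λ L c δ' = Node_G Λ L c δ + 1 ∨ Node_G Λ L c δ = Node_G Λ L c δ' + 1 := by
  unfold Node_G
  split_ifs <;> omega

/-- The cell of a node. -/
def Node_c (L : ℕ) (π : ℕ → ℕ) (u : ℕ) : ℕ := if u ≤ L then π u else π (2 * L + 1 - u)

/-- The depth of a node. -/
def Node_d (L : ℕ) (mv : ℕ → ℕ) (u : ℕ) : ℤ :=
  if u ≤ L then key mv u else 2 * L + 1 - key mv (2 * L + 1 - u)

theorem Node_cW {L k : ℕ} (π : ℕ → ℕ) (h : k ≤ L) : Node_c L π k = π k := if_pos h

theorem Node_dW {L k : ℕ} (mv : ℕ → ℕ) (h : k ≤ L) : Node_d L mv k = key mv k := if_pos h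

theorem Node_cX {L k u : ℕ} (π : ℕ → ℕ) (h : k ≤ L) (hu : u + k = 2 * L + 1) :
    Node_c L π u = π k := by
  rw [Node_c, if_neg (by omega), show 2 * L + 1 - u = k by omega]

theorem Node_dX {L k u : ℕ} (mv : ℕ → ℕ) (h : k ≤ L) (hu : u + k = 2 * L + 1) :
    Node_d L mv u = 2 * L + 1 - key mv k := by
  rw [Node_d, if_neg (by omega), show 2 * L + 1 - u = k by omega]

section
variable {L : ℕ} {η θ : ℕ → Bool} {π mv : ℕ → ℕ}

theorem Node_rng (W : Walk L π mv η θ) {k : ℕ} (h1 : 1 ≤ k) (h2 : k ≤ L) :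
    π k ≤ L ∧ 1 ≤ key mv k ∧ key mv k ≤ L :=
  ⟨(W.pos k h1 h2).2.trans h2, W.key_range h1 h2⟩

theorem Node_range (W : Walk L π mv η θ) {u : ℕ} (h1 : 1 ≤ u) (h2 : u ≤ 2 * L) :
    Node_c L π u ≤ L ∧ 1 ≤ Node_d L mv u ∧ Node_d L mv u ≤ 2 * L := by
  by_cases h : u ≤ L
  · have := Node_rng W h1 h
    rw [Node_cW π h, Node_dW mv h]
    omega
  · have := Node_rng W (k := 2 * L + 1 - u) (by omega) (by omega)
    rw [Node_cX π (k := 2 * L + 1 - u) (by omega) (by omega),
      Node_dX mv (k := 2 * L + 1 - u) (by omega) (by omega)]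
    omega

theorem Node_d_inj (W : Walk L π mv η θ) {u v : ℕ} (h1 : 1 ≤ u) (h2 : u ≤ 2 * L) (h3 : 1 ≤ v)
    (h4 : v ≤ 2 * L) (e : Node_d L mv u = Node_d L mv v) : u = v := by
  by_cases hu : u ≤ L <;> by_cases hv : v ≤ L
  · rw [Node_dW mv hu, Node_dW mv hv] at e
    exact W.key_inj h1 hu h3 hv (by omega)
  · have a1 := Node_rng W h1 hu
    have a2 := Node_rng W (k := 2 * L + 1 - v) (by omega) (by omega)
    rw [Node_dW mv hu, Node_dX mv (k := 2 * L + 1 - v) (by omega) (by omega)] at e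
    omega
  · have a1 := Node_rng W h3 hv
    have a2 := Node_rng W (k := 2 * L + 1 - u) (by omega) (by omega)
    rw [Node_dW mv hv, Node_dX mv (k := 2 * L + 1 - u) (by omega) (by omega)] at e
    omega
  · rw [Node_dX mv (k := 2 * L + 1 - u) (by omega) (by omega),
      Node_dX mv (k := 2 * L + 1 - v) (by omega) (by omega)] at e
    have := W.key_inj (i := 2 * L + 1 - u) (j := 2 * L + 1 - v) (by omega) (by omega) (by omega)
      (by omega) (by omega)
    omega

theorem Node_wstep (W : Walk L π mv η θ) {k : ℕ} (h1 : 1 ≤ k) (h2 : k < L) :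
    (mv k = 0 ∧ π (k + 1) = π k + 1 ∧ π k % 2 = k % 2 ∧ η k = θ (π k)) ∨
    (mv k = 0 ∧ π (k + 1) + 1 = π k ∧ π k % 2 ≠ k % 2 ∧ η k = !θ (π (k + 1))) ∨
    (mv k ≠ 0 ∧ π (k + 1) = π k ∧ key mv (k + 1) = key mv k + 1 ∧ η k = dir π k) ∨
    (mv k ≠ 0 ∧ π (k + 1) = π k ∧ key mv (k + 1) + 1 = key mv k ∧ η k = !dir π k) := by
  rcases W.step k h1 h2 with h | h | ⟨a, b, c⟩ | ⟨a, b, c⟩
  · exact Or.inl h
  · exact Or.inr (Or.inl h)
  · obtain ⟨e1, e2, -⟩ := W.key_in h1 h2.le a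
    exact Or.inr (Or.inr (Or.inl ⟨by omega, b, by rw [e1, e2 h2], c⟩))
  · exact Or.inr (Or.inr (Or.inr ⟨by omega, b, W.key_out h1 h2 a, c⟩))

theorem Node_step (W : Walk L π mv η θ) (hc : mv L = 1) {u : ℕ} (h1 : 1 ≤ u) (h2 : u < 2 * L) :
    (Node_c L π (u + 1) = Node_c L π u ∧ (Node_d L mv (u + 1) = Node_d L mv u + 1 ∨
      Node_d L mv u = Node_d L mv (u + 1) + 1)) ∨
    (((u < L ∧ mv u = 0) ∨ (L < u ∧ mv (2 * L - u) = 0)) ∧
      ((Node_c L π (u + 1) = Node_c L π u + 1 ∧ Node_c L π u % 2 = u % 2) ∨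
        (Node_c L π u = Node_c L π (u + 1) + 1 ∧ Node_c L π (u + 1) % 2 = u % 2))) := by
  rcases lt_trichotomy u L with h | h | h
  · rw [Node_cW π h.le, Node_dW mv h.le, Node_cW π (k := u + 1) h, Node_dW mv (k := u + 1) h]
    have := Node_wstep W h1 h
    (clear * - h this; lia)
  · subst h
    have := (W.key_in h1 le_rfl hc).1
    rw [Node_cW π le_rfl, Node_dW mv le_rfl, Node_cX π (k := u) le_rfl (by omega),
      Node_dX mv (k := u) le_rfl (by omega)]
    (clear * - hc this; lia)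
  · obtain ⟨k, hk⟩ : ∃ k, u + k = 2 * L := ⟨2 * L - u, by omega⟩
    rw [Node_cX π (k := k + 1) (u := u) (by omega) (by omega),
      Node_dX mv (k := k + 1) (u := u) (by omega) (by omega),
      Node_cX π (k := k) (u := u + 1) (by omega) (by omega),
      Node_dX mv (k := k) (u := u + 1) (by omega) (by omega), show 2 * L - u = k by omega]
    have := Node_wstep W (k := k) (by omega) (by omega)
    (clear * - h hk this; lia)

theorem Node_sep (W : Walk L π mv η θ) {u v : ℕ} (h1 : 1 ≤ u) (huv : u < v) (h2 : v < 2 * L)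
    (hp : u % 2 = v % 2) (hu : (u < L ∧ mv u = 0) ∨ (L < u ∧ mv (2 * L - u) = 0))
    (hv : (v < L ∧ mv v = 0) ∨ (L < v ∧ mv (2 * L - v) = 0)) :
    max (Node_d L mv u) (Node_d L mv (u + 1)) < min (Node_d L mv v) (Node_d L mv (v + 1)) := by
  rcases hu with ⟨hu, eu⟩ | ⟨hu, eu⟩ <;> rcases hv with ⟨hv, ev⟩ | ⟨hv, ev⟩
  · have := W.key_adv h1 huv hv hp eu ev
    rw [Node_dW mv hu.le, Node_dW mv hv.le, Node_dW mv (k := u + 1) hu, Node_dW mv (k := v + 1) hv]
    omega
  · have a1 := Node_rng W h1 hu.le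
    have a2 := Node_rng W (k := u + 1) (by omega) hu
    have a3 := Node_rng W (k := 2 * L - v) (by omega) (by omega)
    have a4 := Node_rng W (k := 2 * L - v + 1) (by omega) (by omega)
    rw [Node_dW mv hu.le, Node_dW mv (k := u + 1) hu,
      Node_dX mv (k := 2 * L - v + 1) (u := v) (by omega) (by omega),
      Node_dX mv (k := 2 * L - v) (u := v + 1) (by omega) (by omega)]
    omega
  · omega
  · have := W.key_adv (i := 2 * L - v) (j := 2 * L - u) (by omega) (by omega) (by omega) (by omega)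
      ev eu
    rw [Node_dX mv (k := 2 * L - u + 1) (u := u) (by omega) (by omega),
      Node_dX mv (k := 2 * L - u) (u := u + 1) (by omega) (by omega),
      Node_dX mv (k := 2 * L - v + 1) (u := v) (by omega) (by omega),
      Node_dX mv (k := 2 * L - v) (u := v + 1) (by omega) (by omega)]
    omega

end

theorem nodes_of_walk {Λ L : ℕ} {η : ℕ → Bool} {π mv1 : ℕ → ℕ} (hΛ : Λ % 2 = 0) (hL : 1 ≤ L)
    (W : Walk L π mv1 η (cellHand Λ)) (hc : mv1 L = 1 ∧ η L = dir π L) :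
    ∃ g, Nodes L η π mv1 g := by
  refine ⟨fun u => Node_G Λ L (Node_c L π u) (Node_d L mv1 u), ?_, ?_, ?_, ?_, ?_, ?_⟩
  · intro u v h1 h2 h3 h4 e
    have a1 := Node_range W h1 h2
    have a2 := Node_range W h3 h4
    have b1 := (Node_G_lt (Λ := Λ) a1.1 a2.1 a1.2.1 a1.2.2 a2.2.1 a2.2.2).not.1 e.not_lt
    have b2 := (Node_G_lt (Λ := Λ) a2.1 a1.1 a2.2.1 a2.2.2 a1.2.1 a1.2.2).not.1 e.symm.not_lt
    have c1 := Node_H_spec Λ L (Node_c L π u)
    have c2 := Node_H_spec Λ L (Node_c L π v)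
    have c3 : Node_c L π u = Node_c L π v := by omega
    exact Node_d_inj W h1 h2 h3 h4 (by (clear * - b1 b2 c1 c2 c3 hΛ; lia))
  · intro u v h1 h2 h3 h4 hp hcr
    rcases Node_step W hc.1 h1 h2 with ⟨e, hd⟩ | ⟨hu, hu'⟩
    · have := Node_one (Λ := Λ) (L := L) (c := Node_c L π u) hd
      simp only [e, Cr] at hcr
      (clear * - hcr this; omega)
    rcases Node_step W hc.1 h3 h4 with ⟨e, hd⟩ | ⟨hv, hv'⟩
    · have := Node_one (Λ := Λ) (L := L) (c := Node_c L π v) hd
      simp only [e, Cr] at hcr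
      (clear * - hcr this; omega)
    have hne : u ≠ v := by
      rintro rfl
      exact lt_irrefl _ hcr.1
    have hs : max (Node_d L mv1 u) (Node_d L mv1 (u + 1)) <
        min (Node_d L mv1 v) (Node_d L mv1 (v + 1)) ∨ max (Node_d L mv1 v) (Node_d L mv1 (v + 1)) <
        min (Node_d L mv1 u) (Node_d L mv1 (u + 1)) :=
      (lt_or_gt_of_ne hne).imp (fun h => Node_sep W h1 h h4 hp hu hv)
        fun h => Node_sep W h3 h h2 hp.symm hv hu
    have a1 := Node_range W h1 h2.le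
    have a2 := Node_range W (u := u + 1) (by omega) h2
    have a3 := Node_range W h3 h4.le
    have a4 := Node_range W (u := v + 1) (by omega) h4
    rcases hu' with ⟨e1, p1⟩ | ⟨e1, p1⟩ <;> rcases hv' with ⟨e2, p2⟩ | ⟨e2, p2⟩ <;>
      simp only [e1, e2] at hcr
    · exact Node_nc hΛ (by omega) (by omega) (by omega) a1.2 a2.2 a3.2 a4.2 (by (clear * - hs; omega)) hcr
    · exact Node_nc hΛ (by omega) (by omega) (by omega) a1.2 a2.2 a4.2 a3.2 (by (clear * - hs; omega))
        (Node_cr_r hcr)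
    · exact Node_nc hΛ (by omega) (by omega) (by omega) a2.2 a1.2 a3.2 a4.2 (by (clear * - hs; omega))
        (Node_cr_l hcr)
    · exact Node_nc hΛ (by omega) (by omega) (by omega) a2.2 a1.2 a4.2 a3.2 (by (clear * - hs; omega))
        (Node_cr_l (Node_cr_r hcr))
  · intro k k' h1 h2 h3 h4 hcr
    have a1 := Node_rng W h1 h2
    have a2 := Node_rng W h3 h4
    simp only [Node_cW π h2, Node_dW mv1 h2, Node_cW π h4, Node_dW mv1 h4,
      Node_cX π (u := 2 * L + 1 - k) h2 (by omega), Node_dX mv1 (u := 2 * L + 1 - k) h2 (by omega),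
      Node_cX π (u := 2 * L + 1 - k') h4 (by omega),
      Node_dX mv1 (u := 2 * L + 1 - k') h4 (by omega)] at hcr
    rcases Node_cr hcr with ⟨b1, b2, b3⟩ | ⟨b1, b2, b3⟩ | ⟨b1, b2, b3⟩ | ⟨b1, b2, b3⟩
    all_goals
      rw [Node_G_lt (by omega) (by omega) (by omega) (by omega) (by omega) (by omega)] at b1 b2 b3
      by_cases e : π k = π k'
      · rw [e] at b1 b2 b3
        omega
      · omega
  · intro k h1 h2
    have a1 := Node_rng W h1 h2
    rcases h2.lt_or_eq with h | h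
    · have a2 := Node_rng W (k := k + 1) (by omega) h
      simp only [Node_cW π h2, Node_dW mv1 h2, Node_cW π (k := k + 1) h, Node_dW mv1 (k := k + 1) h]
      rw [Node_G_lt (by omega) (by omega) (by omega) (by omega) (by omega) (by omega)]
      have c1 := Node_H_spec Λ L (π k)
      have c2 := Node_H_spec Λ L (π (k + 1))
      rcases Node_wstep W h1 h with ⟨-, e1, e2, e3⟩ | ⟨-, e1, e2, e3⟩ | ⟨-, e1, e2, e3⟩ |
        ⟨-, e1, e2, e3⟩
      · rw [e3, cellHand, decide_eq_true_eq]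
        (clear * - a2 c1 c2 e1 e2 hΛ; lia)
      · rw [e3, cellHand, Bool.not_eq_true', decide_eq_false_iff_not]
        (clear * - a1 c1 c2 e1 e2 hΛ; lia)
      · rw [e3, dir, decide_eq_true_eq, e1]
        (clear * - e1 e2; lia)
      · rw [e3, dir, Bool.not_eq_true', decide_eq_false_iff_not, e1]
        (clear * - e1 e2; lia)
    · subst h
      have := (W.key_in h1 le_rfl hc.1).1
      simp only [Node_cW π h2, Node_dW mv1 h2, Node_cX π (u := k + 1) h2 (by omega),
        Node_dX mv1 (u := k + 1) h2 (by omega)]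
      rw [Node_G_lt (by omega) (by omega) (by omega) (by omega) (by omega) (by omega), hc.2, dir,
        decide_eq_true_eq]
      (clear * - this; omega)
  · intro k h1 h
    have h2 := h.le
    have a1 := Node_rng W h1 h2
    have a2 := Node_rng W (k := k + 1) (by omega) h
    simp only [Node_cW π h2, Node_dW mv1 h2, Node_cW π (k := k + 1) h, Node_dW mv1 (k := k + 1) h,
      Node_cX π (u := 2 * L + 1 - k) h2 (by omega), Node_dX mv1 (u := 2 * L + 1 - k) h2 (by omega),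
      Node_cX π (u := 2 * L - k) (k := k + 1) h (by omega),
      Node_dX mv1 (u := 2 * L - k) (k := k + 1) h (by omega)]
    rw [Node_G_lt (by omega) (by omega) (by omega) (by omega) (by omega) (by omega),
      Node_G_lt (by omega) (by omega) (by omega) (by omega) (by omega) (by omega)]
    rcases Node_wstep W h1 h with ⟨e0, e1, -, -⟩ | ⟨e0, e1, -, -⟩ | ⟨e0, e1, e2, -⟩ |
      ⟨e0, e1, e2, -⟩
    · omega
    · omega
    · rw [e1]
      omega
    · rw [e1]
      (clear * - e0 e1 e2; lia)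
  · intro k h1 h2
    have a1 := Node_rng W h1 h2
    simp only [Node_cW π h2, Node_dW mv1 h2, Node_cX π (u := 2 * L + 1 - k) h2 (by omega),
      Node_dX mv1 (u := 2 * L + 1 - k) h2 (by omega)]
    rw [Node_G_lt (by omega) (by omega) (by omega) (by omega) (by omega) (by omega)]
    omega

end Pool.Agent.Work.MP_8ff565_lc
end

-- merged part: Pool.Agent.Work.MP_8ff565_lc.NPmem
section
/-!
`MAP_3` is in `NP`.

Plan. Use `mem_NP_of_ls`. With `n = (x.length + 3) / 5` the certificate is the `3 n x 3 n`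
comparison matrix, or the heights in unary: `hw r i` = number of `true` among the bits
`3 n (3 i + r), ..., 3 n (3 i + r) + 3 n - 1` of the certificate (ranks are `< 3 n`). The verifier
checks `x.length + 3 = 5 n` and the fields of `Fold` with bounded quantifiers over `ℕ`
(`fun_prop` proves `LS`; see `Work/MP_27b024_lc/Main.lean` for a model). A `Fold` can be
normalised to ranks: `h' r i = card {(r', i') | i' < n ∧ h r' i' < h r i}`.
-/

namespace Pool.Agent.Work.MP_8ff565_lc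

open Pool.Agent.Lib.Cx

/-- Interleaving of natural numbers. -/
abbrev NPmem_cr (a b c d : ℕ) : Prop :=
  min a b < min c d ∧ min c d < max a b ∧ max a b < max c d

/-- The conditions of a folded state, with bounded quantifiers. -/
abbrev NPmem_chk (N : ℕ) (x : ℕ → Bool) (H : ℕ → ℕ → ℕ) : Prop :=
  (∀ r < 3, ∀ r' < 3, ∀ i < N, ∀ j < N, H r i = H r' j → r = r' ∧ i = j) ∧
  (∀ i < N, (H 1 i < H 0 i ↔ (i % 2 = 0 ↔ x (5 * i) = false)) ∧
    (H 1 i < H 2 i ↔ (i % 2 = 0 ↔ x (5 * i + 1) = false))) ∧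
  (∀ i < N - 1, (H 0 i < H 0 (i + 1) ↔ (i % 2 = 0 ↔ x (5 * i + 2) = true)) ∧
    (H 1 i < H 1 (i + 1) ↔ (i % 2 = 0 ↔ x (5 * i + 3) = false)) ∧
    (H 2 i < H 2 (i + 1) ↔ (i % 2 = 0 ↔ x (5 * i + 4) = true))) ∧
  (∀ r < 3, ∀ r' < 3, ∀ i < N - 1, ∀ j < N - 1, i % 2 = j % 2 →
    ¬NPmem_cr (H r i) (H r (i + 1)) (H r' j) (H r' (j + 1))) ∧
  ∀ i < N, ∀ j < N, ¬NPmem_cr (H 0 i) (H 1 i) (H 0 j) (H 1 j) ∧
    ¬NPmem_cr (H 1 i) (H 2 i) (H 1 j) (H 2 j)

theorem NPmem_transfer {N : ℕ} {x : ℕ → Bool} {h : Fin 3 → ℕ → ℤ} {H : ℕ → ℕ → ℕ}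
    (hH : ∀ (r r' : Fin 3) (i j : ℕ), i < N → j < N → (H r i < H r' j ↔ h r i < h r' j)) :
    Fold N x h ↔ NPmem_chk N x H := by
  have he : ∀ (r r' : Fin 3) (i j : ℕ), i < N → j < N → (H r i = H r' j ↔ h r i = h r' j) :=
    fun r r' i j hi hj => by
      have h1 := hH r r' i j hi hj
      have h2 := hH r' r j i hj hi
      omega
  have hc : ∀ (a b c d : Fin 3) (i j k l : ℕ), i < N → j < N → k < N → l < N →
      (NPmem_cr (H a i) (H b j) (H c k) (H d l) ↔ Cr (h a i) (h b j) (h c k) (h d l)) :=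
    fun a b c d i j k l hi hj hk hl => by
      simp only [NPmem_cr, Cr, min_lt_iff, lt_min_iff, lt_max_iff, max_lt_iff,
        hH _ _ _ _ hi hk, hH _ _ _ _ hi hl, hH _ _ _ _ hj hk, hH _ _ _ _ hj hl,
        hH _ _ _ _ hk hi, hH _ _ _ _ hk hj, hH _ _ _ _ hl hi, hH _ _ _ _ hl hj]
  constructor
  · intro F
    refine ⟨fun r hr r' hr' i hi j hj e => ?_, fun i hi => ⟨?_, ?_⟩, fun i hi => ⟨?_, ?_, ?_⟩,
      fun r hr r' hr' i hi j hj e => ?_, fun i hi j hj => ⟨?_, ?_⟩⟩
    · have := F.inj ⟨r, hr⟩ ⟨r', hr'⟩ i j hi hj ((he ⟨r, hr⟩ ⟨r', hr'⟩ i j hi hj).1 e)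
      exact ⟨congrArg Fin.val this.1, this.2⟩
    · exact (hH 1 0 i i hi hi).trans (F.ab i hi)
    · exact (hH 1 2 i i hi hi).trans (F.bc i hi)
    · exact (hH 0 0 i (i + 1) (by omega) (by omega)).trans (F.va i (by omega))
    · exact (hH 1 1 i (i + 1) (by omega) (by omega)).trans (F.vb i (by omega))
    · exact (hH 2 2 i (i + 1) (by omega) (by omega)).trans (F.vc i (by omega))
    · exact fun c => F.ncv ⟨r, hr⟩ ⟨r', hr'⟩ i j (by omega) (by omega) e
        ((hc ⟨r, hr⟩ ⟨r, hr⟩ ⟨r', hr'⟩ ⟨r', hr'⟩ i (i + 1) j (j + 1) (by omega) (by omega)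
          (by omega) (by omega)).1 c)
    · exact fun c => F.ncn i j hi hj ((hc 0 1 0 1 i i j j hi hi hj hj).1 c)
    · exact fun c => F.ncs i j hi hj ((hc 1 2 1 2 i i j j hi hi hj hj).1 c)
  · rintro ⟨c1, c2, c3, c4, c5⟩
    refine ⟨fun r r' i j hi hj e => ?_, fun i hi => ?_, fun i hi => ?_, fun i hi => ?_,
      fun i hi => ?_, fun i hi => ?_, fun r r' i j hi hj e c => ?_, fun i j hi hj c => ?_,
      fun i j hi hj c => ?_⟩
    · have := c1 r r.2 r' r'.2 i hi j hj ((he r r' i j hi hj).2 e)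
      exact ⟨Fin.ext this.1, this.2⟩
    · exact (hH 1 0 i i hi hi).symm.trans (c2 i hi).1
    · exact (hH 1 2 i i hi hi).symm.trans (c2 i hi).2
    · exact (hH 0 0 i (i + 1) (by omega) hi).symm.trans (c3 i (by omega)).1
    · exact (hH 1 1 i (i + 1) (by omega) hi).symm.trans (c3 i (by omega)).2.1
    · exact (hH 2 2 i (i + 1) (by omega) hi).symm.trans (c3 i (by omega)).2.2
    · exact c4 r r.2 r' r'.2 i (by omega) j (by omega) e
        ((hc r r r' r' i (i + 1) j (j + 1) (by omega) hi (by omega) hj).2 c)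
    · exact (c5 i hi j hj).1 ((hc 0 1 0 1 i i j j hi hi hj hj).2 c)
    · exact (c5 i hi j hj).2 ((hc 1 2 1 2 i i j j hi hi hj hj).2 c)

theorem NPmem_rank (N : ℕ) (h : Fin 3 → ℕ → ℤ) : ∃ rk : ℤ → ℕ,
    (∀ r i, i < N → rk (h r i) < 3 * N) ∧ ∀ r i z, i < N → (rk (h r i) < rk z ↔ h r i < z) := by
  refine ⟨fun z => ((Finset.univ ×ˢ Finset.range N).filter
    fun p : Fin 3 × ℕ => h p.1 p.2 < z).card, fun r i hi => ?_, fun r i z hi => ⟨fun e => ?_,
      fun e => Finset.card_lt_card ⟨fun p hp => ?_, fun hs => ?_⟩⟩⟩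
  · have : 3 * N = ((Finset.univ : Finset (Fin 3)) ×ˢ Finset.range N).card := by simp
    rw [this]
    exact Finset.card_lt_card (Finset.filter_ssubset.2 ⟨(r, i), by simpa using hi, lt_irrefl _⟩)
  · by_contra hz
    refine e.not_ge (Finset.card_le_card fun p hp => ?_)
    rw [Finset.mem_filter] at hp ⊢
    exact ⟨hp.1, hp.2.trans_le (not_lt.1 hz)⟩
  · rw [Finset.mem_filter] at hp ⊢
    exact ⟨hp.1, hp.2.trans e⟩
  · have := hs (Finset.mem_filter.2 ⟨(by simpa using hi : (r, i) ∈ _), e⟩)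
    exact lt_irrefl _ (Finset.mem_filter.1 this).2

/-- The heights read from a certificate. -/
def NPmem_hw (N : ℕ) (w : List Bool) (r i : ℕ) : ℕ :=
  findLt (3 * N) fun c => w.getD ((3 * i + r) * (3 * N) + c) false

/-- The Boolean test of the conditions. -/
def NPmem_b (N : ℕ) (x : ℕ → Bool) (H : ℕ → ℕ → ℕ) : Bool :=
  ((List.range 3).all fun r => (List.range 3).all fun r' =>
    decide (∀ i < N, ∀ j < N, H r i = H r' j → r = r' ∧ i = j)) &&
  (decide (∀ i < N, (H 1 i < H 0 i ↔ (i % 2 = 0 ↔ x (5 * i) = false)) ∧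
    (H 1 i < H 2 i ↔ (i % 2 = 0 ↔ x (5 * i + 1) = false))) &&
  (decide (∀ i < N - 1, (H 0 i < H 0 (i + 1) ↔ (i % 2 = 0 ↔ x (5 * i + 2) = true)) ∧
    (H 1 i < H 1 (i + 1) ↔ (i % 2 = 0 ↔ x (5 * i + 3) = false)) ∧
    (H 2 i < H 2 (i + 1) ↔ (i % 2 = 0 ↔ x (5 * i + 4) = true))) &&
  (((List.range 3).all fun r => (List.range 3).all fun r' =>
    decide (∀ i < N - 1, ∀ j < N - 1, i % 2 = j % 2 →
      ¬NPmem_cr (H r i) (H r (i + 1)) (H r' j) (H r' (j + 1)))) &&
  decide (∀ i < N, ∀ j < N, ¬NPmem_cr (H 0 i) (H 1 i) (H 0 j) (H 1 j) ∧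
    ¬NPmem_cr (H 1 i) (H 2 i) (H 1 j) (H 2 j)))))

theorem NPmem_b_iff (N : ℕ) (x : ℕ → Bool) (H : ℕ → ℕ → ℕ) :
    NPmem_b N x H = true ↔ NPmem_chk N x H := by
  simp only [NPmem_b, Bool.and_eq_true, decide_eq_true_eq, List.all_eq_true, List.mem_range]

/-- The verifier. -/
def NPmem_verify (p : List Bool × List Bool) : Bool :=
  decide (p.1.length + 3 = 5 * ((p.1.length + 3) / 5)) &&
    NPmem_b ((p.1.length + 3) / 5) (fun i => p.1.getD i false)
      (NPmem_hw ((p.1.length + 3) / 5) p.2)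

theorem NPmem_ls : LS NPmem_verify := by
  unfold NPmem_verify NPmem_b NPmem_cr NPmem_hw
  fun_prop

theorem map3_mem_NP : map3 ∈ N68a2faeb.NP := by
  refine mem_NP_of_ls ((Polynomial.X + 3) ^ 2) NPmem_verify NPmem_ls fun x => ?_
  simp only [map3, decide_eq_true_eq, NPmem_verify, Bool.and_eq_true, NPmem_b_iff]
  constructor
  · rintro ⟨N, hN, hF⟩
    obtain ⟨h, hh⟩ := (bridge N fun i => x.getD i false).1 hF
    obtain ⟨rk, h1, h2⟩ := NPmem_rank N h
    have e : (x.length + 3) / 5 = N := by omega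
    have hw : ∀ (r : Fin 3) (i : ℕ), i < N → NPmem_hw N ((List.range (3 * N)).flatMap fun a =>
        (List.range (3 * N)).map fun c =>
          decide (c = rk (h ⟨a % 3, Nat.mod_lt _ (by norm_num)⟩ (a / 3)))) r i = rk (h r i) :=
      fun r i hi => by
        have hr := r.2
        have ha : 3 * i + r < 3 * N := by omega
        have e1 : (3 * i + r) / 3 = i := by omega
        have e2 : (⟨(3 * i + r) % 3, Nat.mod_lt _ (by norm_num)⟩ : Fin 3) = r :=
          Fin.ext (by simp only; omega)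
        refine findLt_eq (h1 r i hi).le (fun hc => ?_) fun c hc => ?_
        · rw [getD_matrix _ _ _ _ ha hc, e1, e2, decide_eq_true_eq]
        · rw [getD_matrix _ _ _ _ ha (hc.trans (h1 r i hi)), e1, e2, decide_eq_false_iff_not]
          exact hc.ne
    refine ⟨(List.range (3 * N)).flatMap fun a => (List.range (3 * N)).map fun c =>
      decide (c = rk (h ⟨a % 3, Nat.mod_lt _ (by norm_num)⟩ (a / 3))), ?_, ?_⟩
    · rw [length_matrix]
      simp only [Polynomial.eval_pow, Polynomial.eval_add, Polynomial.eval_X,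
        Polynomial.eval_ofNat, hN]
      nlinarith
    · rw [e]
      refine ⟨hN, (NPmem_transfer fun r r' i j hi hj => ?_).1 hh⟩
      rw [hw r i hi, hw r' j hj, h2 r i _ hi]
  · rintro ⟨w, -, h1, h2⟩
    refine ⟨_, h1, (bridge _ fun i => x.getD i false).2
      ⟨fun r i => (NPmem_hw ((x.length + 3) / 5) w r i : ℤ), (NPmem_transfer ?_).2 h2⟩⟩
    exact fun r r' i j _ _ => Nat.cast_lt.symm

end Pool.Agent.Work.MP_8ff565_lc
end
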