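import Mathlib
import Pool.Prelude.Def_H_3587d628

/-!
Flat-foldability of `3 x n` maps with a mountain-valley assignment.
-/

namespace Pool.Agent.Work.MP_8ff565_lc

/-- The faces of the `3 x n` map: (row, column). -/
abbrev Face (n : ℕ) := Fin 3 × Fin n

/-- The creases of the `3 x n` map: `inl (r, j)` lies between rows `r` and `r + 1` in column `j`,
and `inr (r, j)` lies between columns `j` and `j + 1` in row `r`. -/
abbrev Crease (n : ℕ) := (Fin 2 × Fin n) ⊕ (Fin 3 × Fin (n - 1))

/-- The two faces joined by a crease. -/
def ends {n : ℕ} : Crease n → Face n × Face n
  | .inl (r, j) => ((r.castSucc, j), (r.succ, j))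
  | .inr (r, j) => ((r, ⟨j, by omega⟩), (r, ⟨j + 1, by omega⟩))

/-- The crease `c` joins the faces `f` and `g` (in either order). -/
def Joins {n : ℕ} (c : Crease n) (f g : Face n) : Prop := ends c = (f, g) ∨ ends c = (g, f)

/-- The edge of the folded square on which a crease lands. Horizontal creases land on the two
horizontal edges according to the parity of their grid line, vertical creases on the two vertical
edges according to the parity of theirs. -/
def edge {n : ℕ} : Crease n → ℕ ⊕ ℕ
  | .inl (r, _) => .inl (r.val % 2)
  | .inr (_, j) => .inr (j.val % 2)

/-- Faces are face-up and face-down in checkerboard fashion. (Turning the folded state over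
exchanges the two colours and reverses the order, so the face `(0, 0)` may be taken face-up.) -/
def FaceUp {n : ℕ} (f : Face n) : Prop := (f.1.val + f.2.val) % 2 = 0

/-- The assignment `mv` (`true` = valley, `false` = mountain) is globally flat-foldable: there is
a total order `lt` (bottom to top) of the faces such that across a valley crease the face-up face
is below the face-down face (they meet on their top sides), across a mountain crease it is above
(they meet on their bottom sides), and creases landing on the same edge do not interleave. -/
def Foldable (n : ℕ) (mv : Crease n → Bool) : Prop :=
  ∃ lt : Face n → Face n → Prop, IsStrictTotalOrder (Face n) lt ∧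
    (∀ c f g, Joins c f g → FaceUp f → if mv c = true then lt f g else lt g f) ∧
    (∀ c c' a b x y, edge c = edge c' → Joins c a b → Joins c' x y →
      ¬(lt a x ∧ lt x b ∧ lt b y))

/-- The position of the label of a crease in the input string: five bits per column (its two
horizontal creases, then the three vertical creases to its right), two for the last column. -/
def pos {n : ℕ} : Crease n → ℕ
  | .inl (r, j) => 5 * j.val + r.val
  | .inr (r, j) => 5 * j.val + 2 + r.val

open Classical in
/-- The language `MAP_3`: strings of length `5 n - 3` whose bits, read as the labels of the
`5 n - 3` creases of the `3 x n` map, form a globally flat-foldable assignment. -/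
noncomputable def map3 : N68a2faeb.DecisionProblem := fun x =>
  decide (∃ n : ℕ, x.length + 3 = 5 * n ∧ Foldable n fun c => x.getD (pos c) false)

end Pool.Agent.Work.MP_8ff565_lc
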